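import Mathlib

/-! Sums of shifted tents and their cosine transforms. -/

open MeasureTheory

namespace Pool.Agent.Y748

/-- the tent function -/
noncomputable def tent (u : ℝ) : ℝ := max 0 (1 - |u|)

lemma tent_cont : Continuous tent := by
  unfold tent
  fun_prop

lemma tent_neg (u : ℝ) : tent (-u) = tent u := by
  unfold tent
  rw [abs_neg]

lemma tent_zero_of {u : ℝ} (h : 1 ≤ |u|) : tent u = 0 := by
  unfold tent
  rw [max_eq_left]
  linarith

lemma tent_supp (u : ℝ) (h : u ∉ Set.Ioc (-1 : ℝ) 1) : tent u = 0 := by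
  apply tent_zero_of
  by_contra hcon
  rw [not_le, abs_lt] at hcon
  exact h ⟨hcon.1, hcon.2.le⟩

lemma tent_of_nonneg {u : ℝ} (h0 : 0 ≤ u) (h1 : u ≤ 1) : tent u = 1 - u := by
  unfold tent
  rw [abs_of_nonneg h0, max_eq_right (by linarith)]

lemma hasComp (f : ℝ → ℝ) (hf : Continuous f) :
    Integrable (fun u => tent u * f u) := by
  apply Continuous.integrable_of_hasCompactSupport (tent_cont.mul hf)
  apply HasCompactSupport.mul_right
  refine HasCompactSupport.intro (isCompact_Icc (a := (-1 : ℝ)) (b := 1)) ?_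
  intro u hu
  exact tent_supp u fun h => hu ⟨h.1.le, h.2⟩

/-- integral of the tent against an even function -/
lemma int_even (f : ℝ → ℝ) (hf : Continuous f) (he : ∀ u, f (-u) = f u) :
    ∫ u : ℝ, tent u * f u = 2 * ∫ u in (0 : ℝ)..1, (1 - u) * f u := by
  have h1 : ∫ u in (-1 : ℝ)..1, tent u * f u = ∫ u : ℝ, tent u * f u := by
    apply intervalIntegral.integral_eq_integral_of_support_subset
    intro u hu
    by_contra hcon
    exact hu (by simp [tent_supp u hcon])
  rw [← h1]
  have hc : Continuous fun u => tent u * f u := tent_cont.mul hf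
  rw [← intervalIntegral.integral_add_adjacent_intervals (b := 0) (hc.intervalIntegrable _ _)
    (hc.intervalIntegrable _ _)]
  have h2 : ∫ u in (-1 : ℝ)..0, tent u * f u = ∫ u in (0 : ℝ)..1, tent u * f u := by
    have h3 := intervalIntegral.integral_comp_neg (a := (0 : ℝ)) (b := 1)
      (fun u => tent u * f u)
    rw [neg_zero] at h3
    rw [← h3]
    refine intervalIntegral.integral_congr fun u _ => ?_
    simp only [tent_neg, he]
  have h4 : ∫ u in (0 : ℝ)..1, tent u * f u = ∫ u in (0 : ℝ)..1, (1 - u) * f u := by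
    refine intervalIntegral.integral_congr fun u hu => ?_
    rw [Set.uIcc_of_le zero_le_one] at hu
    simp only [tent_of_nonneg hu.1 hu.2]
  rw [h2, h4]
  ring

lemma int_odd (f : ℝ → ℝ) (ho : ∀ u, f (-u) = -f u) :
    ∫ u : ℝ, tent u * f u = 0 := by
  have h1 := integral_neg_eq_self (fun u : ℝ => tent u * f u) volume
  simp only [tent_neg, ho] at h1
  have h2 : ∫ u : ℝ, tent u * -f u = -∫ u : ℝ, tent u * f u := by
    rw [← integral_neg]
    refine integral_congr_ae (Filter.Eventually.of_forall fun u => ?_)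
    simp
  rw [h2] at h1
  linarith

lemma tent_int : ∫ u : ℝ, tent u = 1 := by
  have h := int_even (fun _ => 1) continuous_const (fun _ => rfl)
  simp only [mul_one] at h
  rw [h]
  have : ∫ u in (0 : ℝ)..1, (1 - u) = 1 / 2 := by
    rw [intervalIntegral.integral_sub (by simp) (by simp)]
    simp
    norm_num
  rw [this]
  norm_num

/-- the cosine transform of the tent -/
lemma tent_cos (θ : ℝ) : ∫ u : ℝ, tent u * Real.cos (θ * u) = Real.sinc (θ / 2) ^ 2 := by
  rw [int_even _ (by fun_prop) (fun u => by rw [mul_neg, Real.cos_neg])]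
  by_cases h0 : θ = 0
  · subst h0
    simp only [zero_mul, Real.cos_zero, mul_one, zero_div, Real.sinc_zero]
    have : ∫ u in (0 : ℝ)..1, (1 - u) = 1 / 2 := by
      rw [intervalIntegral.integral_sub (by simp) (by simp)]
      simp
      norm_num
    rw [this]
    norm_num
  · have hd : ∀ u ∈ Set.uIcc (0 : ℝ) 1, HasDerivAt
        (fun u => (1 - u) * Real.sin (θ * u) / θ - Real.cos (θ * u) / θ ^ 2)
        ((1 - u) * Real.cos (θ * u)) u := by
      intro u _
      have hl : HasDerivAt (fun u : ℝ => θ * u) θ u := by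
        simpa using (hasDerivAt_id u).const_mul θ
      have h1 : HasDerivAt (fun u : ℝ => 1 - u) (-1) u := by
        simpa using (hasDerivAt_id u).const_sub 1
      have h2 := ((h1.mul hl.sin).div_const θ).sub (hl.cos.div_const (θ ^ 2))
      refine HasDerivAt.congr_deriv (f := fun u : ℝ => (1 - u) * Real.sin (θ * u) / θ -
        Real.cos (θ * u) / θ ^ 2) h2 ?_
      have h0' : θ ≠ 0 := h0
      field_simp
      ring
    rw [intervalIntegral.integral_eq_sub_of_hasDerivAt hd
      ((by fun_prop : Continuous fun u : ℝ => (1 - u) * Real.cos (θ * u)).intervalIntegrable _ _),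
      Real.sinc_of_ne_zero (by positivity)]
    have h3 : Real.cos θ = 1 - 2 * Real.sin (θ / 2) ^ 2 := by
      have := Real.cos_two_mul (θ / 2)
      rw [Real.cos_sq'] at this
      rw [show θ = 2 * (θ / 2) by ring, this]
      ring_nf
    simp only [mul_one, mul_zero, Real.cos_zero, Real.sin_zero, sub_self, zero_mul, zero_div]
    rw [h3]
    field_simp
    ring

/-- shifted tent against a cosine -/
lemma tent_shift {c : ℝ} (hc : 0 < c) (k θ : ℝ) :
    ∫ α : ℝ, tent (c * α - k) * Real.cos (θ * α) =
      c⁻¹ * (Real.cos (θ * k / c) * Real.sinc (θ / (2 * c)) ^ 2) := by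
  have h1 : ∫ α : ℝ, tent (c * α - k) * Real.cos (θ * α) =
      ∫ α : ℝ, (fun v : ℝ => tent (v - k) * Real.cos (θ / c * v)) (c * α) := by
    refine integral_congr_ae (Filter.Eventually.of_forall fun α => ?_)
    have : θ / c * (c * α) = θ * α := by field_simp
    simp only [this]
  rw [h1, Measure.integral_comp_mul_left (fun v : ℝ => tent (v - k) * Real.cos (θ / c * v)) c,
    abs_of_pos (inv_pos.2 hc), smul_eq_mul]
  congr 1
  have h2 : ∫ v : ℝ, tent (v - k) * Real.cos (θ / c * v) =
      ∫ u : ℝ, tent u * Real.cos (θ / c * (u + k)) := by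
    have := integral_sub_right_eq_self (μ := volume)
      (fun u : ℝ => tent u * Real.cos (θ / c * (u + k))) k
    rw [← this]
    refine integral_congr_ae (Filter.Eventually.of_forall fun v => ?_)
    simp
  rw [h2]
  have h3 : ∀ u : ℝ, tent u * Real.cos (θ / c * (u + k)) =
      Real.cos (θ * k / c) * (tent u * Real.cos (θ / c * u)) -
        tent u * (Real.sin (θ * k / c) * Real.sin (θ / c * u)) := by
    intro u
    have : θ / c * (u + k) = θ / c * u + θ * k / c := by ring
    rw [this, Real.cos_add]
    ring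
  simp_rw [h3]
  rw [integral_sub ((hasComp _ (by fun_prop)).const_mul _) (hasComp _ (by fun_prop)),
    integral_const_mul, tent_cos, int_odd _ (fun u => by rw [mul_neg, Real.sin_neg]; ring),
    sub_zero]
  congr 2
  field_simp

/-- first moment of a shifted tent -/
lemma tent_mom {c : ℝ} (hc : 0 < c) (k : ℝ) :
    ∫ α : ℝ, tent (c * α - k) * α = k / c ^ 2 := by
  have h1 : ∫ α : ℝ, tent (c * α - k) * α =
      ∫ α : ℝ, (fun v : ℝ => tent (v - k) * (c⁻¹ * v)) (c * α) := by
    refine integral_congr_ae (Filter.Eventually.of_forall fun α => ?_)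
    have : c⁻¹ * (c * α) = α := by field_simp
    simp only [this]
  rw [h1, Measure.integral_comp_mul_left (fun v : ℝ => tent (v - k) * (c⁻¹ * v)) c,
    abs_of_pos (inv_pos.2 hc), smul_eq_mul]
  have h2 : ∫ v : ℝ, tent (v - k) * (c⁻¹ * v) = ∫ u : ℝ, tent u * (c⁻¹ * (u + k)) := by
    have := integral_sub_right_eq_self (μ := volume)
      (fun u : ℝ => tent u * (c⁻¹ * (u + k))) k
    rw [← this]
    refine integral_congr_ae (Filter.Eventually.of_forall fun v => ?_)
    simp
  rw [h2]
  have h3 : ∀ u : ℝ, tent u * (c⁻¹ * (u + k)) = tent u * (c⁻¹ * u) + (c⁻¹ * k) * tent u := by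
    intro u
    ring
  simp_rw [h3]
  have hi : Integrable tent := by
    have := hasComp (fun _ => 1) continuous_const
    simpa using this
  rw [integral_add (hasComp _ (by fun_prop)) (hi.const_mul _), integral_const_mul, tent_int,
    int_odd _ (fun u => by ring)]
  field_simp
  ring

end Pool.Agent.Y748
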