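import Pool.Agent.Y748.Seq3

/-! The bounds for the weighted sums over the gaps. -/

open Finset Filter Topology MeasureTheory

namespace Pool.Agent.Y748

variable {γ : ℕ → ℝ} {NZ : ℝ → ℕ}

lemma Good.large (hG : Good γ NZ) {T : ℝ} {n : ℕ} (hn : NZ T < n) : T < γ n := by
  by_contra hcon
  rw [not_lt] at hcon
  have h2 := (hG.le_iff n (by omega) T).1 hcon
  omega

/-- `∑ φ(γ_n) = (M + o(1)) N` -/
lemma Good.sumφ (hG : Good γ NZ) {φ : ℝ → ℝ} {M B : ℝ} (hφ0 : ∀ t, 0 ≤ φ t) (hφB : ∀ t, φ t ≤ B)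
    (hM0 : 0 ≤ M) (hMB : M ≤ B)
    (hs : ∀ ε : ℝ, 0 < ε → ∃ T0 : ℝ, ∀ T : ℝ, T0 ≤ T →
      |∑ n ∈ Finset.Ioc (NZ T) (NZ (2 * T)), φ (γ n) - M * ((NZ (2 * T) : ℝ) - NZ T)| ≤
        ε * ((NZ (2 * T) : ℝ) - NZ T)) (ε : ℝ) (hε : 0 < ε) :
    ∀ᶠ N : ℕ in atTop, |∑ n ∈ Finset.Icc 1 N, φ (γ n) - M * N| ≤ ε * N := by
  have h1 := hG.upper (a := fun n => φ (γ n)) (fun n _ => hφ0 _) hM0 (fun ε hε => by
    obtain ⟨T0, hT0⟩ := hs ε hε
    refine ⟨T0, fun T hT => ?_⟩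
    have := (abs_le.1 (hT0 T hT)).2
    linarith) ε hε
  have h2 := hG.upper (a := fun n => B - φ (γ n)) (c := B - M)
    (fun n _ => by linarith [hφB (γ n)]) (by linarith) (fun ε hε => by
    obtain ⟨T0, hT0⟩ := hs ε hε
    refine ⟨max T0 0, fun T hT => ?_⟩
    have := (abs_le.1 (hT0 T ((le_max_left _ _).trans hT))).1
    have hT' : 0 ≤ T := (le_max_right _ _).trans hT
    have hle : NZ T ≤ NZ (2 * T) := hG.NZ_mono (by linarith)
    rw [Finset.sum_sub_distrib, Finset.sum_const, Nat.card_Ioc, nsmul_eq_mul, Nat.cast_sub hle]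
    linarith) ε hε
  filter_upwards [h1, h2] with N hN1 hN2
  rw [Finset.sum_sub_distrib, Finset.sum_const, Nat.card_Icc, nsmul_eq_mul,
    Nat.add_sub_cancel] at hN2
  rw [abs_le]
  constructor <;> linarith

/-- `∑ δ_n = (1 + o(1)) N` -/
lemma Good.sumδ (hG : Good γ NZ) (ε : ℝ) (hε : 0 < ε) :
    ∀ᶠ N : ℕ in atTop, |∑ n ∈ Finset.Icc 1 N, dl γ n - N| ≤ ε * N := by
  have e1 : ∀ N : ℕ, ∑ n ∈ Finset.Icc 1 N, dl γ n = nrm (γ (N + 1)) - nrm (γ 1) := by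
    intro N
    induction N with
    | zero => simp
    | succ N ih =>
      rw [Finset.sum_Icc_succ_top (by omega), ih, dl_eq]
      ring
  have h0 : 0 < ε / 4 := by positivity
  have h1 := (tendsto_add_atTop_nat 1).eventually (hG.nrm_le (ε / 4) h0)
  have h2 := (tendsto_add_atTop_nat 1).eventually (hG.nrm_ge (ε / 4) h0)
  have h3 : ∀ᶠ N : ℕ in atTop, 4 * (|nrm (γ 1)| + 1 + ε) / ε ≤ (N : ℝ) :=
    tendsto_natCast_atTop_atTop.eventually_ge_atTop _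
  filter_upwards [h1, h2, h3] with N hN1 hN2 hN3
  rw [e1]
  rw [div_le_iff₀ hε] at hN3
  push_cast at hN1 hN2
  have ha := abs_le.1 (le_refl |nrm (γ 1)|)
  have hN0 : (0 : ℝ) ≤ N := Nat.cast_nonneg N
  rw [abs_le]
  constructor
  · -- lower bound
    have h4 : (N : ℝ) + 1 ≤ (1 + ε / 4) * nrm (γ (N + 1)) := by linarith
    have h5 : (1 + ε / 4) * ((N : ℝ) * (1 - ε / 4)) ≤ (1 + ε / 4) * nrm (γ (N + 1)) := by
      nlinarith [mul_nonneg hN0 (sq_nonneg ε)]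
    have h6 := le_of_mul_le_mul_left h5 (by positivity)
    nlinarith
  · nlinarith

/-- `∑ φ(γ_n) δ_n = (M + o(1)) N` -/
lemma Good.sumφδ (hG : Good γ NZ) {φ : ℝ → ℝ} {M B : ℝ} (hc : UniformContinuous φ)
    (hφ0 : ∀ t, 0 ≤ φ t) (hφB : ∀ t, φ t ≤ B)
    (hM0 : 0 ≤ M) (hMB : M ≤ B)
    (hM : Tendsto (fun X : ℝ => (∫ t in (0 : ℝ)..X, φ t) / X) atTop (𝓝 M))
    (ε : ℝ) (hε : 0 < ε) :
    ∀ᶠ N : ℕ in atTop, |∑ n ∈ Finset.Icc 1 N, φ (γ n) * dl γ n - M * N| ≤ ε * N := by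
  have key : ∀ (ψ : ℝ → ℝ) (L : ℝ), UniformContinuous ψ → (∀ t, 0 ≤ ψ t) → 0 ≤ L →
      Tendsto (fun X : ℝ => (∫ t in (0 : ℝ)..X, ψ t) / X) atTop (𝓝 L) → ∀ ε : ℝ, 0 < ε →
      ∀ᶠ N : ℕ in atTop, ∑ n ∈ Finset.Icc 1 N, ψ (γ n) * dl γ n ≤ (L + ε) * N := by
    intro ψ L hψ hψ0 hL hLm ε hε
    have h1 := hG.upper (a := fun n => ψ (γ n) * max (dl γ n) 0)
      (fun n _ => mul_nonneg (hψ0 _) (le_max_right _ _)) hL (fun ε hε => by
      obtain ⟨T0, hT0⟩ := hG.gap_block hψ hψ0 hL hLm ε hε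
      refine ⟨max T0 1, fun T hT => ?_⟩
      have h2 := hT0 T ((le_max_left _ _).trans hT)
      have hT1 : 1 ≤ T := (le_max_right _ _).trans hT
      refine le_trans (le_of_eq ?_) h2
      refine Finset.sum_congr rfl fun n hn => ?_
      have hn' := (Finset.mem_Ioc.1 hn).1
      rw [max_eq_left (dl_nonneg hG (by omega) (hT1.trans (hG.large hn').le))]) ε hε
    filter_upwards [h1] with N hN
    refine le_trans (Finset.sum_le_sum fun n _ => ?_) hN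
    exact mul_le_mul_of_nonneg_left (le_max_left _ _) (hψ0 _)
  have hB0 : 0 ≤ B := hM0.trans hMB
  have k1 := key φ M hc hφ0 hM0 hM ε hε
  have hmean : Tendsto (fun X : ℝ => (∫ t in (0 : ℝ)..X, (B - φ t)) / X) atTop (𝓝 (B - M)) := by
    have h2 : Tendsto (fun X : ℝ => B - (∫ t in (0 : ℝ)..X, φ t) / X) atTop (𝓝 (B - M)) :=
      tendsto_const_nhds.sub hM
    refine h2.congr' ?_
    filter_upwards [eventually_gt_atTop 0] with X hX
    rw [intervalIntegral.integral_sub intervalIntegrable_const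
      (hc.continuous.intervalIntegrable _ _), intervalIntegral.integral_const, smul_eq_mul]
    field_simp
    ring
  have k2 := key (fun t => B - φ t) (B - M) (uniformContinuous_const.sub hc)
    (fun t => by linarith [hφB t]) (by linarith) hmean (ε / 2) (by positivity)
  have k3 := hG.sumδ (ε / (2 * (B + 1))) (by positivity)
  filter_upwards [k1, k2, k3] with N h1 h2 h3
  have hN0 : (0 : ℝ) ≤ N := Nat.cast_nonneg N
  have e : ∑ n ∈ Finset.Icc 1 N, (B - φ (γ n)) * dl γ n =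
      B * ∑ n ∈ Finset.Icc 1 N, dl γ n - ∑ n ∈ Finset.Icc 1 N, φ (γ n) * dl γ n := by
    rw [Finset.mul_sum, ← Finset.sum_sub_distrib]
    refine Finset.sum_congr rfl fun n _ => ?_
    ring
  rw [e] at h2
  have h4 := (abs_le.1 h3).1
  have h5 : B * (N - ε / (2 * (B + 1)) * N) ≤ B * ∑ n ∈ Finset.Icc 1 N, dl γ n :=
    mul_le_mul_of_nonneg_left (by linarith) hB0
  have h6 : B * (ε / (2 * (B + 1)) * N) ≤ ε / 2 * N := by
    rw [← mul_assoc]
    apply mul_le_mul_of_nonneg_right _ hN0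
    rw [← mul_div_assoc, div_le_iff₀ (by positivity)]
    nlinarith
  rw [abs_le]
  constructor <;> nlinarith

/-- upper bound for the small gaps, weighted -/
theorem Good.small (hG : Good γ NZ) {h φ : ℝ → ℝ} {x B M m0 : ℝ} (hx : 0 < x)
    (hh0 : ∀ y, 0 ≤ h y) (heven : ∀ y, h (-y) = h y)
    (hmaj : ∀ y, 0 ≤ y → y ≤ x → x - y ≤ h y) (hm0 : h 0 ≤ m0)
    (hc : UniformContinuous φ) (hφ0 : ∀ t, 0 ≤ φ t) (hφB : ∀ t, φ t ≤ B) (hM0 : 0 ≤ M)
    (hs : ∀ ε : ℝ, 0 < ε → ∃ T0 : ℝ, ∀ T : ℝ, T0 ≤ T →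
      |∑ n ∈ Finset.Ioc (NZ T) (NZ (2 * T)), φ (γ n) - M * ((NZ (2 * T) : ℝ) - NZ T)| ≤
        ε * ((NZ (2 * T) : ℝ) - NZ T))
    (hp : ∀ ε : ℝ, 0 < ε → ∃ T0 : ℝ, ∀ T : ℝ, T0 ≤ T →
      ∑ n ∈ Finset.Ioc (NZ T) (NZ (2 * T)), ∑ m ∈ Finset.Ioc (NZ T) (NZ (2 * T)),
        h ((γ n - γ m) * Real.log T / (2 * Real.pi)) * φ (γ n) ≤
        (m0 * M + ε) * ((NZ (2 * T) : ℝ) - NZ T)) (ε : ℝ) (hε : 0 < ε) :
    ∀ᶠ N : ℕ in atTop, ∑ n ∈ Finset.Icc 1 N, φ (γ n) * max (x - dl γ n) 0 ≤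
      ((m0 - h 0) / 2 * M + ε) * N := by
  have hB0 : 0 ≤ B := (hφ0 0).trans (hφB 0)
  have hpi := Real.pi_pos
  refine hG.upper (a := fun n => φ (γ n) * max (x - dl γ n) 0)
    (fun n _ => mul_nonneg (hφ0 _) (le_max_right _ _)) (c := (m0 - h 0) / 2 * M)
    (mul_nonneg (by linarith) hM0) ?_ ε hε
  intro ε hε
  have hh00 := hh0 0
  set η := ε / (4 * x) with hη
  have hη0 : 0 < η := by positivity
  set ε1 := ε / (4 * (h 0 + 1)) with hε1
  have hε10 : 0 < ε1 := by positivity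
  obtain ⟨δ, hδ, hφδ⟩ := Metric.uniformContinuous_iff.1 hc η hη0
  obtain ⟨T1, hT1⟩ := hs ε1 hε10
  obtain ⟨T2, hT2⟩ := hp (ε / 4) (by positivity)
  obtain ⟨T4, hT4⟩ := hG.block 1 one_pos
  have hgap := hG.gap.eventually_lt_const hδ
  rw [eventually_atTop] at hgap
  obtain ⟨N0, hN0⟩ := hgap
  -- the number of terms is large
  have hbig : ∀ᶠ T : ℝ in atTop, 16 * Real.pi * (2 * (x * B)) / ε ≤ T * Real.log T :=
    (tendsto_id.atTop_mul_atTop₀ Real.tendsto_log_atTop).eventually_ge_atTop _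
  rw [eventually_atTop] at hbig
  obtain ⟨T3, hT3⟩ := hbig
  refine ⟨max (max T1 T2) (max (max T3 T4) (max 2 (γ N0))), fun T hT => ?_⟩
  have k1 : T1 ≤ T := (le_max_left _ _).trans ((le_max_left _ _).trans hT)
  have k2 : T2 ≤ T := (le_max_right _ _).trans ((le_max_left _ _).trans hT)
  have k34 : max T3 T4 ≤ T := (le_max_left _ _).trans ((le_max_right _ _).trans hT)
  have k3 : T3 ≤ T := (le_max_left _ _).trans k34
  have k4 : T4 ≤ T := (le_max_right _ _).trans k34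
  have k5 : 2 ≤ T := (le_max_left _ _).trans ((le_max_right _ _).trans ((le_max_right _ _).trans hT))
  have k6 : γ N0 ≤ T :=
    (le_max_right _ _).trans ((le_max_right _ _).trans ((le_max_right _ _).trans hT))
  have m1 := hT1 T k1
  have m2 := hT2 T k2
  have m3 := hT3 T k3
  have m4 := hT4 T k4
  set a := NZ T with ha
  set b := NZ (2 * T) with hb
  have hab : a ≤ b := hG.NZ_mono (by linarith)
  have hbigN : ∀ n, a < n → N0 < n := by
    intro n hn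
    by_contra hcon
    rw [not_lt] at hcon
    have h1 := hG.mono (by omega : 1 ≤ n) hcon
    have h2 := (hG.le_iff n (by omega) T).1 (h1.trans k6)
    omega
  have h1 := block_ineq (γ := γ) (a := a) (b := b) (T := T) (x := x) (B := B) (η := η) (h := h)
    (φ := φ) (by linarith) hx hB0 hη0.le (fun n hn _ => hG.large hn)
    (fun n hn => hG.mono (by omega) (Nat.le_succ n)) hh0 heven hmaj hφ0 hφB (by
      intro n hn _ _
      have h2 : dist (γ (n + 1)) (γ n) < δ := by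
        rw [Real.dist_eq, abs_of_nonneg (by linarith [hG.mono (by omega : 1 ≤ n) (Nat.le_succ n)])]
        exact hN0 n (hbigN n hn).le
      have h3 := hφδ h2
      rw [Real.dist_eq] at h3
      have := (abs_lt.1 h3).1
      linarith)
  have hcard : ((Finset.Ioc a b).card : ℝ) = (b : ℝ) - a := by
    rw [Nat.card_Ioc, Nat.cast_sub hab]
  rw [hcard] at h1
  have m1' := (abs_le.1 m1).1
  set D := (b : ℝ) - a with hD
  have hD0 : 0 ≤ D := by
    have : (a : ℝ) ≤ b := by exact_mod_cast hab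
    rw [hD]; linarith
  have e1 : η * x = ε / 4 := by rw [hη]; field_simp
  have e2 : h 0 * ε1 ≤ ε / 4 := by
    rw [hε1, ← mul_div_assoc, div_le_iff₀ (by positivity)]
    nlinarith
  have e3 : h 0 * ((M - ε1) * D) ≤ h 0 * ∑ n ∈ Finset.Ioc a b, φ (γ n) :=
    mul_le_mul_of_nonneg_left (by linarith) hh00
  have e4 : 2 * (x * B) ≤ ε / 2 * D := by
    rw [div_le_iff₀ hε] at m3
    have h5 : T * Real.log T ≤ 4 * Real.pi * D := by
      rw [div_le_iff₀ (by positivity)] at m4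
      linarith
    have h6 : 16 * Real.pi * (2 * (x * B)) ≤ 4 * Real.pi * D * ε :=
      m3.trans (mul_le_mul_of_nonneg_right h5 hε.le)
    have h7 : Real.pi * (16 * (2 * (x * B))) ≤ Real.pi * (4 * D * ε) := by linarith
    have h8 := le_of_mul_le_mul_left h7 hpi
    have h9 : 0 ≤ D * ε := mul_nonneg hD0 hε.le
    linarith
  have e5 : h 0 * ε1 * D ≤ ε / 4 * D := mul_le_mul_of_nonneg_right e2 hD0
  rw [e1] at h1
  show ∑ n ∈ Finset.Ioc a b, φ (γ n) * max (x - dl γ n) 0 ≤ _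
  nlinarith

end Pool.Agent.Y748
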