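import Pool.Agent.Y748.Goe

/-! The gap probability of the Gaussian orthogonal ensemble. -/

open MeasureTheory Matrix Filter Topology

namespace Pool.Agent.Y748

/-- the even part of the sine kernel -/
noncomputable def Kp (x y : ℝ) : ℝ :=
  Real.sinc (Real.pi * (x - y)) + Real.sinc (Real.pi * (x + y))

lemma sinc_int (a : ℝ) : ∫ t in (0 : ℝ)..1, Real.cos (a * t) = Real.sinc a := by
  by_cases h : a = 0
  · subst h; simp
  · rw [Real.sinc_of_ne_zero h]
    have hd : ∀ u ∈ Set.uIcc (0 : ℝ) 1, HasDerivAt (fun u => Real.sin (a * u) / a)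
        (Real.cos (a * u)) u := by
      intro u _
      have hl : HasDerivAt (fun u : ℝ => a * u) a u := by
        simpa using (hasDerivAt_id u).const_mul a
      refine (hl.sin.div_const a).congr_deriv ?_
      field_simp
    rw [intervalIntegral.integral_eq_sub_of_hasDerivAt hd
      ((by fun_prop : Continuous fun u : ℝ => Real.cos (a * u)).intervalIntegrable _ _)]
    simp

lemma Kp_int (x y : ℝ) : Kp x y =
    ∫ t in (0 : ℝ)..1, 2 * (Real.cos (Real.pi * x * t) * Real.cos (Real.pi * y * t)) := by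
  unfold Kp
  rw [← sinc_int, ← sinc_int, ← intervalIntegral.integral_add
    ((by fun_prop : Continuous fun t : ℝ => Real.cos (Real.pi * (x - y) * t)).intervalIntegrable _ _)
    ((by fun_prop : Continuous fun t : ℝ => Real.cos (Real.pi * (x + y) * t)).intervalIntegrable _ _)]
  refine intervalIntegral.integral_congr fun t _ => ?_
  have e1 : Real.pi * (x - y) * t = Real.pi * x * t - Real.pi * y * t := by ring
  have e2 : Real.pi * (x + y) * t = Real.pi * x * t + Real.pi * y * t := by ring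
  show Real.cos (Real.pi * (x - y) * t) + Real.cos (Real.pi * (x + y) * t) = _
  rw [e1, e2, Real.cos_sub, Real.cos_add]
  ring

lemma Kp_cont : Continuous fun q : ℝ × ℝ => Kp q.1 q.2 := by
  unfold Kp
  have h := Real.continuous_sinc
  exact (h.comp (by fun_prop : Continuous fun q : ℝ × ℝ => Real.pi * (q.1 - q.2))).add
    (h.comp (by fun_prop : Continuous fun q : ℝ × ℝ => Real.pi * (q.1 + q.2)))

lemma Kp_bdd (x y : ℝ) : |Kp x y| ≤ 2 := by
  unfold Kp
  refine (abs_add_le _ _).trans ?_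
  have h1 := Real.abs_sinc_le_one (Real.pi * (x - y))
  have h2 := Real.abs_sinc_le_one (Real.pi * (x + y))
  linarith

lemma Kp_symm (x y : ℝ) : Kp x y = Kp y x := by
  unfold Kp
  have e : Real.pi * (y - x) = -(Real.pi * (x - y)) := by ring
  rw [e, Real.sinc_neg, add_comm x y]

lemma Kp_psd (n : ℕ) (x : Fin n → ℝ) : (Mt Kp x).PosSemidef := by
  apply Matrix.PosSemidef.of_dotProduct_mulVec_nonneg
  · ext i j
    simp [Mt, Kp_symm (x j) (x i)]
  · intro v
    have e : star v ⬝ᵥ (Mt Kp x *ᵥ v) =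
        ∫ t in (0 : ℝ)..1, 2 * (∑ i, v i * Real.cos (Real.pi * x i * t)) ^ 2 := by
      have e1 : ∀ t : ℝ, 2 * (∑ i, v i * Real.cos (Real.pi * x i * t)) ^ 2 =
          ∑ i, ∑ j, v i * v j * (2 * (Real.cos (Real.pi * x i * t) *
            Real.cos (Real.pi * x j * t))) := by
        intro t
        rw [sq, Finset.sum_mul_sum, Finset.mul_sum]
        refine Finset.sum_congr rfl fun i _ => ?_
        rw [Finset.mul_sum]
        refine Finset.sum_congr rfl fun j _ => ?_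
        ring
      simp_rw [e1]
      rw [intervalIntegral.integral_finsetSum fun i _ =>
        (by fun_prop : Continuous fun t : ℝ => ∑ j, v i * v j * (2 * (Real.cos (Real.pi * x i * t) *
            Real.cos (Real.pi * x j * t)))).intervalIntegrable _ _]
      simp only [dotProduct, mulVec, star_trivial, Finset.mul_sum]
      refine Finset.sum_congr rfl fun i _ => ?_
      rw [intervalIntegral.integral_finsetSum fun j _ =>
        (by fun_prop : Continuous fun t : ℝ => v i * v j * (2 * (Real.cos (Real.pi * x i * t) *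
            Real.cos (Real.pi * x j * t)))).intervalIntegrable _ _]
      refine Finset.sum_congr rfl fun j _ => ?_
      rw [intervalIntegral.integral_const_mul, ← Kp_int]
      simp only [Mt, Matrix.of_apply]
      ring
    rw [e]
    apply intervalIntegral.integral_nonneg (by norm_num)
    intro t _
    positivity

/-- the trace -/
lemma Kp_trace {a : ℝ} (ha : 0 ≤ a) : ∫ y, Kp y y ∂(volume.restrict (Set.Icc 0 a)) ≤
    2 * a - (2 * Real.pi) ^ 2 * a ^ 3 / 18 + (2 * Real.pi) ^ 4 * a ^ 5 / 600 -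
      (2 * Real.pi) ^ 6 * a ^ 7 / 35280 + (2 * Real.pi) ^ 8 * a ^ 9 / 3265920 := by
  have hpi := Real.pi_pos
  have hdiag : Continuous fun y : ℝ => Kp y y :=
    Kp_cont.comp (by fun_prop : Continuous fun y : ℝ => (y, y))
  rw [MeasureTheory.integral_Icc_eq_integral_Ioc, ← intervalIntegral.integral_of_le ha]
  have h1 : ∫ y in (0 : ℝ)..a, Kp y y ≤ ∫ y in (0 : ℝ)..a,
      (2 - (2 * Real.pi) ^ 2 / 6 * y ^ 2 + (2 * Real.pi) ^ 4 / 120 * y ^ 4 -
        (2 * Real.pi) ^ 6 / 5040 * y ^ 6 + (2 * Real.pi) ^ 8 / 362880 * y ^ 8) := by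
    apply intervalIntegral.integral_mono_on ha (hdiag.intervalIntegrable _ _)
      ((by fun_prop : Continuous fun y : ℝ => (2 - (2 * Real.pi) ^ 2 / 6 * y ^ 2 +
        (2 * Real.pi) ^ 4 / 120 * y ^ 4 - (2 * Real.pi) ^ 6 / 5040 * y ^ 6 +
        (2 * Real.pi) ^ 8 / 362880 * y ^ 8)).intervalIntegrable _ _)
    intro y hy
    have h2 := sinc_le (Real.pi * (y + y)) (mul_nonneg hpi.le (by linarith [hy.1]))
    unfold Kp
    rw [sub_self, mul_zero, Real.sinc_zero]
    have e : Real.pi * (y + y) = 2 * Real.pi * y := by ring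
    rw [e] at h2 ⊢
    have : (1 : ℝ) + Real.sinc (2 * Real.pi * y) ≤ 1 + (1 - (2 * Real.pi * y) ^ 2 / 6 +
      (2 * Real.pi * y) ^ 4 / 120 - (2 * Real.pi * y) ^ 6 / 5040 +
        (2 * Real.pi * y) ^ 8 / 362880) := by linarith
    refine this.trans (le_of_eq ?_)
    ring
  refine h1.trans (le_of_eq ?_)
  have hd : ∀ u ∈ Set.uIcc (0 : ℝ) a, HasDerivAt (fun y : ℝ => 2 * y -
      (2 * Real.pi) ^ 2 / 18 * y ^ 3 + (2 * Real.pi) ^ 4 / 600 * y ^ 5 -
        (2 * Real.pi) ^ 6 / 35280 * y ^ 7 + (2 * Real.pi) ^ 8 / 3265920 * y ^ 9)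
      (2 - (2 * Real.pi) ^ 2 / 6 * u ^ 2 + (2 * Real.pi) ^ 4 / 120 * u ^ 4 -
        (2 * Real.pi) ^ 6 / 5040 * u ^ 6 + (2 * Real.pi) ^ 8 / 362880 * u ^ 8) u := by
    intro u _
    have h := (((((hasDerivAt_id u).const_mul 2).sub
      ((hasDerivAt_pow 3 u).const_mul ((2 * Real.pi) ^ 2 / 18))).add
      ((hasDerivAt_pow 5 u).const_mul ((2 * Real.pi) ^ 4 / 600))).sub
      ((hasDerivAt_pow 7 u).const_mul ((2 * Real.pi) ^ 6 / 35280))).add
      ((hasDerivAt_pow 9 u).const_mul ((2 * Real.pi) ^ 8 / 3265920))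
    refine HasDerivAt.congr_deriv (f := fun y : ℝ => 2 * y -
      (2 * Real.pi) ^ 2 / 18 * y ^ 3 + (2 * Real.pi) ^ 4 / 600 * y ^ 5 -
        (2 * Real.pi) ^ 6 / 35280 * y ^ 7 + (2 * Real.pi) ^ 8 / 3265920 * y ^ 9) h ?_
    push_cast
    ring
  rw [intervalIntegral.integral_eq_sub_of_hasDerivAt hd
    ((by fun_prop : Continuous fun y : ℝ => (2 - (2 * Real.pi) ^ 2 / 6 * y ^ 2 +
        (2 * Real.pi) ^ 4 / 120 * y ^ 4 - (2 * Real.pi) ^ 6 / 5040 * y ^ 6 +
        (2 * Real.pi) ^ 8 / 362880 * y ^ 8)).intervalIntegrable _ _)]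
  ring

/-- numerical value for the length `23/25` -/
lemma Kp_trace_num : ∫ y, Kp y y ∂(volume.restrict (Set.Icc 0 (23 / 50 : ℝ))) ≤ 7532 / 10000 := by
  refine (Kp_trace (by norm_num)).trans ?_
  have h1 : (3.1415 : ℝ) < Real.pi := Real.pi_gt_d4
  have h2 : Real.pi < 3.1416 := Real.pi_lt_d4
  have hpi := Real.pi_pos
  have a2 : (3.1415 : ℝ) ^ 2 ≤ Real.pi ^ 2 := pow_le_pow_left₀ (by norm_num) h1.le 2
  have a4 : Real.pi ^ 4 ≤ (3.1416 : ℝ) ^ 4 := pow_le_pow_left₀ hpi.le h2.le 4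
  have a6 : (3.1415 : ℝ) ^ 6 ≤ Real.pi ^ 6 := pow_le_pow_left₀ (by norm_num) h1.le 6
  have a8 : Real.pi ^ 8 ≤ (3.1416 : ℝ) ^ 8 := pow_le_pow_left₀ hpi.le h2.le 8
  norm_num at a2 a4 a6 a8
  have e : (2 * (23 / 50 : ℝ) - (2 * Real.pi) ^ 2 * (23 / 50) ^ 3 / 18 +
      (2 * Real.pi) ^ 4 * (23 / 50) ^ 5 / 600 - (2 * Real.pi) ^ 6 * (23 / 50) ^ 7 / 35280 +
      (2 * Real.pi) ^ 8 * (23 / 50) ^ 9 / 3265920) =
      2 * (23 / 50 : ℝ) - Real.pi ^ 2 * (4 * (23 / 50) ^ 3 / 18) +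
      Real.pi ^ 4 * (16 * (23 / 50) ^ 5 / 600) - Real.pi ^ 6 * (64 * (23 / 50) ^ 7 / 35280) +
      Real.pi ^ 8 * (256 * (23 / 50) ^ 9 / 3265920) := by ring
  rw [e]
  norm_num
  linarith

/-- the gap probability `E(s)` of the Gaussian orthogonal ensemble: the Fredholm determinant of
`1 - K`, `K` the even part of the sine kernel, on `[0, s/2]` -/
noncomputable def EG (s : ℝ) : ℝ := Fred Kp (volume.restrict (Set.Icc 0 (s / 2)))

theorem EG_ge : 2468 / 10000 ≤ EG (23 / 25) := by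
  have h := Fred_ge Kp_cont Kp_bdd Kp_symm Kp_psd (volume.restrict (Set.Icc 0 (23 / 50 : ℝ)))
    (lt_of_le_of_lt Kp_trace_num (by norm_num))
  have h2 := Kp_trace_num
  unfold EG
  have e : (23 / 25 / 2 : ℝ) = 23 / 50 := by norm_num
  rw [e]
  linarith

end Pool.Agent.Y748
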