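import Mathlib

/-! Weak limits of weighted empirical measures. -/

open Filter Topology MeasureTheory

namespace Pool.Agent.Y748

/-- the positive part above `x` has bounded integral with respect to a weak limit -/
theorem limit_le {w δ : ℕ → ℝ} {x C : ℝ} (hw : ∀ n, 0 ≤ w n) (hC : 0 ≤ C)
    (hb : ∀ᶠ N : ℕ in atTop, ∑ n ∈ Finset.Icc 1 N, w n * max (δ n - x) 0 ≤
      C * ∑ n ∈ Finset.Icc 1 N, w n)
    (hpos : ∀ᶠ N : ℕ in atTop, 0 < ∑ n ∈ Finset.Icc 1 N, w n)
    {μ : Measure ℝ} [IsProbabilityMeasure μ] {k : ℕ → ℕ} (hk : Tendsto k atTop atTop)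
    (hlim : ∀ f : ℝ → ℝ, Continuous f → (∃ B : ℝ, ∀ t, |f t| ≤ B) →
      Tendsto (fun j => (∑ n ∈ Finset.Icc 1 (k j), w n * f (δ n)) /
        ∑ n ∈ Finset.Icc 1 (k j), w n) atTop (𝓝 (∫ t, f t ∂μ))) :
    ∫⁻ t, ENNReal.ofReal (max (t - x) 0) ∂μ ≤ ENNReal.ofReal C ∧
      ∫ t, max (t - x) 0 ∂μ ≤ C := by
  -- truncations
  have h1 : ∀ K : ℕ, ∫ t, min (max (t - x) 0) (K : ℝ) ∂μ ≤ C := by
    intro K
    have hK0 : (0 : ℝ) ≤ K := Nat.cast_nonneg K
    have h2 := hlim (fun t => min (max (t - x) 0) (K : ℝ)) (by fun_prop) ⟨K, fun t => by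
      rw [abs_of_nonneg (le_min (le_max_right _ _) hK0)]
      exact min_le_right _ _⟩
    refine le_of_tendsto h2 ?_
    filter_upwards [hk.eventually hb, hk.eventually hpos] with j hj hj0
    rw [div_le_iff₀ hj0]
    refine le_trans (Finset.sum_le_sum fun n _ => ?_) hj
    exact mul_le_mul_of_nonneg_left (min_le_left _ _) (hw n)
  have h2 : ∀ K : ℕ, ∫⁻ t, ENNReal.ofReal (min (max (t - x) 0) (K : ℝ)) ∂μ ≤ ENNReal.ofReal C := by
    intro K
    have hK0 : (0 : ℝ) ≤ K := Nat.cast_nonneg K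
    have hnn : ∀ t : ℝ, 0 ≤ min (max (t - x) 0) (K : ℝ) := fun t => le_min (le_max_right _ _) hK0
    have hint : Integrable (fun t : ℝ => min (max (t - x) 0) (K : ℝ)) μ := by
      refine Integrable.of_bound (by fun_prop) (K : ℝ) (Eventually.of_forall fun t => ?_)
      rw [Real.norm_eq_abs, abs_of_nonneg (hnn t)]
      exact min_le_right _ _
    rw [← ofReal_integral_eq_lintegral_ofReal hint (Eventually.of_forall hnn)]
    exact ENNReal.ofReal_le_ofReal (h1 K)
  have h3 : Tendsto (fun K : ℕ => ∫⁻ t, ENNReal.ofReal (min (max (t - x) 0) (K : ℝ)) ∂μ) atTop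
      (𝓝 (∫⁻ t, ENNReal.ofReal (max (t - x) 0) ∂μ)) := by
    apply lintegral_tendsto_of_tendsto_of_monotone
    · intro K
      fun_prop
    · refine Eventually.of_forall fun t K K' hKK => ?_
      apply ENNReal.ofReal_le_ofReal
      exact min_le_min le_rfl (by exact_mod_cast hKK)
    · refine Eventually.of_forall fun t => ?_
      apply (ENNReal.continuous_ofReal.tendsto _).comp
      have h4 : ∀ᶠ K : ℕ in atTop, min (max (t - x) 0) (K : ℝ) = max (t - x) 0 := by
        filter_upwards [tendsto_natCast_atTop_atTop.eventually_ge_atTop (max (t - x) 0)] with K hK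
        exact min_eq_left hK
      exact tendsto_const_nhds.congr' (h4.mono fun K hK => hK.symm)
  have h4 : ∫⁻ t, ENNReal.ofReal (max (t - x) 0) ∂μ ≤ ENNReal.ofReal C :=
    le_of_tendsto h3 (Eventually.of_forall h2)
  refine ⟨h4, ?_⟩
  rw [integral_eq_lintegral_of_nonneg_ae (f := fun t : ℝ => max (t - x) 0)
    (Eventually.of_forall fun t => le_max_right _ _)
    (by fun_prop : Continuous fun t : ℝ => max (t - x) 0).aestronglyMeasurable]
  exact ENNReal.toReal_le_of_le_ofReal hC h4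

end Pool.Agent.Y748
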