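import Pool.Agent.Y748.Sets
import Pool.Agent.Y748.Limit
import Pool.Agent.Y748.Goe2

/-! The spacing law is not that of the orthogonal ensemble. -/

open Filter Topology Set MeasureTheory

namespace Pool.Agent.Y748

open SG (ord NZ)
open Pool.Agent.Results.MP_103a5c_nt.BohrSetPairs

/-- the Fredholm determinant with the restricted Lebesgue measure -/
lemma EG_eq (s : ℝ) : EG s = ∑' n : ℕ, (-1) ^ n / (n.factorial : ℝ) *
    ∫ x : Fin n → ℝ in Set.pi Set.univ (fun _ => Set.Icc 0 (s / 2)),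
      Matrix.det (Matrix.of fun i j => Kp (x i) (x j)) := by
  unfold EG Fred Dn
  congr 1
  ext n
  congr 2
  rw [← Measure.restrict_pi_pi]
  rfl

theorem finA (RH : RiemannHypothesis) {k : ℕ} {α : Fin k → ℝ}
    (hα : ∀ n : Fin k → ℤ, ∑ j, (n j : ℝ) * α j = 0 → n = 0) {U : Set (UnitAddTorus (Fin k))}
    (hU : haar k (frontier U) = 0) (hU0 : haar k U ≠ 0)
    (μ : Measure ℝ) (hμ : IsProbabilityMeasure μ) (i : ℕ → ℕ) (hi : Tendsto i atTop atTop)
    (hlim : ∀ f : ℝ → ℝ, Continuous f → (∃ B : ℝ, ∀ t, |f t| ≤ B) →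
      Tendsto (fun j => (∑ n ∈ Finset.Icc 1 (i j), ind α U (ord n) * f (dl ord n)) /
        ∑ n ∈ Finset.Icc 1 (i j), ind α U (ord n)) atTop (𝓝 (∫ t, f t ∂μ))) :
    ∫ t, max (t - 23 / 25) 0 ∂μ ≤ 2442 / 10000 := by
  obtain ⟨c, hc, hlow⟩ := set_lower RH hα hU hU0
  refine (limit_le (w := fun n => ind α U (ord n)) (δ := fun n => dl ord n)
    (fun n => ind_nonneg _ _ _) (by norm_num) (setA RH hα hU hU0) ?_ hi hlim).2
  filter_upwards [hlow, eventually_ge_atTop 1] with N hN hN1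
  have : (1 : ℝ) ≤ N := by exact_mod_cast hN1
  have : 0 < c * (N : ℝ) := by positivity
  linarith

end Pool.Agent.Y748
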