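import Pool.Agent.Y748.Taylor

/-! A Fredholm determinant of a positive semidefinite kernel is at least one minus the trace. -/

open MeasureTheory Matrix Filter Topology

namespace Pool.Agent.Y748

/-- Fischer's inequality, positive definite block -/
lemma fischer_pd {m : Type*} [Fintype m] [DecidableEq m] {A : Matrix m m ℝ} (hA : A.PosDef)
    (B : Matrix m Unit ℝ) (D : Matrix Unit Unit ℝ) :
    (Matrix.fromBlocks A B Bᴴ D).det ≤ A.det * D () () := by
  have hdet : 0 < A.det := hA.det_pos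
  let _ := hA.isUnit.invertible
  rw [Matrix.det_fromBlocks₁₁]
  apply mul_le_mul_of_nonneg_left _ hdet.le
  rw [Matrix.det_unique, Matrix.sub_apply]
  have h : 0 ≤ (Bᴴ * ⅟A * B) () () := by
    have h2 : (Bᴴ * A⁻¹ * B).PosSemidef := hA.inv.posSemidef.conjTranspose_mul_mul_same B
    rw [← Matrix.invOf_eq_nonsing_inv] at h2
    exact h2.diag_nonneg
  show D () () - (Bᴴ * ⅟A * B) () () ≤ D () ()
  linarith

/-- Fischer's inequality -/
lemma fischer {m : Type*} [Fintype m] [DecidableEq m] {A : Matrix m m ℝ} (hA : A.PosSemidef)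
    (B : Matrix m Unit ℝ) (D : Matrix Unit Unit ℝ) :
    (Matrix.fromBlocks A B Bᴴ D).det ≤ A.det * D () () := by
  have hc1 : Continuous fun ε : ℝ => (Matrix.fromBlocks (A + ε • (1 : Matrix m m ℝ)) B Bᴴ D).det := by
    apply Continuous.matrix_det
    exact Continuous.matrix_fromBlocks (by fun_prop) continuous_const continuous_const
      continuous_const
  have hc2 : Continuous fun ε : ℝ => (A + ε • (1 : Matrix m m ℝ)).det * D () () := by
    apply Continuous.mul _ continuous_const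
    exact Continuous.matrix_det (by fun_prop)
  have h1 : Tendsto (fun ε : ℝ => (Matrix.fromBlocks (A + ε • (1 : Matrix m m ℝ)) B Bᴴ D).det)
      (𝓝[>] 0) (𝓝 (Matrix.fromBlocks A B Bᴴ D).det) := by
    have := (hc1.tendsto 0).mono_left (nhdsWithin_le_nhds (s := Set.Ioi 0))
    simpa using this
  have h2 : Tendsto (fun ε : ℝ => (A + ε • (1 : Matrix m m ℝ)).det * D () ())
      (𝓝[>] 0) (𝓝 (A.det * D () ())) := by
    have := (hc2.tendsto 0).mono_left (nhdsWithin_le_nhds (s := Set.Ioi 0))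
    simpa using this
  refine le_of_tendsto_of_tendsto h1 h2 ?_
  filter_upwards [self_mem_nhdsWithin] with ε hε
  have hε' : 0 < ε := hε
  apply fischer_pd
  exact Matrix.PosDef.posSemidef_add hA (Matrix.PosDef.one.smul hε')

/-- reindexing -/
def eqv (n : ℕ) : Fin n ⊕ Unit ≃ Fin (n + 1) :=
  (Equiv.optionEquivSumPUnit (Fin n)).symm.trans (finSuccEquiv n).symm

@[simp] lemma eqv_inl (n : ℕ) (i : Fin n) : eqv n (Sum.inl i) = i.succ := by
  simp [eqv]

@[simp] lemma eqv_inr (n : ℕ) (i : Unit) : eqv n (Sum.inr i) = 0 := by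
  simp [eqv]

/-- the matrix of a kernel -/
def Mt (K : ℝ → ℝ → ℝ) {n : ℕ} (x : Fin n → ℝ) : Matrix (Fin n) (Fin n) ℝ :=
  Matrix.of fun i j => K (x i) (x j)

lemma det_succ_le {K : ℝ → ℝ → ℝ} (hs : ∀ x y, K x y = K y x)
    (hp : ∀ (n : ℕ) (x : Fin n → ℝ), (Mt K x).PosSemidef) {n : ℕ} (x : Fin (n + 1) → ℝ) :
    (Mt K x).det ≤ (Mt K (fun i : Fin n => x i.succ)).det * K (x 0) (x 0) := by
  rw [← Matrix.det_submatrix_equiv_self (eqv n) (Mt K x)]
  have e : (Mt K x).submatrix (eqv n) (eqv n) = Matrix.fromBlocks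
      (Mt K (fun i : Fin n => x i.succ)) (Matrix.of fun i _ => K (x i.succ) (x 0))
      (Matrix.of fun i (_ : Unit) => K (x i.succ) (x 0))ᴴ (Matrix.of fun _ _ => K (x 0) (x 0)) := by
    ext i j
    rcases i with i | i <;> rcases j with j | j
    · simp [Mt]
    · simp [Mt]
    · simp [Mt, hs (x 0)]
    · simp [Mt]
  rw [e]
  exact fischer (hp n _) _ _

/-- the integral of the determinant -/
noncomputable def Dn (K : ℝ → ℝ → ℝ) (ν : Measure ℝ) (n : ℕ) : ℝ :=
  ∫ x : Fin n → ℝ, (Mt K x).det ∂(Measure.pi fun _ => ν)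

lemma Mt_cont {K : ℝ → ℝ → ℝ} (hK : Continuous fun q : ℝ × ℝ => K q.1 q.2) (n : ℕ) :
    Continuous fun x : Fin n → ℝ => (Mt K x).det := by
  apply Continuous.matrix_det
  apply continuous_matrix
  intro i j
  exact hK.comp (by fun_prop : Continuous fun x : Fin n → ℝ => (x i, x j))

lemma det_bdd {K : ℝ → ℝ → ℝ} {C : ℝ} (hC : ∀ x y, |K x y| ≤ C) (n : ℕ) (x : Fin n → ℝ) :
    |(Mt K x).det| ≤ n.factorial • C ^ n := by
  have h := Matrix.det_le (A := Mt K x) (abv := AbsoluteValue.abs) (x := C) (fun i j => hC _ _)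
  simpa using h

lemma det_integrable {K : ℝ → ℝ → ℝ} (hK : Continuous fun q : ℝ × ℝ => K q.1 q.2) {C : ℝ}
    (hC : ∀ x y, |K x y| ≤ C) (ν : Measure ℝ) [IsFiniteMeasure ν] (n : ℕ) :
    Integrable (fun x : Fin n → ℝ => (Mt K x).det) (Measure.pi fun _ => ν) := by
  refine Integrable.of_bound (Mt_cont hK n).aestronglyMeasurable (n.factorial • C ^ n) ?_
  exact Eventually.of_forall fun x => by
    rw [Real.norm_eq_abs]
    exact det_bdd hC n x

lemma Dn_zero (K : ℝ → ℝ → ℝ) (ν : Measure ℝ) [IsFiniteMeasure ν] : Dn K ν 0 = 1 := by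
  unfold Dn
  have : ∀ x : Fin 0 → ℝ, (Mt K x).det = 1 := fun x => Matrix.det_isEmpty
  simp_rw [this]
  simp [Measure.real]

lemma Dn_nonneg {K : ℝ → ℝ → ℝ} (hp : ∀ (n : ℕ) (x : Fin n → ℝ), (Mt K x).PosSemidef)
    (ν : Measure ℝ) (n : ℕ) : 0 ≤ Dn K ν n :=
  integral_nonneg fun x => (hp n x).det_nonneg

lemma Dn_succ_le {K : ℝ → ℝ → ℝ} (hK : Continuous fun q : ℝ × ℝ => K q.1 q.2) {C : ℝ}
    (hC : ∀ x y, |K x y| ≤ C) (hs : ∀ x y, K x y = K y x)
    (hp : ∀ (n : ℕ) (x : Fin n → ℝ), (Mt K x).PosSemidef) (ν : Measure ℝ) [IsFiniteMeasure ν]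
    (n : ℕ) : Dn K ν (n + 1) ≤ (∫ y, K y y ∂ν) * Dn K ν n := by
  have hmp := measurePreserving_piFinSuccAbove (fun _ : Fin (n + 1) => ν) 0
  have h1 : Dn K ν (n + 1) = ∫ q : ℝ × (Fin n → ℝ),
      (Mt K ((MeasurableEquiv.piFinSuccAbove (fun _ => ℝ) 0).symm q)).det
        ∂(ν.prod (Measure.pi fun _ => ν)) := by
    unfold Dn
    exact ((hmp.symm _).integral_comp' (fun x : Fin (n + 1) → ℝ => (Mt K x).det)).symm
  rw [h1]
  have hdiag : Continuous fun y : ℝ => K y y := hK.comp (by fun_prop : Continuous fun y : ℝ => (y, y))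
  have hdi : Integrable (fun y : ℝ => K y y) ν :=
    Integrable.of_bound hdiag.aestronglyMeasurable C (Eventually.of_forall fun y => hC y y)
  have h2 : ∫ q : ℝ × (Fin n → ℝ), (Mt K ((MeasurableEquiv.piFinSuccAbove (fun _ => ℝ) 0).symm q)).det
      ∂(ν.prod (Measure.pi fun _ => ν)) ≤
      ∫ q : ℝ × (Fin n → ℝ), K q.1 q.1 * (Mt K q.2).det ∂(ν.prod (Measure.pi fun _ => ν)) := by
    refine integral_mono ?_ (hdi.mul_prod (det_integrable hK hC ν n)) ?_
    · exact (hmp.symm _).integrable_comp_of_integrable (det_integrable hK hC ν (n + 1))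
    · intro q
      have h3 := det_succ_le hs hp ((MeasurableEquiv.piFinSuccAbove (fun _ => ℝ) 0).symm q)
      have e1 : (MeasurableEquiv.piFinSuccAbove (fun _ => ℝ) 0).symm q 0 = q.1 := by
        simp [MeasurableEquiv.piFinSuccAbove]
      have e2 : (fun i : Fin n => (MeasurableEquiv.piFinSuccAbove (fun _ => ℝ) 0).symm q i.succ) =
          q.2 := by
        ext i
        simp [MeasurableEquiv.piFinSuccAbove]
      rw [e1, e2, mul_comm] at h3
      exact h3
  refine h2.trans (le_of_eq ?_)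
  exact integral_prod_mul (fun y => K y y) (fun x : Fin n → ℝ => (Mt K x).det)

/-- the Fredholm determinant -/
noncomputable def Fred (K : ℝ → ℝ → ℝ) (ν : Measure ℝ) : ℝ :=
  ∑' n : ℕ, (-1) ^ n / (n.factorial : ℝ) * Dn K ν n

theorem Fred_ge {K : ℝ → ℝ → ℝ} (hK : Continuous fun q : ℝ × ℝ => K q.1 q.2) {C : ℝ}
    (hC : ∀ x y, |K x y| ≤ C) (hs : ∀ x y, K x y = K y x)
    (hp : ∀ (n : ℕ) (x : Fin n → ℝ), (Mt K x).PosSemidef) (ν : Measure ℝ) [IsFiniteMeasure ν]
    (ht : ∫ y, K y y ∂ν < 1) : 1 - ∫ y, K y y ∂ν ≤ Fred K ν := by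
  set t := ∫ y, K y y ∂ν with htdef
  have hK0 : ∀ y, 0 ≤ K y y := by
    intro y
    have := (hp 1 (fun _ => y)).diag_nonneg (i := 0)
    simpa [Mt] using this
  have ht0 : 0 ≤ t := integral_nonneg hK0
  set e : ℕ → ℝ := fun n => Dn K ν n / (n.factorial : ℝ) with he
  have he0 : ∀ n, 0 ≤ e n := fun n => div_nonneg (Dn_nonneg hp ν n) (Nat.cast_nonneg _)
  have hstep : ∀ n, e (n + 1) ≤ t * e n := by
    intro n
    have h1 := Dn_succ_le hK hC hs hp ν n
    simp only [he]
    rw [Nat.factorial_succ, div_le_iff₀ (by positivity)]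
    refine h1.trans ?_
    have hn : (1 : ℝ) ≤ ((n + 1 : ℕ) : ℝ) := by
      push_cast
      have := Nat.cast_nonneg (α := ℝ) n
      linarith
    have e1 : t * (Dn K ν n / (n.factorial : ℝ)) * (((n + 1) * n.factorial : ℕ) : ℝ) =
        t * Dn K ν n * ((n + 1 : ℕ) : ℝ) := by
      push_cast
      field_simp
    rw [e1]
    exact le_mul_of_one_le_right (mul_nonneg ht0 (Dn_nonneg hp ν n)) hn
  have hle : ∀ n, e n ≤ t ^ n := by
    intro n
    induction n with
    | zero => simp [he, Dn_zero]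
    | succ n ih =>
      refine (hstep n).trans ?_
      rw [pow_succ, mul_comm (t ^ n)]
      exact mul_le_mul_of_nonneg_left ih ht0
  have hanti : Antitone e := by
    apply antitone_nat_of_succ_le
    intro n
    refine (hstep n).trans ?_
    have := mul_le_mul_of_nonneg_right ht.le (he0 n)
    linarith
  have hsum : Summable fun n : ℕ => (-1 : ℝ) ^ n * e n := by
    refine Summable.of_norm_bounded (g := fun n => t ^ n) (summable_geometric_of_lt_one ht0 ht) ?_
    intro n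
    rw [norm_mul, norm_pow, norm_neg, norm_one, one_pow, one_mul, Real.norm_eq_abs,
      abs_of_nonneg (he0 n)]
    exact hle n
  have hF : Fred K ν = ∑' n : ℕ, (-1 : ℝ) ^ n * e n := by
    unfold Fred
    congr 1
    ext n
    simp only [he]
    ring
  have htend : Tendsto (fun n => ∑ i ∈ Finset.range n, (-1 : ℝ) ^ i * e i) atTop
      (𝓝 (∑' n : ℕ, (-1 : ℝ) ^ n * e n)) := hsum.hasSum.tendsto_sum_nat
  have h2 := hanti.alternating_series_le_tendsto htend 1
  rw [hF]
  refine le_trans ?_ h2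
  simp only [mul_one, Finset.sum_range_succ, Finset.sum_range_zero, zero_add, pow_zero, one_mul,
    pow_one]
  have e0 : e 0 = 1 := by simp [he, Dn_zero]
  have e1 := hstep 0
  rw [e0] at e1
  rw [e0]
  linarith

end Pool.Agent.Y748
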