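import Pool.Agent.Y748.Test2

/-! The two explicit test functions. -/

namespace Pool.Agent.Y748

lemma gposA {u : ℝ} (h0 : 0 ≤ u) (h1 : u ≤ (2611 / 5000)) : 0 ≤ gA u := by
  have hx : 0 ≤ u - 0 := by linarith
  have hy : 0 ≤ (2611 / 5000) - u := by linarith
  refine le_of_le_of_eq (?_ : (0 : ℝ) ≤ (491687500000000 / 46475865617041) * (u - 0) ^ 0 * ((2611 / 5000) - u) ^ 4 +
    (1427709050000000 / 46475865617041) * (u - 0) ^ 1 * ((2611 / 5000) - u) ^ 3 +
    (1535720302925750 / 46475865617041) * (u - 0) ^ 2 * ((2611 / 5000) - u) ^ 2 +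
    (3589022216236454 / 232379328085205) * (u - 0) ^ 3 * ((2611 / 5000) - u) ^ 1 +
    (12152120168573714309 / 4647586561704100000) * (u - 0) ^ 4 * ((2611 / 5000) - u) ^ 0) ?_
  · positivity
  · unfold gA
    ring

lemma gmajA {t : ℝ} (h0 : 0 ≤ t) (h1 : t ≤ (3613 / 5000)) :
    0 ≤ (119 / 80) * gA (t ^ 2) ^ 2 - ((23 / 25) - (12733 / 10000) * t) := by
  rcases le_total t (3613 / 10000) with h | h
  · exact gmajA_0 (by linarith) h
  rcases le_total t (271 / 500) with h | h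
  · exact gmajA_1 (by linarith) h
  exact gmajA_2 (by linarith) h1

lemma gposB {u : ℝ} (h0 : 0 ≤ u) (h1 : u ≤ (6169 / 10000)) : 0 ≤ gB u := by
  have hx : 0 ≤ u - 0 := by linarith
  have hy : 0 ≤ (6169 / 10000) - u := by linarith
  refine le_of_le_of_eq (?_ : (0 : ℝ) ≤ (10867300000000000 / 1448301835146721) * (u - 0) ^ 0 * ((6169 / 10000) - u) ^ 4 +
    (31314789440000000 / 1448301835146721) * (u - 0) ^ 1 * ((6169 / 10000) - u) ^ 3 +
    (33731153503296000 / 1448301835146721) * (u - 0) ^ 2 * ((6169 / 10000) - u) ^ 2 +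
    (159551091782241169 / 14483018351467210) * (u - 0) ^ 3 * ((6169 / 10000) - u) ^ 1 +
    (277779391868294062303 / 144830183514672100000) * (u - 0) ^ 4 * ((6169 / 10000) - u) ^ 0) ?_
  · positivity
  · unfold gB
    ring

lemma gmajB {t : ℝ} (h0 : 0 ≤ t) (h1 : t ≤ (3927 / 5000)) :
    0 ≤ (847 / 1000) * gB (t ^ 2) ^ 2 - (1 - (12733 / 10000) * t) := by
  rcases le_total t (3927 / 10000) with h | h
  · exact gmajB_0 (by linarith) h
  rcases le_total t (589 / 1000) with h | h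
  · exact gmajB_1 (by linarith) h
  rcases le_total t (859 / 1250) with h | h
  · exact gmajB_2 (by linarith) h
  exact gmajB_3 (by linarith) h1


/-- the majorant property, general form -/
lemma maj_of {A c1 c2 c3 x0 a b u1 t1 : ℝ} {g : ℝ → ℝ} (hA : 0 ≤ A) (ha : a + u1 / 5040 ≤ 1 / 120)
    (hb : b + u1 / 720 ≤ 1 / 24) (ht1 : t1 ^ 2 ≤ u1) (hx0 : x0 * (31416 / 10000) * (9999 / 10000) / 4 ≤ t1)
    (hu6 : u1 ≤ 6) (ha0 : 0 ≤ a) (hb0 : 0 ≤ b) (hc1 : c1 + u1 / 2 ≤ 1) (hc2 : c2 ≤ c1) (hc3 : c3 ≤ c1)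
    (hg0 : ∀ u, 0 ≤ u → u ≤ u1 → 0 ≤ g u)
    (hg : ∀ u, 0 ≤ u → u ≤ u1 → g u ≤ (1 - u / 6 + a * u ^ 2) * ((1 - c1) - u / 2 + b * u ^ 2) *
      ((1 - c2) - u / 2 + b * u ^ 2) * ((1 - c3) - u / 2 + b * u ^ 2))
    (hF : ∀ t, 0 ≤ t → t ≤ t1 → 0 ≤ A / 4 * g (t ^ 2) ^ 2 - (x0 - 12733 / 10000 * t))
    (y : ℝ) (hy0 : 0 ≤ y) (hy : y ≤ x0) : x0 - y ≤ HH A c1 c2 c3 (9999 / 10000) y := by
  have hpi0 := Real.pi_pos
  have hpi : Real.pi < 31416 / 10000 := by
    have := Real.pi_lt_d4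
    norm_num at this ⊢
    exact this
  set t := Real.pi * (9999 / 10000) * y / 4 with ht
  have ht0 : 0 ≤ t := by positivity
  have htt : t ≤ t1 := by
    refine le_trans ?_ hx0
    rw [ht]
    have : Real.pi * y ≤ 31416 / 10000 * x0 :=
      mul_le_mul hpi.le hy hy0 (by norm_num)
    linarith
  set u := t ^ 2 with hu
  have hu0 : 0 ≤ u := sq_nonneg t
  have huu : u ≤ u1 := le_trans (pow_le_pow_left₀ ht0 htt 2) ht1
  have hs : 1 - u / 6 + a * u ^ 2 ≤ Real.sinc t := by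
    refine le_trans ?_ (sinc_ge t ht0)
    have e4 : t ^ 4 = u ^ 2 := by rw [hu]; ring
    have e6 : t ^ 6 = u ^ 3 := by rw [hu]; ring
    rw [e4, e6, ← hu]
    have h1 : u ^ 3 ≤ u1 * u ^ 2 := by
      have : u ^ 3 = u * u ^ 2 := by ring
      rw [this]
      exact mul_le_mul_of_nonneg_right huu (sq_nonneg u)
    nlinarith [sq_nonneg u, mul_le_mul_of_nonneg_right ha (sq_nonneg u)]
  have hcs : 1 - u / 2 + b * u ^ 2 ≤ Real.cos t := by
    have h0 := cos_ge6 t ht0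
    have e4 : t ^ 4 = u ^ 2 := by rw [hu]; ring
    have e6 : t ^ 6 = u ^ 3 := by rw [hu]; ring
    rw [e4, e6, ← hu] at h0
    have h1 : u ^ 3 ≤ u1 * u ^ 2 := by
      have : u ^ 3 = u * u ^ 2 := by ring
      rw [this]
      exact mul_le_mul_of_nonneg_right huu (sq_nonneg u)
    nlinarith [sq_nonneg u, mul_le_mul_of_nonneg_right hb (sq_nonneg u)]
  have hau : 0 ≤ a * u ^ 2 := by positivity
  have hbu : 0 ≤ b * u ^ 2 := by positivity
  have p0 : 0 ≤ 1 - u / 6 + a * u ^ 2 := by linarith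
  have p1 : 0 ≤ (1 - c1) - u / 2 + b * u ^ 2 := by linarith
  have p2 : 0 ≤ (1 - c2) - u / 2 + b * u ^ 2 := by linarith
  have p3 : 0 ≤ (1 - c3) - u / 2 + b * u ^ 2 := by linarith
  have hprod : g u ≤ Real.sinc t * ((Real.cos t - c1) * (Real.cos t - c2) * (Real.cos t - c3)) := by
    refine (hg u hu0 huu).trans ?_
    have q1 : (1 - c1) - u / 2 + b * u ^ 2 ≤ Real.cos t - c1 := by linarith
    have q2 : (1 - c2) - u / 2 + b * u ^ 2 ≤ Real.cos t - c2 := by linarith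
    have q3 : (1 - c3) - u / 2 + b * u ^ 2 ≤ Real.cos t - c3 := by linarith
    rw [mul_assoc, mul_assoc]
    refine mul_le_mul hs ?_ (by positivity) (p0.trans hs)
    rw [mul_assoc]
    refine mul_le_mul q1 ?_ (by positivity) (p1.trans q1)
    exact mul_le_mul q2 q3 p3 (p2.trans q2)
  have hsq := pow_le_pow_left₀ (hg0 u hu0 huu) hprod 2
  have hFt := hF t ht0 htt
  have hlam : 12733 / 10000 * t ≤ y := by
    rw [ht]
    have h1 : Real.pi * y ≤ 31416 / 10000 * y := mul_le_mul_of_nonneg_right hpi.le hy0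
    nlinarith
  have e : HH A c1 c2 c3 (9999 / 10000) y = A / 4 * (Real.sinc t *
      ((Real.cos t - c1) * (Real.cos t - c2) * (Real.cos t - c3))) ^ 2 := by
    unfold HH
    rw [← ht]
    ring
  rw [e]
  have h5 : A / 4 * g u ^ 2 ≤ A / 4 * (Real.sinc t *
      ((Real.cos t - c1) * (Real.cos t - c2) * (Real.cos t - c3))) ^ 2 :=
    mul_le_mul_of_nonneg_left hsq (by positivity)
  rw [hu] at h5
  linarith

/-- first test function: majorant of `(23/25 - |y|)_+` -/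
lemma majA (y : ℝ) (hy0 : 0 ≤ y) (hy : y ≤ 23 / 25) :
    23 / 25 - y ≤ HH (119 / 20) (23 / 40) (-7 / 100) (-73 / 100) (9999 / 10000) y := by
  refine maj_of (g := gA) (a := 41 / 5000) (b := 409 / 10000) (u1 := 2611 / 5000) (t1 := 3613 / 5000)
    (by norm_num) (by norm_num) (by norm_num) (by norm_num) (by norm_num) (by norm_num) (by norm_num)
    (by norm_num) (by norm_num) (by norm_num) (by norm_num) (fun u h0 h1 => gposA h0 h1)
    (fun u h0 h1 => ?_) (fun t h0 h1 => ?_) y hy0 hy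
  · refine (gprodA_0 h0 h1).trans (le_of_eq ?_)
    ring
  · have := gmajA h0 h1
    linarith

/-- second test function: majorant of `(1 - |y|)_+` -/
lemma majB (y : ℝ) (hy0 : 0 ≤ y) (hy : y ≤ 1) :
    1 - y ≤ HH (847 / 250) (23 / 50) (-3 / 20) (-3 / 4) (9999 / 10000) y := by
  refine maj_of (g := gB) (a := 41 / 5000) (b := 51 / 1250) (u1 := 6169 / 10000) (t1 := 3927 / 5000)
    (by norm_num) (by norm_num) (by norm_num) (by norm_num) (by norm_num) (by norm_num) (by norm_num)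
    (by norm_num) (by norm_num) (by norm_num) (by norm_num) (fun u h0 h1 => gposB h0 h1)
    (fun u h0 h1 => ?_) (fun t h0 h1 => ?_) y hy0 hy
  · refine (gprodB_0 h0 h1).trans (le_of_eq ?_)
    ring
  · have := gmajB h0 h1
    linarith

/-- value of the constant minus the value at zero -/
noncomputable def VV (A c1 c2 c3 κ : ℝ) : ℝ :=
  pk (ac A c1 c2 c3) 0 / κ + κ * (pk (ac A c1 c2 c3) 0 / 192 +
    ∑ k ∈ Finset.range 7, pk (ac A c1 c2 c3) (k + 1) * ((k : ℝ) + 1) / 32) -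
    A / 4 * ((1 - c1) * (1 - c2) * (1 - c3)) ^ 2

lemma VVA : 0 ≤ VV (119 / 20) (23 / 40) (-7 / 100) (-73 / 100) (9999 / 10000) ∧
    VV (119 / 20) (23 / 40) (-7 / 100) (-73 / 100) (9999 / 10000) / 2 ≤ 16418 / 100000 := by
  unfold VV
  simp only [Finset.sum_range_succ, Finset.sum_range_zero, zero_add, ac, pk, Nat.reduceAdd]
  constructor <;> norm_num

lemma VVB : 0 ≤ VV (847 / 250) (23 / 50) (-3 / 20) (-3 / 4) (9999 / 10000) ∧
    VV (847 / 250) (23 / 50) (-3 / 20) (-3 / 4) (9999 / 10000) ≤ 4137 / 10000 := by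
  unfold VV
  simp only [Finset.sum_range_succ, Finset.sum_range_zero, zero_add, ac, pk, Nat.reduceAdd]
  constructor <;> norm_num

end Pool.Agent.Y748
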