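import Pool.Agent.Y748.Zeta
import Pool.Agent.Y748.Test3

/-! The bounds for the gaps of the zeros of zeta. -/

open Filter Topology Set MeasureTheory

namespace Pool.Agent.Y748

open SG (ord NZ)
open Pool.Agent.Results.MP_103a5c_nt.BohrSetPairs

/-- the data attached to an almost periodic weight -/
structure Wt (φ : ℝ → ℝ) (M : ℝ) : Prop where
  ap : AlmostPeriodic φ
  nonneg : ∀ t, 0 ≤ φ t
  mean : HasMean φ M

lemma Wt.M0 {φ : ℝ → ℝ} {M : ℝ} (h : Wt φ M) : 0 ≤ M := by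
  refine ge_of_tendsto h.mean ?_
  filter_upwards [eventually_gt_atTop 0] with X hX
  exact div_nonneg (intervalIntegral.integral_nonneg hX.le fun t _ => h.nonneg t) hX.le

lemma Wt.bdd {φ : ℝ → ℝ} {M : ℝ} (h : Wt φ M) : ∃ B : ℝ, (∀ t, φ t ≤ B) ∧ M ≤ B := by
  obtain ⟨B, hB, hb⟩ := (TH803TW.APm_of_mean h.ap h.mean).bdd
  refine ⟨B, fun t => (le_abs_self _).trans (hb t), ?_⟩
  refine le_of_tendsto h.mean ?_
  filter_upwards [eventually_gt_atTop 0] with X hX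
  rw [div_le_iff₀ hX]
  have h1 : ∫ t in (0 : ℝ)..X, φ t ≤ ∫ _ in (0 : ℝ)..X, B := by
    apply intervalIntegral.integral_mono_on hX.le
    · exact (AP_uc h.ap).continuous.intervalIntegrable _ _
    · exact intervalIntegrable_const
    · exact fun t _ => (le_abs_self _).trans (hb t)
  rw [intervalIntegral.integral_const, smul_eq_mul, sub_zero] at h1
  linarith

lemma Wt.blocks (RH : RiemannHypothesis) {φ : ℝ → ℝ} {M : ℝ} (h : Wt φ M) (ε : ℝ) (hε : 0 < ε) :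
    ∃ T0 : ℝ, ∀ T : ℝ, T0 ≤ T →
      |∑ n ∈ Finset.Ioc (NZ T) (NZ (2 * T)), φ (ord n) - M * ((NZ (2 * T) : ℝ) - NZ T)| ≤
        ε * ((NZ (2 * T) : ℝ) - NZ T) := by
  obtain ⟨T0, hT0, hT⟩ := TH803TW.allW H370.good_zeta (line_zeta RH)
    (TH803TW.APm_of_mean h.ap h.mean) h.nonneg h.M0 1 ε one_pos le_rfl hε
  refine ⟨T0, fun T hTT => ?_⟩
  have h10 : 10 ≤ T := hT0.trans hTT
  have h1 := (hT T hTT T (by rw [Real.rpow_one]) le_rfl).1
  have e : T + T = 2 * T := by ring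
  rw [e, MW_block RH (by linarith)] at h1
  have h2 : (H370.NN riemannZeta T (2 * T) : ℝ) = (NZ (2 * T) : ℝ) - NZ T := by
    rw [← N_eq]
    exact N_block RH (by linarith) (by linarith)
  rw [h2] at h1
  exact h1

/-- the number of zeros with weight -/
theorem weight_sum (RH : RiemannHypothesis) {φ : ℝ → ℝ} {M : ℝ} (h : Wt φ M) (ε : ℝ)
    (hε : 0 < ε) : ∀ᶠ N : ℕ in atTop, |∑ n ∈ Finset.Icc 1 N, φ (ord n) - M * N| ≤ ε * N := by
  obtain ⟨B, hB, hMB⟩ := h.bdd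
  exact (good RH).sumφ h.nonneg hB h.M0 hMB (fun ε hε => h.blocks RH ε hε) ε hε

/-- the weighted sum of the gaps -/
theorem weight_gap (RH : RiemannHypothesis) {φ : ℝ → ℝ} {M : ℝ} (h : Wt φ M) (ε : ℝ)
    (hε : 0 < ε) : ∀ᶠ N : ℕ in atTop,
      |∑ n ∈ Finset.Icc 1 N, φ (ord n) * dl ord n - M * N| ≤ ε * N := by
  obtain ⟨B, hB, hMB⟩ := h.bdd
  exact (good RH).sumφδ (AP_uc h.ap) h.nonneg hB h.M0 hMB h.mean ε hε

lemma r_even {R : ℝ → ℝ} (y : ℝ) : r R (-y) = r R y := by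
  unfold r
  refine intervalIntegral.integral_congr fun α _ => ?_
  have : 2 * Real.pi * -y * α = -(2 * Real.pi * y * α) := by ring
  show R α * Real.cos (2 * Real.pi * -y * α) = R α * Real.cos (2 * Real.pi * y * α)
  rw [this, Real.cos_neg]

/-- the small gaps -/
theorem small_gaps (RH : RiemannHypothesis) {φ : ℝ → ℝ} {M : ℝ} (h : Wt φ M) {R : ℝ → ℝ} {κ : ℝ}
    (hR : TestFn R κ) (h0 : 0 < κ) (h1 : κ < 1) (hr : ∀ y, 0 ≤ r R y) {x : ℝ} (hx : 0 < x)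
    (hmaj : ∀ y, 0 ≤ y → y ≤ x → x - y ≤ r R y) (hm : r R 0 ≤ mont R) (ε : ℝ) (hε : 0 < ε) :
    ∀ᶠ N : ℕ in atTop, ∑ n ∈ Finset.Icc 1 N, φ (ord n) * max (x - dl ord n) 0 ≤
      ((mont R - r R 0) / 2 * M + ε) * N := by
  obtain ⟨B, hB, hMB⟩ := h.bdd
  refine (good RH).small hx hr r_even hmaj hm (AP_uc h.ap) h.nonneg hB h.M0
    (fun ε hε => h.blocks RH ε hε) ?_ ε hε
  intro ε hε
  obtain ⟨T0, hT0⟩ := dyadic RH hR h0 h1 (TH803TW.APm_of_mean h.ap h.mean) hε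
  refine ⟨max T0 1, fun T hT => ?_⟩
  have h2 := hT0 T ((le_max_left _ _).trans hT)
  have hT1 : 1 ≤ T := (le_max_right _ _).trans hT
  rw [pair_block RH hT1, N_block RH hT1 (by linarith)] at h2
  have := (abs_le.1 h2).2
  linarith

/-- the large gaps -/
theorem large_gaps (RH : RiemannHypothesis) {φ : ℝ → ℝ} {M : ℝ} (h : Wt φ M) {R : ℝ → ℝ} {κ : ℝ}
    (hR : TestFn R κ) (h0 : 0 < κ) (h1 : κ < 1) (hr : ∀ y, 0 ≤ r R y) {x : ℝ} (hx : 0 < x)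
    (hmaj : ∀ y, 0 ≤ y → y ≤ x → x - y ≤ r R y) (hm : r R 0 ≤ mont R) (ε : ℝ) (hε : 0 < ε) :
    ∀ᶠ N : ℕ in atTop, ∑ n ∈ Finset.Icc 1 N, φ (ord n) * max (dl ord n - x) 0 ≤
      ((1 - x + (mont R - r R 0) / 2) * M + ε) * N := by
  have e1 := small_gaps RH h hR h0 h1 hr hx hmaj hm (ε / 3) (by positivity)
  have e2 := weight_sum RH h (ε / (3 * x)) (by positivity)
  have e3 := weight_gap RH h (ε / 3) (by positivity)
  filter_upwards [e1, e2, e3] with N k1 k2 k3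
  have k4 : ∑ n ∈ Finset.Icc 1 N, φ (ord n) * max (dl ord n - x) 0 =
      ∑ n ∈ Finset.Icc 1 N, φ (ord n) * dl ord n - x * ∑ n ∈ Finset.Icc 1 N, φ (ord n) +
        ∑ n ∈ Finset.Icc 1 N, φ (ord n) * max (x - dl ord n) 0 := by
    rw [Finset.mul_sum, ← Finset.sum_sub_distrib, ← Finset.sum_add_distrib]
    refine Finset.sum_congr rfl fun n _ => ?_
    rcases le_total (dl ord n) x with hc | hc
    · rw [max_eq_right (by linarith), max_eq_left (by linarith)]; ring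
    · rw [max_eq_left (by linarith), max_eq_right (by linarith)]; ring
  rw [k4]
  have k5 := (abs_le.1 k2).1
  have k6 := (abs_le.1 k3).2
  have k7 : x * (M * N - ε / (3 * x) * N) ≤ x * ∑ n ∈ Finset.Icc 1 N, φ (ord n) :=
    mul_le_mul_of_nonneg_left (by linarith) hx.le
  have k8 : x * (ε / (3 * x) * N) = ε / 3 * N := by field_simp
  nlinarith

/-- `RR` is a test function -/
lemma RR_test {A : ℝ} (hA : 0 ≤ A) (c1 c2 c3 : ℝ) {κ : ℝ} (hκ : 0 < κ) (hκ1 : κ ≤ 1) :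
    TestFn (RR (pk (ac A c1 c2 c3)) κ) κ where
  cont := RR_cont _ _
  even := RR_even _ _
  supp := RR_supp _ hκ
  decay := by
    obtain ⟨K, hK⟩ := HH_decay hA c1 c2 c3 hκ
    refine ⟨K, fun x => ?_⟩
    unfold r
    rw [RR_HH A c1 c2 c3 hκ hκ1]
    exact hK x

lemma r_RR (A c1 c2 c3 : ℝ) {κ : ℝ} (hκ : 0 < κ) (hκ1 : κ ≤ 1) (y : ℝ) :
    r (RR (pk (ac A c1 c2 c3)) κ) y = HH A c1 c2 c3 κ y := by
  unfold r
  exact RR_HH A c1 c2 c3 hκ hκ1 y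

lemma mont_RR (A c1 c2 c3 : ℝ) {κ : ℝ} (hκ : 0 < κ) (hκ1 : κ ≤ 1) :
    mont (RR (pk (ac A c1 c2 c3)) κ) - r (RR (pk (ac A c1 c2 c3)) κ) 0 = VV A c1 c2 c3 κ := by
  rw [r_RR A c1 c2 c3 hκ hκ1, HH_zero]
  unfold mont VV
  rw [RR_mont _ hκ hκ1]

/-- the bound with `x = 23/25` -/
theorem boundA (RH : RiemannHypothesis) {φ : ℝ → ℝ} {M : ℝ} (h : Wt φ M) (ε : ℝ) (hε : 0 < ε) :
    ∀ᶠ N : ℕ in atTop, ∑ n ∈ Finset.Icc 1 N, φ (ord n) * max (dl ord n - 23 / 25) 0 ≤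
      (24418 / 100000 * M + ε) * N := by
  have hκ : (0 : ℝ) < 9999 / 10000 := by norm_num
  have hκ1 : (9999 / 10000 : ℝ) < 1 := by norm_num
  have hA : (0 : ℝ) ≤ 119 / 20 := by norm_num
  have hm := mont_RR (119 / 20) (23 / 40) (-7 / 100) (-73 / 100) hκ hκ1.le
  have h1 := large_gaps RH h (RR_test hA (23 / 40) (-7 / 100) (-73 / 100) hκ hκ1.le) hκ hκ1
    (fun y => by rw [r_RR _ _ _ _ hκ hκ1.le]; exact HH_nonneg hA _ _ _ _ _)
    (x := 23 / 25) (by norm_num)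
    (fun y hy0 hy => by rw [r_RR _ _ _ _ hκ hκ1.le]; exact majA y hy0 hy)
    (by have := VVA.1; linarith) ε hε
  filter_upwards [h1] with N hN
  refine hN.trans ?_
  rw [hm]
  have hN0 : (0 : ℝ) ≤ N := Nat.cast_nonneg N
  apply mul_le_mul_of_nonneg_right _ hN0
  have h3 := VVA.2
  have h4 := mul_le_mul_of_nonneg_right (by linarith : 1 - 23 / 25 +
    VV (119 / 20) (23 / 40) (-7 / 100) (-73 / 100) (9999 / 10000) / 2 ≤ (24418 / 100000 : ℝ)) h.M0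
  linarith

/-- the bound with `x = 1` -/
theorem boundB (RH : RiemannHypothesis) {φ : ℝ → ℝ} {M : ℝ} (h : Wt φ M) (ε : ℝ) (hε : 0 < ε) :
    ∀ᶠ N : ℕ in atTop,
      ∑ n ∈ Finset.Icc 1 N, φ (ord n) * max (dl ord n - 1) 0 ≤ (4137 / 20000 * M + ε) * N ∧
      ∑ n ∈ Finset.Icc 1 N, φ (ord n) * max (1 - dl ord n) 0 ≤ (4137 / 20000 * M + ε) * N := by
  have hκ : (0 : ℝ) < 9999 / 10000 := by norm_num
  have hκ1 : (9999 / 10000 : ℝ) < 1 := by norm_num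
  have hA : (0 : ℝ) ≤ 847 / 250 := by norm_num
  have hm := mont_RR (847 / 250) (23 / 50) (-3 / 20) (-3 / 4) hκ hκ1.le
  have h1 := large_gaps RH h (RR_test hA (23 / 50) (-3 / 20) (-3 / 4) hκ hκ1.le) hκ hκ1
    (fun y => by rw [r_RR _ _ _ _ hκ hκ1.le]; exact HH_nonneg hA _ _ _ _ _)
    (x := 1) (by norm_num)
    (fun y hy0 hy => by rw [r_RR _ _ _ _ hκ hκ1.le]; exact majB y hy0 hy)
    (by have := VVB.1; linarith) ε hε
  have h2 := small_gaps RH h (RR_test hA (23 / 50) (-3 / 20) (-3 / 4) hκ hκ1.le) hκ hκ1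
    (fun y => by rw [r_RR _ _ _ _ hκ hκ1.le]; exact HH_nonneg hA _ _ _ _ _)
    (x := 1) (by norm_num)
    (fun y hy0 hy => by rw [r_RR _ _ _ _ hκ hκ1.le]; exact majB y hy0 hy)
    (by have := VVB.1; linarith) ε hε
  have h3 := VVB.2
  have h4 := mul_le_mul_of_nonneg_right (by linarith :
    VV (847 / 250) (23 / 50) (-3 / 20) (-3 / 4) (9999 / 10000) / 2 ≤ (4137 / 20000 : ℝ)) h.M0
  filter_upwards [h1, h2] with N hN1 hN2
  have hN0 : (0 : ℝ) ≤ N := Nat.cast_nonneg N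
  rw [hm] at hN1 hN2
  refine ⟨hN1.trans (mul_le_mul_of_nonneg_right ?_ hN0),
    hN2.trans (mul_le_mul_of_nonneg_right ?_ hN0)⟩
  · linarith
  · linarith

end Pool.Agent.Y748
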