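import Mathlib

/-! Nonnegative kernels and consecutive terms of a sequence. -/

open Finset Filter Topology

namespace Pool.Agent.Y748

/-- the adjacent pairs in a double sum -/
lemma adj_lower (S : Finset ℕ) (f : ℕ → ℕ → ℝ) (hf : ∀ n ∈ S, ∀ m ∈ S, 0 ≤ f n m) :
    ∑ n ∈ S, (f n n + if n + 1 ∈ S then f n (n + 1) + f (n + 1) n else 0) ≤
      ∑ n ∈ S, ∑ m ∈ S, f n m := by
  have h1 : ∑ n ∈ S, (f n n + if n + 1 ∈ S then f n (n + 1) + f (n + 1) n else 0) =
      ∑ n ∈ S, ∑ m ∈ S, ((if m = n then f n m else 0) + (if m = n + 1 then f n m else 0) +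
        (if n = m + 1 then f n m else 0)) := by
    have e1 : ∀ n ∈ S, ∑ m ∈ S, (if m = n then f n m else 0) = f n n := by
      intro n hn
      rw [Finset.sum_ite_eq' S n (fun m => f n m), if_pos hn]
    have e2 : ∀ n ∈ S, ∑ m ∈ S, (if m = n + 1 then f n m else 0) =
        if n + 1 ∈ S then f n (n + 1) else 0 := by
      intro n _
      exact Finset.sum_ite_eq' S (n + 1) (fun m => f n m)
    have e3 : ∑ n ∈ S, ∑ m ∈ S, (if n = m + 1 then f n m else 0) =
        ∑ m ∈ S, if m + 1 ∈ S then f (m + 1) m else 0 := by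
      rw [Finset.sum_comm]
      exact Finset.sum_congr rfl fun m _ => Finset.sum_ite_eq' S (m + 1) (fun n => f n m)
    have e4 : ∑ n ∈ S, (if n + 1 ∈ S then f n (n + 1) + f (n + 1) n else 0) =
        (∑ n ∈ S, if n + 1 ∈ S then f n (n + 1) else 0) +
          ∑ n ∈ S, if n + 1 ∈ S then f (n + 1) n else 0 := by
      rw [← Finset.sum_add_distrib]
      refine Finset.sum_congr rfl fun n _ => ?_
      split_ifs
      · rfl
      · simp
    rw [Finset.sum_add_distrib, e4]
    simp_rw [Finset.sum_add_distrib]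
    rw [Finset.sum_congr rfl e1, Finset.sum_congr rfl e2, e3, add_assoc]
  rw [h1]
  refine Finset.sum_le_sum fun n hn => Finset.sum_le_sum fun m hm => ?_
  have h0 := hf n hn m hm
  by_cases c1 : m = n
  · have c2 : ¬ m = n + 1 := by omega
    have c3 : ¬ n = m + 1 := by omega
    rw [if_pos c1, if_neg c2, if_neg c3]
    linarith
  · by_cases c2 : m = n + 1
    · have c3 : ¬ n = m + 1 := by omega
      rw [if_neg c1, if_pos c2, if_neg c3]
      linarith
    · by_cases c3 : n = m + 1
      · rw [if_neg c1, if_neg c2, if_pos c3]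
        linarith
      · rw [if_neg c1, if_neg c2, if_neg c3]
        linarith

/-- normalised ordinate -/
noncomputable def nrm (t : ℝ) : ℝ := t * Real.log t / (2 * Real.pi)

/-- normalised gap of a sequence -/
noncomputable def dl (γ : ℕ → ℝ) (n : ℕ) : ℝ :=
  (γ (n + 1) * Real.log (γ (n + 1)) - γ n * Real.log (γ n)) / (2 * Real.pi)

lemma dl_eq (γ : ℕ → ℝ) (n : ℕ) : dl γ n = nrm (γ (n + 1)) - nrm (γ n) := by
  unfold dl nrm
  ring

/-- convexity -/
lemma conv_log {x y : ℝ} (hx : 0 < x) (hxy : x ≤ y) :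
    (y - x) * Real.log x ≤ y * Real.log y - x * Real.log x := by
  have h : Real.log x ≤ Real.log y := Real.log_le_log hx hxy
  have hy : 0 < y := by linarith
  nlinarith [mul_le_mul_of_nonneg_left h hy.le]

/-- the block inequality -/
lemma block_ineq {γ : ℕ → ℝ} {a b : ℕ} {T x B η : ℝ} {h φ : ℝ → ℝ} (hT : 1 < T) (hx : 0 < x)
    (hB : 0 ≤ B) (hη : 0 ≤ η)
    (hγ : ∀ n, a < n → n ≤ b → T < γ n) (hmono : ∀ n, a < n → γ n ≤ γ (n + 1))
    (hh0 : ∀ y, 0 ≤ h y) (heven : ∀ y, h (-y) = h y)
    (hmaj : ∀ y, 0 ≤ y → y ≤ x → x - y ≤ h y)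
    (hφ0 : ∀ t, 0 ≤ φ t) (hφB : ∀ t, φ t ≤ B)
    (hφ : ∀ n, a < n → n + 1 ≤ b → dl γ n < x → φ (γ n) - η ≤ φ (γ (n + 1))) :
    2 * ∑ n ∈ Finset.Ioc a b, φ (γ n) * max (x - dl γ n) 0 ≤
      ∑ n ∈ Finset.Ioc a b, ∑ m ∈ Finset.Ioc a b,
        h ((γ n - γ m) * Real.log T / (2 * Real.pi)) * φ (γ n) -
      h 0 * ∑ n ∈ Finset.Ioc a b, φ (γ n) + η * x * ((Finset.Ioc a b).card : ℝ) +
      2 * (x * B) := by
  classical
  set S := Finset.Ioc a b with hS
  have hpi := Real.pi_pos
  have hlogT : 0 < Real.log T := Real.log_pos hT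
  set f : ℕ → ℕ → ℝ := fun n m => h ((γ n - γ m) * Real.log T / (2 * Real.pi)) * φ (γ n) with hf
  have h1 := adj_lower S f (fun n _ m _ => mul_nonneg (hh0 _) (hφ0 _))
  have hdl : ∀ n, a < n → n ≤ b → 0 ≤ dl γ n := by
    intro n hn hn'
    have h3 := hγ n hn hn'
    have h4 := conv_log (by linarith : 0 < γ n) (hmono n hn)
    have h5 : 0 ≤ (γ (n + 1) - γ n) * Real.log (γ n) :=
      mul_nonneg (by linarith [hmono n hn]) (Real.log_nonneg (by linarith))
    unfold dl
    apply div_nonneg _ (by positivity)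
    linarith
  have h2 : ∀ n ∈ S, 2 * (φ (γ n) * max (x - dl γ n) 0) ≤
      (f n n + if n + 1 ∈ S then f n (n + 1) + f (n + 1) n else 0) - h 0 * φ (γ n) + η * x +
        (if n = b then 2 * (x * B) else 0) := by
    intro n hn
    have hn' := Finset.mem_Ioc.1 hn
    have e0 : f n n = h 0 * φ (γ n) := by
      simp [hf]
    rw [e0]
    have hηx : 0 ≤ η * x := by positivity
    have hd0 := hdl n hn'.1 hn'.2
    by_cases hb : n = b
    · rw [if_pos hb]
      have h3 : 0 ≤ (if n + 1 ∈ S then f n (n + 1) + f (n + 1) n else 0 : ℝ) := by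
        split_ifs
        · exact add_nonneg (mul_nonneg (hh0 _) (hφ0 _)) (mul_nonneg (hh0 _) (hφ0 _))
        · exact le_rfl
      have h4 : φ (γ n) * max (x - dl γ n) 0 ≤ x * B := by
        have h5 : max (x - dl γ n) 0 ≤ x := max_le (by linarith) hx.le
        rw [mul_comm x B]
        exact mul_le_mul (hφB _) h5 (le_max_right _ _) hB
      linarith
    · rw [if_neg hb]
      have hnb : n + 1 ≤ b := by omega
      have hmem : n + 1 ∈ S := Finset.mem_Ioc.2 ⟨by omega, hnb⟩
      rw [if_pos hmem]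
      have e1 : f n (n + 1) + f (n + 1) n =
          h ((γ (n + 1) - γ n) * Real.log T / (2 * Real.pi)) * (φ (γ n) + φ (γ (n + 1))) := by
        simp only [hf]
        have : (γ n - γ (n + 1)) * Real.log T / (2 * Real.pi) =
            -((γ (n + 1) - γ n) * Real.log T / (2 * Real.pi)) := by ring
        rw [this, heven]
        ring
      rw [e1]
      set y := (γ (n + 1) - γ n) * Real.log T / (2 * Real.pi) with hy
      have hφn := hφ0 (γ n)
      have hφn1 := hφ0 (γ (n + 1))
      by_cases hdx : dl γ n < x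
      · have hTn := hγ n hn'.1 hn'.2
        have hy0 : 0 ≤ y := by
          rw [hy]
          exact div_nonneg (mul_nonneg (by linarith [hmono n hn'.1]) hlogT.le) (by positivity)
        have hyd : y ≤ dl γ n := by
          rw [hy]
          unfold dl
          apply div_le_div_of_nonneg_right _ (by positivity)
          refine le_trans ?_ (conv_log (by linarith) (hmono n hn'.1))
          exact mul_le_mul_of_nonneg_left (Real.log_le_log (by linarith) hTn.le)
            (by linarith [hmono n hn'.1])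
        have h6 := hmaj y hy0 (by linarith)
        have h7 := hφ n hn'.1 hnb hdx
        rw [max_eq_left (by linarith)]
        have h8 : (x - dl γ n) * (φ (γ n) + φ (γ (n + 1))) ≤
            h y * (φ (γ n) + φ (γ (n + 1))) :=
          mul_le_mul_of_nonneg_right (by linarith) (by linarith)
        have h9 : (x - dl γ n) * (2 * φ (γ n) - η) ≤
            (x - dl γ n) * (φ (γ n) + φ (γ (n + 1))) :=
          mul_le_mul_of_nonneg_left (by linarith) (by linarith)
        nlinarith [mul_nonneg hη hd0]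
      · rw [max_eq_right (by linarith)]
        have : 0 ≤ h y * (φ (γ n) + φ (γ (n + 1))) := mul_nonneg (hh0 _) (by linarith)
        linarith
  have h3 := Finset.sum_le_sum h2
  rw [← Finset.mul_sum, Finset.sum_add_distrib, Finset.sum_add_distrib, Finset.sum_sub_distrib,
    ← Finset.mul_sum, Finset.sum_const, nsmul_eq_mul] at h3
  have h4 : ∑ n ∈ S, (if n = b then 2 * (x * B) else 0) ≤ 2 * (x * B) := by
    rw [Finset.sum_ite_eq' S b (fun _ => 2 * (x * B))]
    split_ifs
    · exact le_rfl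
    · positivity
  nlinarith [h1, h3, h4]

end Pool.Agent.Y748
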