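import Pool.Agent.Y748.Seq

/-! Sequences with the counting function of the zeta zeros. -/

open Finset Filter Topology MeasureTheory

namespace Pool.Agent.Y748

/-- a sequence with the counting function `~ t log t / 2π` and gaps tending to zero -/
structure Good (γ : ℕ → ℝ) (NZ : ℝ → ℕ) : Prop where
  pos : ∀ n, 1 ≤ n → 0 < γ n
  le_iff : ∀ n, 1 ≤ n → ∀ t, γ n ≤ t ↔ n ≤ NZ t
  cnt : ∀ ε : ℝ, 0 < ε → ∃ T0 : ℝ, ∀ T : ℝ, T0 ≤ T →
    (1 - ε) * nrm T ≤ NZ T ∧ (NZ T : ℝ) ≤ (1 + ε) * nrm T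
  gap : Tendsto (fun n : ℕ => γ (n + 1) - γ n) atTop (𝓝 0)

variable {γ : ℕ → ℝ} {NZ : ℝ → ℕ}

lemma Good.mono (hG : Good γ NZ) {n m : ℕ} (hn : 1 ≤ n) (h : n ≤ m) : γ n ≤ γ m :=
  (hG.le_iff n hn _).2 (h.trans ((hG.le_iff m (hn.trans h) _).1 le_rfl))

lemma Good.tend (hG : Good γ NZ) : Tendsto γ atTop atTop := by
  rw [tendsto_atTop]
  intro t
  filter_upwards [eventually_gt_atTop (NZ t)] with n hn
  by_contra h
  rw [not_le] at h
  have := (hG.le_iff n (by omega) t).1 h.le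
  omega

lemma Good.NZ_mono (hG : Good γ NZ) {s t : ℝ} (h : s ≤ t) : NZ s ≤ NZ t := by
  rcases Nat.eq_zero_or_pos (NZ s) with h0 | h0
  · omega
  · exact (hG.le_iff _ h0 _).1 (((hG.le_iff _ h0 _).2 le_rfl).trans h)

lemma nrm_cont {t : ℝ} (ht : 0 < t) : ContinuousAt nrm t := by
  unfold nrm
  exact (continuousAt_id.mul (Real.continuousAt_log ht.ne')).div_const _

lemma nrm_nonneg {t : ℝ} (ht : 1 ≤ t) : 0 ≤ nrm t := by
  unfold nrm
  have := Real.log_nonneg ht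
  have := Real.pi_pos
  positivity

lemma Good.nrm_le (hG : Good γ NZ) (ε : ℝ) (hε : 0 < ε) :
    ∀ᶠ N : ℕ in atTop, nrm (γ N) ≤ (1 + ε) * N := by
  -- `1/(1-ε') ≤ 1 + ε`
  set ε' := ε / (1 + ε) with hε'
  have hε'0 : 0 < ε' := by positivity
  have hε'1 : 1 - ε' = 1 / (1 + ε) := by rw [hε']; field_simp; ring
  obtain ⟨T0, hT0⟩ := hG.cnt ε' hε'0
  filter_upwards [hG.tend.eventually_gt_atTop (max T0 1), eventually_ge_atTop 1] with N hN hN1
  set T := γ N with hT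
  have hT1 : 1 < T := lt_of_le_of_lt (le_max_right _ _) hN
  have h1 : Tendsto (fun t : ℝ => (1 - ε') * nrm t) (𝓝[<] T) (𝓝 ((1 - ε') * nrm T)) :=
    ((nrm_cont (by linarith)).tendsto.const_mul _).mono_left nhdsWithin_le_nhds
  have h2 : (1 - ε') * nrm T ≤ N := by
    refine le_of_tendsto h1 ?_
    have h3 : ∀ᶠ t in 𝓝[<] T, T0 < t :=
      nhdsWithin_le_nhds (Ioi_mem_nhds (lt_of_le_of_lt (le_max_left _ _) hN))
    filter_upwards [h3, self_mem_nhdsWithin] with t ht1 ht2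
    refine ((hT0 t ht1.le).1).trans ?_
    have h4 : ¬ N ≤ NZ t := by
      intro h5
      have := (hG.le_iff N hN1 t).2 h5
      exact absurd (lt_of_lt_of_le ht2 this) (lt_irrefl _)
    exact_mod_cast (by omega : NZ t ≤ N)
  rw [hε'1, one_div, inv_mul_le_iff₀ (by positivity)] at h2
  exact h2

lemma Good.nrm_ge (hG : Good γ NZ) (ε : ℝ) (hε : 0 < ε) :
    ∀ᶠ N : ℕ in atTop, (N : ℝ) ≤ (1 + ε) * nrm (γ N) := by
  obtain ⟨T0, hT0⟩ := hG.cnt ε hε
  filter_upwards [hG.tend.eventually_ge_atTop T0, eventually_ge_atTop 1] with N hN hN1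
  refine le_trans ?_ (hT0 (γ N) hN).2
  exact_mod_cast (hG.le_iff N hN1 _).1 le_rfl

lemma Good.NZ_le (hG : Good γ NZ) (ε : ℝ) (hε : 0 < ε) :
    ∀ᶠ N : ℕ in atTop, (NZ (γ N) : ℝ) ≤ (1 + ε) * N := by
  set ε' := min (ε / 3) 1 with hε'
  have hε'0 : 0 < ε' := by positivity
  have hε'1 : ε' ≤ 1 := min_le_right _ _
  have hε'2 : ε' ≤ ε / 3 := min_le_left _ _
  obtain ⟨T0, hT0⟩ := hG.cnt ε' hε'0
  filter_upwards [hG.tend.eventually_ge_atTop T0, hG.nrm_le ε' hε'0] with N hN h1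
  refine ((hT0 (γ N) hN).2).trans ?_
  have hN0 : (0 : ℝ) ≤ N := Nat.cast_nonneg N
  have h2 : (1 + ε') * nrm (γ N) ≤ (1 + ε') * ((1 + ε') * N) :=
    mul_le_mul_of_nonneg_left h1 (by positivity)
  have h3 : (1 + ε') * (1 + ε') ≤ 1 + ε := by nlinarith
  calc (1 + ε') * nrm (γ N) ≤ ((1 + ε') * (1 + ε')) * N := by rw [mul_assoc]; exact h2
    _ ≤ (1 + ε) * N := mul_le_mul_of_nonneg_right h3 hN0

/-- summation over dyadic blocks -/
lemma Good.dyadic (hG : Good γ NZ) {a : ℕ → ℝ} (ha : ∀ n, 1 ≤ n → 0 ≤ a n) {c T0 : ℝ} (hc : 0 ≤ c)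
    (hT0 : 0 < T0) (h : ∀ T, T0 ≤ T → ∑ n ∈ Finset.Ioc (NZ T) (NZ (2 * T)), a n ≤
      c * ((NZ (2 * T) : ℝ) - NZ T)) (k : ℕ) : ∀ X : ℝ, X ≤ 2 ^ k * T0 →
    ∑ n ∈ Finset.Ioc 0 (NZ X), a n ≤ c * NZ X + ∑ n ∈ Finset.Ioc 0 (NZ (2 * T0)), a n := by
  have hsmall : ∀ X : ℝ, X ≤ 2 * T0 →
      ∑ n ∈ Finset.Ioc 0 (NZ X), a n ≤ c * NZ X + ∑ n ∈ Finset.Ioc 0 (NZ (2 * T0)), a n := by
    intro X hX
    have h1 : ∑ n ∈ Finset.Ioc 0 (NZ X), a n ≤ ∑ n ∈ Finset.Ioc 0 (NZ (2 * T0)), a n := by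
      apply Finset.sum_le_sum_of_subset_of_nonneg
      · exact Finset.Ioc_subset_Ioc_right (hG.NZ_mono hX)
      · intro n hn _
        exact ha n (by have := (Finset.mem_Ioc.1 hn).1; omega)
    have h2 : 0 ≤ c * (NZ X : ℝ) := by positivity
    linarith
  induction k with
  | zero =>
    intro X hX
    rw [pow_zero, one_mul] at hX
    exact hsmall X (by linarith)
  | succ k ih =>
    intro X hX
    by_cases hX2 : X ≤ 2 * T0
    · exact hsmall X hX2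
    · rw [not_le] at hX2
      have h1 := ih (X / 2) (by rw [pow_succ] at hX; linarith)
      have h2 := h (X / 2) (by linarith)
      have e : 2 * (X / 2) = X := by ring
      rw [e] at h2
      have h3 : NZ (X / 2) ≤ NZ X := hG.NZ_mono (by linarith)
      have h4 : ∑ n ∈ Finset.Ioc 0 (NZ X), a n = ∑ n ∈ Finset.Ioc 0 (NZ (X / 2)), a n +
          ∑ n ∈ Finset.Ioc (NZ (X / 2)) (NZ X), a n := by
        rw [← Finset.sum_union]
        · congr 1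
          ext n
          simp only [Finset.mem_union, Finset.mem_Ioc]
          omega
        · rw [Finset.disjoint_left]
          intro n hn hn'
          rw [Finset.mem_Ioc] at hn hn'
          omega
      rw [h4]
      linarith

/-- from dyadic blocks to all `n ≤ N` -/
lemma Good.upper (hG : Good γ NZ) {a : ℕ → ℝ} (ha : ∀ n, 1 ≤ n → 0 ≤ a n) {c : ℝ} (hc : 0 ≤ c)
    (h : ∀ ε : ℝ, 0 < ε → ∃ T0 : ℝ, ∀ T, T0 ≤ T →
      ∑ n ∈ Finset.Ioc (NZ T) (NZ (2 * T)), a n ≤ (c + ε) * ((NZ (2 * T) : ℝ) - NZ T))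
    (ε : ℝ) (hε : 0 < ε) : ∀ᶠ N : ℕ in atTop, ∑ n ∈ Finset.Icc 1 N, a n ≤ (c + ε) * N := by
  obtain ⟨T1, hT1⟩ := h (ε / 4) (by positivity)
  set T0 := max T1 1 with hT0
  have hT00 : 0 < T0 := lt_of_lt_of_le one_pos (le_max_right _ _)
  set C := ∑ n ∈ Finset.Ioc 0 (NZ (2 * T0)), a n with hC
  have hC0 : 0 ≤ C := Finset.sum_nonneg fun n hn => ha n (by
    have := (Finset.mem_Ioc.1 hn).1; omega)
  set ε' := ε / (4 * (c + ε)) with hε'
  have hcε : 0 < c + ε := by linarith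
  have hε'0 : 0 < ε' := by positivity
  have h3 : ∀ᶠ N : ℕ in atTop, 4 * C / ε ≤ (N : ℝ) :=
    tendsto_natCast_atTop_atTop.eventually_ge_atTop _
  filter_upwards [hG.NZ_le ε' hε'0, h3, eventually_ge_atTop 1] with N hN hNC hN1
  obtain ⟨k, hk⟩ := pow_unbounded_of_one_lt (γ N / T0) (one_lt_two)
  rw [div_lt_iff₀ hT00] at hk
  have h1 := hG.dyadic ha (c := c + ε / 4) (by linarith) hT00 (fun T hT => hT1 T ((le_max_left _ _).trans hT))
    k (γ N) hk.le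
  have h2 : ∑ n ∈ Finset.Icc 1 N, a n ≤ ∑ n ∈ Finset.Ioc 0 (NZ (γ N)), a n := by
    apply Finset.sum_le_sum_of_subset_of_nonneg
    · intro n hn
      rw [Finset.mem_Icc] at hn
      rw [Finset.mem_Ioc]
      exact ⟨by omega, hn.2.trans ((hG.le_iff N hN1 _).1 le_rfl)⟩
    · intro n hn _
      exact ha n (by have := (Finset.mem_Ioc.1 hn).1; omega)
  refine h2.trans (h1.trans ?_)
  have hN0 : (0 : ℝ) ≤ N := Nat.cast_nonneg N
  have h4 : C ≤ ε / 4 * N := by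
    rw [div_le_iff₀ hε] at hNC
    linarith
  have h5 : (c + ε / 4) * (NZ (γ N) : ℝ) ≤ (c + ε / 4) * ((1 + ε') * N) :=
    mul_le_mul_of_nonneg_left hN (by linarith)
  have h6 : (c + ε / 4) * (1 + ε') ≤ c + ε / 2 := by
    have : (c + ε / 4) * ε' ≤ ε / 4 := by
      rw [hε', ← mul_div_assoc, div_le_iff₀ (by positivity)]
      nlinarith
    linarith
  have h7 : (c + ε / 4) * ((1 + ε') * N) ≤ (c + ε / 2) * N := by
    rw [← mul_assoc]
    exact mul_le_mul_of_nonneg_right h6 hN0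
  nlinarith

end Pool.Agent.Y748
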