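import Pool.Agent.Y748.Seq2

/-! The mean of the weighted gaps. -/

open Finset Filter Topology MeasureTheory

namespace Pool.Agent.Y748

variable {γ : ℕ → ℝ} {NZ : ℝ → ℕ}

/-- the upper bound by the derivative at the right end point -/
lemma conv_log' {x y : ℝ} (hx : 0 < x) (hxy : x ≤ y) :
    y * Real.log y - x * Real.log x ≤ (y - x) * (Real.log y + 1) := by
  have hy : 0 < y := by linarith
  have h1 : Real.log y - Real.log x ≤ (y - x) / x := by
    rw [← Real.log_div hy.ne' hx.ne']
    have := Real.log_le_sub_one_of_pos (div_pos hy hx)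
    have e : y / x - 1 = (y - x) / x := by field_simp
    linarith
  have h2 : x * (Real.log y - Real.log x) ≤ y - x := by
    have h3 := mul_le_mul_of_nonneg_left h1 hx.le
    have e : x * ((y - x) / x) = y - x := by field_simp
    linarith
  nlinarith

lemma dl_nonneg (hG : Good γ NZ) {n : ℕ} (hn : 1 ≤ n) (h1 : 1 ≤ γ n) : 0 ≤ dl γ n := by
  have hpi := Real.pi_pos
  have hm := hG.mono hn (Nat.le_succ n)
  have h4 := conv_log (by linarith : 0 < γ n) hm
  have h5 : 0 ≤ (γ (n + 1) - γ n) * Real.log (γ n) :=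
    mul_nonneg (by linarith) (Real.log_nonneg (by linarith))
  unfold dl
  apply div_nonneg _ (by positivity)
  linarith

/-- the number of terms in a dyadic block -/
lemma Good.block (hG : Good γ NZ) (ε : ℝ) (hε : 0 < ε) : ∃ T0 : ℝ, ∀ T : ℝ, T0 ≤ T →
    T * Real.log T / (2 * Real.pi) ≤ (1 + ε) * ((NZ (2 * T) : ℝ) - NZ T) := by
  set ε' := min (ε / (16 * (1 + ε))) (1 / 2) with hε'
  have hε'0 : 0 < ε' := by positivity
  have hε'1 : ε' ≤ ε / (16 * (1 + ε)) := min_le_left _ _
  obtain ⟨T1, hT1⟩ := hG.cnt ε' hε'0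
  refine ⟨max T1 2, fun T hT => ?_⟩
  have hTT1 : T1 ≤ T := (le_max_left _ _).trans hT
  have hT2 : 2 ≤ T := (le_max_right _ _).trans hT
  have h1 := (hT1 T hTT1).2
  have h2 := (hT1 (2 * T) (by linarith)).1
  have hpi := Real.pi_pos
  set Q := T * Real.log T / (2 * Real.pi) with hQ
  have hlogT : 0 ≤ Real.log T := Real.log_nonneg (by linarith)
  have hQ0 : 0 ≤ Q := by positivity
  have e1 : nrm T = Q := rfl
  have e2 : nrm (2 * T) = 2 * Q + T * Real.log 2 / Real.pi := by
    unfold nrm
    rw [Real.log_mul (by norm_num) (by linarith), hQ]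
    field_simp
    ring
  have e3 : 0 ≤ T * Real.log 2 / Real.pi := by
    have := Real.log_nonneg (by norm_num : (1 : ℝ) ≤ 2)
    positivity
  rw [e1] at h1
  rw [e2] at h2
  have h3 : T * Real.log 2 / Real.pi ≤ 2 * Q := by
    rw [hQ]
    have : T * Real.log 2 ≤ T * Real.log T :=
      mul_le_mul_of_nonneg_left (Real.log_le_log (by norm_num) hT2) (by linarith)
    rw [div_le_iff₀ hpi]
    have e : 2 * (T * Real.log T / (2 * Real.pi)) * Real.pi = T * Real.log T := by
      field_simp
    rw [e]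
    exact this
  have hε'2 : ε' ≤ 1 / 2 := min_le_right _ _
  have h4 : (1 - 5 * ε') * Q ≤ (NZ (2 * T) : ℝ) - NZ T := by nlinarith
  have h5 : 1 ≤ (1 + ε) * (1 - 5 * ε') := by
    have h6 : (1 + ε) * ε' ≤ ε / 16 := by
      have := mul_le_mul_of_nonneg_left hε'1 (by linarith : 0 ≤ 1 + ε)
      have e : (1 + ε) * (ε / (16 * (1 + ε))) = ε / 16 := by field_simp
      linarith
    nlinarith
  calc Q ≤ ((1 + ε) * (1 - 5 * ε')) * Q := by nlinarith
    _ = (1 + ε) * ((1 - 5 * ε') * Q) := by ring
    _ ≤ _ := mul_le_mul_of_nonneg_left h4 (by linarith)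

/-- the mean value over dyadic intervals -/
lemma mean_dyadic {φ : ℝ → ℝ} (hc : Continuous φ) {M : ℝ}
    (hM : Tendsto (fun X : ℝ => (∫ t in (0 : ℝ)..X, φ t) / X) atTop (𝓝 M)) (ε : ℝ) (hε : 0 < ε) :
    ∃ T0 : ℝ, ∀ T : ℝ, T0 ≤ T → ∫ t in T..(2 * T + 1), φ t ≤ (M + ε) * T := by
  have h1 : Tendsto (fun T : ℝ => (∫ t in (0 : ℝ)..(2 * T + 1), φ t) / (2 * T + 1)) atTop (𝓝 M) :=
    hM.comp (tendsto_atTop_add_const_right _ _ (tendsto_id.const_mul_atTop two_pos))
  have h2 : Tendsto (fun T : ℝ => (2 * T + 1) / T) atTop (𝓝 2) := by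
    have h3 : Tendsto (fun T : ℝ => 2 + 1 / T) atTop (𝓝 (2 + 0)) := by
      refine tendsto_const_nhds.add ?_
      exact (tendsto_inv_atTop_zero (𝕜 := ℝ)).congr fun x => (one_div x).symm
    rw [add_zero] at h3
    refine h3.congr' ?_
    filter_upwards [eventually_gt_atTop 0] with T hT
    field_simp
  have h3 : Tendsto (fun T : ℝ => (∫ t in (0 : ℝ)..(2 * T + 1), φ t) / (2 * T + 1) *
      ((2 * T + 1) / T) - (∫ t in (0 : ℝ)..T, φ t) / T) atTop (𝓝 (M * 2 - M)) :=
    (h1.mul h2).sub hM
  have h4 : M * 2 - M < M + ε := by linarith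
  have h5 := h3.eventually_le_const h4
  rw [eventually_atTop] at h5
  obtain ⟨T0, hT0⟩ := h5
  refine ⟨max T0 1, fun T hT => ?_⟩
  have h6 := hT0 T ((le_max_left _ _).trans hT)
  have hT1 : 1 ≤ T := (le_max_right _ _).trans hT
  have e1 : (∫ t in (0 : ℝ)..(2 * T + 1), φ t) / (2 * T + 1) * ((2 * T + 1) / T) -
      (∫ t in (0 : ℝ)..T, φ t) / T = (∫ t in T..(2 * T + 1), φ t) / T := by
    rw [← intervalIntegral.integral_interval_sub_left (hc.intervalIntegrable 0 (2 * T + 1))
      (hc.intervalIntegrable 0 T)]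
    have : (2 * T + 1) ≠ 0 := by linarith
    have : T ≠ 0 := by linarith
    field_simp
  rw [e1, div_le_iff₀ (by linarith)] at h6
  exact h6

/-- the weighted gaps in a dyadic block -/
lemma Good.gap_block (hG : Good γ NZ) {φ : ℝ → ℝ} (hc : UniformContinuous φ)
    (hφ0 : ∀ t, 0 ≤ φ t) {M : ℝ} (hM0 : 0 ≤ M)
    (hM : Tendsto (fun X : ℝ => (∫ t in (0 : ℝ)..X, φ t) / X) atTop (𝓝 M)) (ε : ℝ) (hε : 0 < ε) :
    ∃ T0 : ℝ, ∀ T : ℝ, T0 ≤ T → ∑ n ∈ Finset.Ioc (NZ T) (NZ (2 * T)), φ (γ n) * dl γ n ≤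
      (M + ε) * ((NZ (2 * T) : ℝ) - NZ T) := by
  have hpi := Real.pi_pos
  set η := min (ε / 8) 1 with hη
  have hη0 : 0 < η := by positivity
  have hη1 : η ≤ 1 := min_le_right _ _
  have hη2 : η ≤ ε / 8 := min_le_left _ _
  obtain ⟨δ, hδ, hφδ⟩ := Metric.uniformContinuous_iff.1 hc η hη0
  obtain ⟨T1, hT1⟩ := mean_dyadic hc.continuous hM η hη0
  set ε' := ε / (4 * (M + ε + 1)) with hε'
  have hε'0 : 0 < ε' := by positivity
  obtain ⟨T2, hT2⟩ := hG.block ε' hε'0
  -- gaps are small
  have hgap := hG.gap.eventually_lt_const (show (0 : ℝ) < min δ 1 by positivity)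
  rw [eventually_atTop] at hgap
  obtain ⟨N0, hN0⟩ := hgap
  -- logarithms
  have hlog : ∀ᶠ T : ℝ in atTop, (Real.log 4 + 1) ≤ ε' * Real.log T := by
    have := (Real.tendsto_log_atTop.const_mul_atTop hε'0).eventually_ge_atTop (Real.log 4 + 1)
    exact this
  rw [eventually_atTop] at hlog
  obtain ⟨T3, hT3⟩ := hlog
  refine ⟨max (max T1 T2) (max T3 (max 2 (γ N0))), fun T hT => ?_⟩
  have k1 : T1 ≤ T := (le_max_left _ _).trans ((le_max_left _ _).trans hT)
  have k2 : T2 ≤ T := (le_max_right _ _).trans ((le_max_left _ _).trans hT)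
  have k3 : T3 ≤ T := (le_max_left _ _).trans ((le_max_right _ _).trans hT)
  have k4 : 2 ≤ T := (le_max_left _ _).trans ((le_max_right _ _).trans ((le_max_right _ _).trans hT))
  have k5 : γ N0 ≤ T :=
    (le_max_right _ _).trans ((le_max_right _ _).trans ((le_max_right _ _).trans hT))
  have m1 := hT1 T k1
  have m2 := hT2 T k2
  have m3 := hT3 T k3
  have hL0 : 0 < Real.log T := Real.log_pos (by linarith)
  set a := NZ T with ha
  set b := NZ (2 * T) with hb
  have hab : a ≤ b := hG.NZ_mono (by linarith)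
  -- all indices in the block exceed `N0`
  have hbig : ∀ n, a < n → N0 < n := by
    intro n hn
    by_contra hcon
    rw [not_lt] at hcon
    have h1 := hG.mono (by omega : 1 ≤ n) hcon
    have h2 := (hG.le_iff n (by omega) T).1 (h1.trans k5)
    omega
  have hgt : ∀ n, a < n → T < γ n := by
    intro n hn
    by_contra hcon
    rw [not_lt] at hcon
    have h2 := (hG.le_iff n (by omega) T).1 hcon
    omega
  have hg : ∀ n, a < n → γ (n + 1) - γ n < min δ 1 := fun n hn => hN0 n (hbig n hn).le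
  -- each term
  set Λ := (Real.log T + (Real.log 4 + 1)) / (2 * Real.pi) with hΛ
  have hlog4 : 0 ≤ Real.log 4 := Real.log_nonneg (by norm_num)
  have hΛ0 : 0 ≤ Λ := by
    rw [hΛ]; positivity
  have hterm : ∀ n ∈ Finset.Ico (a + 1) (b + 1), φ (γ n) * dl γ n ≤
      Λ * ∫ t in (γ n)..(γ (n + 1)), (φ t + η) := by
    intro n hn
    rw [Finset.mem_Ico] at hn
    have hn1 : a < n := by omega
    have hm := hG.mono (by omega : 1 ≤ n) (Nat.le_succ n)
    have hTn := hgt n hn1
    have hn2 : γ n ≤ 2 * T := (hG.le_iff n (by omega) _).2 (by omega)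
    have hgn := hg n hn1
    have hgδ : γ (n + 1) - γ n < δ := hgn.trans_le (min_le_left _ _)
    have hg1 : γ (n + 1) - γ n < 1 := hgn.trans_le (min_le_right _ _)
    have hd : dl γ n ≤ (γ (n + 1) - γ n) * Λ := by
      have h1 := conv_log' (by linarith : 0 < γ n) hm
      have h2 : Real.log (γ (n + 1)) ≤ Real.log T + Real.log 4 := by
        rw [← Real.log_mul (by linarith) (by norm_num)]
        exact Real.log_le_log (by linarith) (by linarith)
      have h3 : (γ (n + 1) - γ n) * (Real.log (γ (n + 1)) + 1) ≤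
          (γ (n + 1) - γ n) * (Real.log T + (Real.log 4 + 1)) :=
        mul_le_mul_of_nonneg_left (by linarith) (by linarith)
      unfold dl
      rw [hΛ, ← mul_div_assoc]
      exact div_le_div_of_nonneg_right (by linarith) (by positivity)
    have hi : φ (γ n) * (γ (n + 1) - γ n) ≤ ∫ t in (γ n)..(γ (n + 1)), (φ t + η) := by
      have h1 : ∫ t in (γ n)..(γ (n + 1)), φ (γ n) ≤ ∫ t in (γ n)..(γ (n + 1)), (φ t + η) := by
        apply intervalIntegral.integral_mono_on hm
        · exact intervalIntegrable_const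
        · exact (hc.continuous.add continuous_const).intervalIntegrable _ _
        · intro t ht
          have h2 : dist (γ n) t < δ := by
            rw [Real.dist_eq, abs_sub_comm, abs_of_nonneg (by linarith [ht.1])]
            linarith [ht.2]
          have h3 := hφδ h2
          rw [Real.dist_eq] at h3
          have := (abs_lt.1 h3).2
          linarith
      rw [intervalIntegral.integral_const, smul_eq_mul] at h1
      linarith
    calc φ (γ n) * dl γ n ≤ φ (γ n) * ((γ (n + 1) - γ n) * Λ) :=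
          mul_le_mul_of_nonneg_left hd (hφ0 _)
      _ = Λ * (φ (γ n) * (γ (n + 1) - γ n)) := by ring
      _ ≤ _ := mul_le_mul_of_nonneg_left hi hΛ0
  have e1 : Finset.Ioc a b = Finset.Ico (a + 1) (b + 1) := by
    ext n
    simp only [Finset.mem_Ioc, Finset.mem_Ico]
    omega
  rw [e1]
  refine (Finset.sum_le_sum hterm).trans ?_
  have hcc : Continuous fun t => φ t + η := hc.continuous.add continuous_const
  rw [← Finset.mul_sum, intervalIntegral.sum_integral_adjacent_intervals_Ico
    (f := fun t => φ t + η) (by omega) (fun k _ => hcc.intervalIntegrable _ _)]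
  -- the range of integration
  have h6 : ∫ t in (γ (a + 1))..(γ (b + 1)), (φ t + η) ≤ ∫ t in T..(2 * T + 1), (φ t + η) := by
    have hTa := hgt (a + 1) (by omega)
    have hb2 : γ (b + 1) ≤ 2 * T + 1 := by
      rcases Nat.eq_or_lt_of_le hab with h | h
      · -- empty block : a = b; then gamma (b+1) > 2T; use the previous gap
        have h7 : γ (b + 1) - γ b < 1 ∨ b ≤ N0 := by
          by_cases hb0 : b ≤ N0
          · exact Or.inr hb0
          · left
            exact (hN0 b (by omega)).trans_le (min_le_right _ _)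
        rcases h7 with h7 | h7
        · rcases Nat.eq_zero_or_pos b with hb0 | hb0
          · exfalso
            have : (0 : ℝ) < T * Real.log T / (2 * Real.pi) := by positivity
            have : (b : ℝ) - a = 0 := by rw [h]; ring
            rw [this] at m2
            linarith
          · have := (hG.le_iff b hb0 (2 * T)).2 le_rfl
            linarith
        · exfalso
          have : (0 : ℝ) < T * Real.log T / (2 * Real.pi) := by positivity
          have : (b : ℝ) - a = 0 := by rw [h]; ring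
          rw [this] at m2
          linarith
      · have h7 := (hg b h).trans_le (min_le_right _ _)
        have h8 := (hG.le_iff b (by omega) (2 * T)).2 le_rfl
        linarith
    apply intervalIntegral.integral_mono_interval hTa.le
      (hG.mono (by omega) (by omega)) hb2
    · exact Filter.Eventually.of_forall fun t => by
        have := hφ0 t
        show (0 : ℝ) ≤ φ t + η
        linarith
    · exact hcc.intervalIntegrable _ _
  have h7 : ∫ t in T..(2 * T + 1), (φ t + η) ≤ (M + 3 * η) * T := by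
    rw [intervalIntegral.integral_add (hc.continuous.intervalIntegrable _ _)
      intervalIntegrable_const, intervalIntegral.integral_const, smul_eq_mul]
    nlinarith
  have h8 : Λ * ∫ t in (γ (a + 1))..(γ (b + 1)), (φ t + η) ≤ Λ * ((M + 3 * η) * T) :=
    mul_le_mul_of_nonneg_left (h6.trans h7) hΛ0
  refine h8.trans ?_
  have h9 : Λ ≤ (1 + ε') * Real.log T / (2 * Real.pi) := by
    rw [hΛ]
    exact div_le_div_of_nonneg_right (by linarith) (by positivity)
  have h10 : Λ * ((M + 3 * η) * T) ≤ (1 + ε') * (M + 3 * η) * (T * Real.log T / (2 * Real.pi)) := by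
    have h11 := mul_le_mul_of_nonneg_right h9 (by positivity : 0 ≤ (M + 3 * η) * T)
    refine h11.trans (le_of_eq ?_)
    ring
  refine h10.trans ?_
  have h12 : (1 + ε') * (M + 3 * η) * (T * Real.log T / (2 * Real.pi)) ≤
      (1 + ε') * (M + 3 * η) * ((1 + ε') * ((b : ℝ) - a)) :=
    mul_le_mul_of_nonneg_left m2 (by positivity)
  refine h12.trans ?_
  have hba : (0 : ℝ) ≤ (b : ℝ) - a := by
    have : (a : ℝ) ≤ b := by exact_mod_cast hab
    linarith
  rw [← mul_assoc]
  apply mul_le_mul_of_nonneg_right _ hba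
  -- `(1+ε')² (M+3η) ≤ M + ε`
  have hMε : ε' * (M + ε + 1) = ε / 4 := by rw [hε']; field_simp
  have hε'1 : ε' ≤ 1 / 4 := by
    rw [hε', div_le_iff₀ (by positivity)]
    nlinarith
  have h13 : (1 + ε') * (1 + ε') ≤ 1 + 9 / 4 * ε' := by nlinarith
  have h14 : M + 3 * η ≤ M + 3 / 8 * ε := by linarith
  have h15 : (1 + ε') * (M + 3 * η) * (1 + ε') ≤ (1 + 9 / 4 * ε') * (M + 3 / 8 * ε) := by
    have : (1 + ε') * (M + 3 * η) * (1 + ε') = ((1 + ε') * (1 + ε')) * (M + 3 * η) := by ring
    rw [this]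
    exact mul_le_mul h13 h14 (by positivity) (by positivity)
  have h16 : ε' * (M + 3 / 8 * ε) ≤ ε / 4 := by
    rw [← hMε]
    exact mul_le_mul_of_nonneg_left (by linarith) hε'0.le
  linarith

end Pool.Agent.Y748
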