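import Pool.Agent.Y748.Main

/-! Sets of the torus as weights. -/

open Filter Topology Set MeasureTheory Complex

namespace Pool.Agent.Y748

open SG (ord NZ)
open Pool.Agent.Results.MP_103a5c_nt.BohrSetPairs
open TH803TW (APm APu tp tp_cont tp_mean torusPt haarT torus_sand APm_torus)

lemma APm_mean {φ : ℝ → ℝ} {M : ℝ} (h : APm φ M) : HasMean φ M := by
  have hu : APu φ := fun ε hε => by
    obtain ⟨S, c, _, h1, _⟩ := h ε hε
    exact ⟨S, c, h1⟩
  have hc := hu.cont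
  unfold HasMean
  rw [Metric.tendsto_nhds]
  intro ε hε
  obtain ⟨S, c, h0, h1, h2⟩ := h (ε / 4) (by positivity)
  have h3 := (Metric.tendsto_nhds.1 (tp_mean c h0)) (ε / 4) (by positivity)
  filter_upwards [h3, eventually_gt_atTop 0] with X hX hX0
  rw [Real.dist_eq] at hX ⊢
  have h4 : |(∫ t in (0 : ℝ)..X, φ t) / X - (∫ t in (0 : ℝ)..X, tp S c t) / X| ≤ ε / 4 := by
    rw [← sub_div, ← intervalIntegral.integral_sub (hc.intervalIntegrable _ _)
      ((tp_cont S c).intervalIntegrable _ _), abs_div, abs_of_pos hX0, div_le_iff₀ hX0]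
    have h5 := intervalIntegral.norm_integral_le_of_norm_le_const (a := 0) (b := X) (C := ε / 4)
      (f := fun t => φ t - tp S c t) (fun t _ => h1 t)
    rw [sub_zero, abs_of_pos hX0] at h5
    exact h5
  have e : (∫ t in (0 : ℝ)..X, φ t) / X - M =
      ((∫ t in (0 : ℝ)..X, φ t) / X - (∫ t in (0 : ℝ)..X, tp S c t) / X) +
      ((∫ t in (0 : ℝ)..X, tp S c t) / X - (c 0).re) + ((c 0).re - M) := by ring
  rw [e]
  have h6 := abs_add_three ((∫ t in (0 : ℝ)..X, φ t) / X - (∫ t in (0 : ℝ)..X, tp S c t) / X)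
    ((∫ t in (0 : ℝ)..X, tp S c t) / X - (c 0).re) ((c 0).re - M)
  linarith

lemma Wt_torus {k : ℕ} {α : Fin k → ℝ}
    (hα : ∀ n : Fin k → ℤ, ∑ j, (n j : ℝ) * α j = 0 → n = 0) (f : C(UnitAddTorus (Fin k), ℝ))
    (hf : ∀ x, 0 ≤ f x) : Wt (fun t => f (torusPt α t)) (∫ x, f x ∂(haarT k)) where
  ap := fun ε hε => by
    obtain ⟨S, c, _, h1, _⟩ := APm_torus hα f ε hε
    exact ⟨S, c, h1⟩
  nonneg := fun t => hf _
  mean := APm_mean (APm_torus hα f)

/-- the indicator function of a set of the torus along the line -/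
noncomputable def ind {k : ℕ} (α : Fin k → ℝ) (U : Set (UnitAddTorus (Fin k))) (t : ℝ) : ℝ :=
  U.indicator 1 (pt α t)

lemma ind_nonneg {k : ℕ} (α : Fin k → ℝ) (U : Set (UnitAddTorus (Fin k))) (t : ℝ) :
    0 ≤ ind α U t := by
  unfold ind
  exact Set.indicator_nonneg (fun _ _ => zero_le_one) _

/-- the sum over the indices of zeros in a Bohr set -/
theorem set_upper (RH : RiemannHypothesis) {k : ℕ} {α : Fin k → ℝ}
    (hα : ∀ n : Fin k → ℤ, ∑ j, (n j : ℝ) * α j = 0 → n = 0) {U : Set (UnitAddTorus (Fin k))}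
    (hU : haar k (frontier U) = 0) (hU0 : haar k U ≠ 0) {a : ℕ → ℝ} (ha : ∀ n, 0 ≤ a n)
    {c c' : ℝ} (hc : 0 ≤ c) (hcc : c < c')
    (h : ∀ (φ : ℝ → ℝ) (M : ℝ), Wt φ M → ∀ ε : ℝ, 0 < ε →
      ∀ᶠ N : ℕ in atTop, ∑ n ∈ Finset.Icc 1 N, φ (ord n) * a n ≤ (c * M + ε) * N) :
    ∀ᶠ N : ℕ in atTop, ∑ n ∈ Finset.Icc 1 N, ind α U (ord n) * a n ≤
      c' * ∑ n ∈ Finset.Icc 1 N, ind α U (ord n) := by
  have hprob : IsProbabilityMeasure (haar k) := by
    unfold haar
    infer_instance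
  set m := (haar k U).toReal with hm
  have hm0 : 0 < m := ENNReal.toReal_pos hU0 (measure_ne_top _ _)
  set η := m * (c' - c) / (2 * (c + c' + 2)) with hη
  have hη0 : 0 < η := by
    have : 0 < c' - c := by linarith
    have : 0 < c + c' + 2 := by linarith
    positivity
  obtain ⟨f, g, hf0, hfU, hUg, hg1, hfM, hgM⟩ := torus_sand (k := k) hU hη0
  have hg0 : ∀ x, 0 ≤ g x := fun x =>
    (Set.indicator_nonneg (fun _ _ => zero_le_one) _).trans (hUg x)
  have k1 := weight_sum RH (Wt_torus hα f hf0) η hη0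
  have k2 := h _ _ (Wt_torus hα g hg0) η hη0
  filter_upwards [k1, k2] with N h1 h2
  have hN0 : (0 : ℝ) ≤ N := Nat.cast_nonneg N
  have a1 : ∑ n ∈ Finset.Icc 1 N, ind α U (ord n) * a n ≤
      ∑ n ∈ Finset.Icc 1 N, g (torusPt α (ord n)) * a n :=
    Finset.sum_le_sum fun n _ => mul_le_mul_of_nonneg_right (hUg _) (ha n)
  have a2 : ∑ n ∈ Finset.Icc 1 N, f (torusPt α (ord n)) ≤
      ∑ n ∈ Finset.Icc 1 N, ind α U (ord n) := Finset.sum_le_sum fun n _ => hfU _
  have a3 := (abs_le.1 h1).1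
  have b1 : (haarT k U).toReal = m := rfl
  rw [b1] at hfM hgM
  set F := ∫ x, f x ∂(haarT k)
  set G := ∫ x, g x ∂(haarT k)
  have a4 : (m - 2 * η) * N ≤ ∑ n ∈ Finset.Icc 1 N, ind α U (ord n) := by
    have : (m - η) * N ≤ F * N := mul_le_mul_of_nonneg_right hfM hN0
    linarith
  have a5 : (c * G + η) * (N : ℝ) ≤ (c * (m + η) + η) * N := by
    apply mul_le_mul_of_nonneg_right _ hN0
    have := mul_le_mul_of_nonneg_left hgM hc
    linarith
  have a6 : c * (m + η) + η ≤ c' * (m - 2 * η) := by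
    have hne : c + c' + 2 ≠ 0 := (by linarith : 0 < c + c' + 2).ne'
    have e : η * (2 * (c + c' + 2)) = m * (c' - c) := by
      rw [hη]; field_simp
    nlinarith
  calc ∑ n ∈ Finset.Icc 1 N, ind α U (ord n) * a n
      ≤ (c * G + η) * (N : ℝ) := a1.trans h2
    _ ≤ (c * (m + η) + η) * N := a5
    _ ≤ (c' * (m - 2 * η)) * N := mul_le_mul_of_nonneg_right a6 hN0
    _ = c' * ((m - 2 * η) * N) := by ring
    _ ≤ _ := mul_le_mul_of_nonneg_left a4 (by linarith)

/-- the number of zeros in the set tends to infinity -/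
theorem set_lower (RH : RiemannHypothesis) {k : ℕ} {α : Fin k → ℝ}
    (hα : ∀ n : Fin k → ℤ, ∑ j, (n j : ℝ) * α j = 0 → n = 0) {U : Set (UnitAddTorus (Fin k))}
    (hU : haar k (frontier U) = 0) (hU0 : haar k U ≠ 0) :
    ∃ c : ℝ, 0 < c ∧ ∀ᶠ N : ℕ in atTop, c * N ≤ ∑ n ∈ Finset.Icc 1 N, ind α U (ord n) := by
  have hprob : IsProbabilityMeasure (haar k) := by
    unfold haar
    infer_instance
  set m := (haar k U).toReal with hm
  have hm0 : 0 < m := ENNReal.toReal_pos hU0 (measure_ne_top _ _)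
  have hη0 : 0 < m / 4 := by positivity
  obtain ⟨f, g, hf0, hfU, hUg, hg1, hfM, hgM⟩ := torus_sand (k := k) hU hη0
  have k1 := weight_sum RH (Wt_torus hα f hf0) (m / 4) hη0
  refine ⟨m / 4, hη0, ?_⟩
  filter_upwards [k1] with N h1
  have hN0 : (0 : ℝ) ≤ N := Nat.cast_nonneg N
  have a2 : ∑ n ∈ Finset.Icc 1 N, f (torusPt α (ord n)) ≤
      ∑ n ∈ Finset.Icc 1 N, ind α U (ord n) := Finset.sum_le_sum fun n _ => hfU _
  have a3 := (abs_le.1 h1).1
  have b1 : (haarT k U).toReal = m := rfl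
  rw [b1] at hfM
  have : (m - m / 4) * N ≤ (∫ x, f x ∂(haarT k)) * N := mul_le_mul_of_nonneg_right hfM hN0
  nlinarith

/-- the bound with `x = 23/25` in a Bohr set -/
theorem setA (RH : RiemannHypothesis) {k : ℕ} {α : Fin k → ℝ}
    (hα : ∀ n : Fin k → ℤ, ∑ j, (n j : ℝ) * α j = 0 → n = 0) {U : Set (UnitAddTorus (Fin k))}
    (hU : haar k (frontier U) = 0) (hU0 : haar k U ≠ 0) :
    ∀ᶠ N : ℕ in atTop, ∑ n ∈ Finset.Icc 1 N, ind α U (ord n) * max (dl ord n - 23 / 25) 0 ≤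
      2442 / 10000 * ∑ n ∈ Finset.Icc 1 N, ind α U (ord n) :=
  set_upper RH hα hU hU0 (fun n => le_max_right _ _) (c := 24418 / 100000) (by norm_num)
    (by norm_num) (fun _ _ h ε hε => boundA RH h ε hε)

/-- the bounds with `x = 1` in a Bohr set -/
theorem setB (RH : RiemannHypothesis) {k : ℕ} {α : Fin k → ℝ}
    (hα : ∀ n : Fin k → ℤ, ∑ j, (n j : ℝ) * α j = 0 → n = 0) {U : Set (UnitAddTorus (Fin k))}
    (hU : haar k (frontier U) = 0) (hU0 : haar k U ≠ 0) :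
    ∀ᶠ N : ℕ in atTop, ∑ n ∈ Finset.Icc 1 N, ind α U (ord n) * max (dl ord n - 1) 0 ≤
        2069 / 10000 * ∑ n ∈ Finset.Icc 1 N, ind α U (ord n) ∧
      ∑ n ∈ Finset.Icc 1 N, ind α U (ord n) * max (1 - dl ord n) 0 ≤
        2069 / 10000 * ∑ n ∈ Finset.Icc 1 N, ind α U (ord n) := by
  have h1 := set_upper RH hα hU hU0 (a := fun n => max (dl ord n - 1) 0)
    (fun n => le_max_right _ _) (c := 4137 / 20000) (c' := 2069 / 10000) (by norm_num)
    (by norm_num) (fun _ _ h ε hε => (boundB RH h ε hε).mono fun N h => h.1)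
  have h2 := set_upper RH hα hU hU0 (a := fun n => max (1 - dl ord n) 0)
    (fun n => le_max_right _ _) (c := 4137 / 20000) (c' := 2069 / 10000) (by norm_num)
    (by norm_num) (fun _ _ h ε hε => (boundB RH h ε hε).mono fun N h => h.2)
  exact h1.and h2

end Pool.Agent.Y748
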