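import Mathlib

/-! Taylor bounds for sine and cosine on the half line. -/

namespace Pool.Agent.Y748

lemma nonneg_of_deriv {f f' : ℝ → ℝ} (hf : ∀ x, HasDerivAt f (f' x) x) (h0 : f 0 = 0)
    (h : ∀ x, 0 ≤ x → 0 ≤ f' x) (x : ℝ) (hx : 0 ≤ x) : 0 ≤ f x := by
  have hm : MonotoneOn f (Set.Ici 0) := by
    apply monotoneOn_of_deriv_nonneg (convex_Ici 0)
    · exact fun x _ => (hf x).continuousAt.continuousWithinAt
    · exact fun x _ => (hf x).differentiableAt.differentiableWithinAt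
    · intro x hx
      rw [interior_Ici] at hx
      rw [(hf x).deriv]
      exact h x (le_of_lt hx)
  have := hm (Set.mem_Ici.2 le_rfl) (Set.mem_Ici.2 hx) hx
  rwa [h0] at this

lemma hd_pow (n : ℕ) (c x : ℝ) : HasDerivAt (fun x : ℝ => x ^ (n + 1) / c) (((n : ℝ) + 1) * x ^ n / c) x := by
  have := (hasDerivAt_pow (n + 1) x).div_const c
  simpa using this

lemma sin_le1 (x : ℝ) (hx : 0 ≤ x) : 0 ≤ x - Real.sin x := by
  refine nonneg_of_deriv (f := fun x => x - Real.sin x) (f' := fun x => 1 - Real.cos x)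
    (fun x => (hasDerivAt_id x).sub (Real.hasDerivAt_sin x)) (by simp)
    (fun x _ => by linarith [Real.cos_le_one x]) x hx

lemma cos_ge2 (x : ℝ) (hx : 0 ≤ x) : 0 ≤ Real.cos x - (1 - x ^ 2 / 2) := by
  refine nonneg_of_deriv (f := fun x => Real.cos x - (1 - x ^ 2 / 2))
    (f' := fun x => x - Real.sin x) (fun x => ?_) (by simp) (fun x hx => sin_le1 x hx) x hx
  have h := (Real.hasDerivAt_cos x).sub ((hd_pow 1 2 x).const_sub 1)
  refine h.congr_deriv ?_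
  push_cast; ring

lemma sin_ge3 (x : ℝ) (hx : 0 ≤ x) : 0 ≤ Real.sin x - (x - x ^ 3 / 6) := by
  refine nonneg_of_deriv (f := fun x => Real.sin x - (x - x ^ 3 / 6))
    (f' := fun x => Real.cos x - (1 - x ^ 2 / 2)) (fun x => ?_) (by simp)
    (fun x hx => cos_ge2 x hx) x hx
  have h := (Real.hasDerivAt_sin x).sub ((hasDerivAt_id x).sub (hd_pow 2 6 x))
  refine h.congr_deriv ?_
  push_cast; ring

lemma cos_le4 (x : ℝ) (hx : 0 ≤ x) : 0 ≤ (1 - x ^ 2 / 2 + x ^ 4 / 24) - Real.cos x := by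
  refine nonneg_of_deriv (f := fun x => (1 - x ^ 2 / 2 + x ^ 4 / 24) - Real.cos x)
    (f' := fun x => Real.sin x - (x - x ^ 3 / 6)) (fun x => ?_) (by simp)
    (fun x hx => sin_ge3 x hx) x hx
  have h := (((hd_pow 1 2 x).const_sub 1).add (hd_pow 3 24 x)).sub (Real.hasDerivAt_cos x)
  refine h.congr_deriv ?_
  push_cast; ring

lemma sin_le5 (x : ℝ) (hx : 0 ≤ x) : 0 ≤ (x - x ^ 3 / 6 + x ^ 5 / 120) - Real.sin x := by
  refine nonneg_of_deriv (f := fun x => (x - x ^ 3 / 6 + x ^ 5 / 120) - Real.sin x)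
    (f' := fun x => (1 - x ^ 2 / 2 + x ^ 4 / 24) - Real.cos x) (fun x => ?_) (by simp)
    (fun x hx => cos_le4 x hx) x hx
  have h := (((hasDerivAt_id x).sub (hd_pow 2 6 x)).add (hd_pow 4 120 x)).sub
    (Real.hasDerivAt_sin x)
  refine h.congr_deriv ?_
  push_cast; ring

lemma cos_ge6 (x : ℝ) (hx : 0 ≤ x) :
    0 ≤ Real.cos x - (1 - x ^ 2 / 2 + x ^ 4 / 24 - x ^ 6 / 720) := by
  refine nonneg_of_deriv (f := fun x => Real.cos x - (1 - x ^ 2 / 2 + x ^ 4 / 24 - x ^ 6 / 720))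
    (f' := fun x => (x - x ^ 3 / 6 + x ^ 5 / 120) - Real.sin x) (fun x => ?_) (by simp)
    (fun x hx => sin_le5 x hx) x hx
  have h := (Real.hasDerivAt_cos x).sub
    ((((hd_pow 1 2 x).const_sub 1).add (hd_pow 3 24 x)).sub (hd_pow 5 720 x))
  refine h.congr_deriv ?_
  push_cast; ring

lemma sin_ge7 (x : ℝ) (hx : 0 ≤ x) :
    0 ≤ Real.sin x - (x - x ^ 3 / 6 + x ^ 5 / 120 - x ^ 7 / 5040) := by
  refine nonneg_of_deriv (f := fun x => Real.sin x - (x - x ^ 3 / 6 + x ^ 5 / 120 - x ^ 7 / 5040))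
    (f' := fun x => Real.cos x - (1 - x ^ 2 / 2 + x ^ 4 / 24 - x ^ 6 / 720)) (fun x => ?_) (by simp)
    (fun x hx => cos_ge6 x hx) x hx
  have h := (Real.hasDerivAt_sin x).sub
    ((((hasDerivAt_id x).sub (hd_pow 2 6 x)).add (hd_pow 4 120 x)).sub (hd_pow 6 5040 x))
  refine h.congr_deriv ?_
  push_cast; ring

lemma cos_le8 (x : ℝ) (hx : 0 ≤ x) :
    0 ≤ (1 - x ^ 2 / 2 + x ^ 4 / 24 - x ^ 6 / 720 + x ^ 8 / 40320) - Real.cos x := by
  refine nonneg_of_deriv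
    (f := fun x => (1 - x ^ 2 / 2 + x ^ 4 / 24 - x ^ 6 / 720 + x ^ 8 / 40320) - Real.cos x)
    (f' := fun x => Real.sin x - (x - x ^ 3 / 6 + x ^ 5 / 120 - x ^ 7 / 5040)) (fun x => ?_)
    (by simp) (fun x hx => sin_ge7 x hx) x hx
  have h := (((((hd_pow 1 2 x).const_sub 1).add (hd_pow 3 24 x)).sub (hd_pow 5 720 x)).add
    (hd_pow 7 40320 x)).sub (Real.hasDerivAt_cos x)
  refine h.congr_deriv ?_
  push_cast; ring

lemma sin_le9 (x : ℝ) (hx : 0 ≤ x) :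
    0 ≤ (x - x ^ 3 / 6 + x ^ 5 / 120 - x ^ 7 / 5040 + x ^ 9 / 362880) - Real.sin x := by
  refine nonneg_of_deriv
    (f := fun x => (x - x ^ 3 / 6 + x ^ 5 / 120 - x ^ 7 / 5040 + x ^ 9 / 362880) - Real.sin x)
    (f' := fun x => (1 - x ^ 2 / 2 + x ^ 4 / 24 - x ^ 6 / 720 + x ^ 8 / 40320) - Real.cos x)
    (fun x => ?_) (by simp) (fun x hx => cos_le8 x hx) x hx
  have h := (((((hasDerivAt_id x).sub (hd_pow 2 6 x)).add (hd_pow 4 120 x)).sub
    (hd_pow 6 5040 x)).add (hd_pow 8 362880 x)).sub (Real.hasDerivAt_sin x)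
  refine h.congr_deriv ?_
  push_cast; ring

/-- lower bound for `sinc` -/
lemma sinc_ge (x : ℝ) (hx : 0 ≤ x) :
    1 - x ^ 2 / 6 + x ^ 4 / 120 - x ^ 6 / 5040 ≤ Real.sinc x := by
  rcases hx.eq_or_lt with h | h
  · rw [← h]; simp
  · rw [Real.sinc_of_ne_zero h.ne', le_div_iff₀ h]
    have := sin_ge7 x hx
    nlinarith

/-- upper bound for `sinc` -/
lemma sinc_le (x : ℝ) (hx : 0 ≤ x) :
    Real.sinc x ≤ 1 - x ^ 2 / 6 + x ^ 4 / 120 - x ^ 6 / 5040 + x ^ 8 / 362880 := by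
  rcases hx.eq_or_lt with h | h
  · rw [← h]; simp
  · rw [Real.sinc_of_ne_zero h.ne', div_le_iff₀ h]
    have := sin_le9 x hx
    nlinarith

end Pool.Agent.Y748
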