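import Pool.Agent.Y748.Tent
import Pool.Agent.Y748.Taylor
import Pool.Agent.Y748.Cert

/-! The test functions. -/

open MeasureTheory

namespace Pool.Agent.Y748

/-- sum of tents at the points `κ k / 8`, `|k| ≤ 7` -/
noncomputable def RR (p : ℕ → ℝ) (κ α : ℝ) : ℝ :=
  κ⁻¹ * (p 0 * tent (8 / κ * α - 0) + ∑ k ∈ Finset.range 7,
    p (k + 1) * (tent (8 / κ * α - (k + 1)) + tent (8 / κ * α - (-(k + 1)))))

lemma RR_cont (p : ℕ → ℝ) (κ : ℝ) : Continuous (RR p κ) := by
  unfold RR
  have ht := tent_cont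
  refine continuous_const.mul (Continuous.add ?_ ?_)
  · exact continuous_const.mul (ht.comp (by fun_prop))
  · refine continuous_finsetSum _ fun k _ => continuous_const.mul (Continuous.add ?_ ?_)
    · exact ht.comp (by fun_prop)
    · exact ht.comp (by fun_prop)

lemma RR_even (p : ℕ → ℝ) (κ α : ℝ) : RR p κ (-α) = RR p κ α := by
  unfold RR
  have h0 : tent (8 / κ * -α - 0) = tent (8 / κ * α - 0) := by
    rw [← tent_neg]; congr 1; ring
  rw [h0]
  congr 2
  refine Finset.sum_congr rfl fun k _ => ?_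
  have h1 : tent (8 / κ * -α - ((k : ℝ) + 1)) = tent (8 / κ * α - (-((k : ℝ) + 1))) := by
    rw [← tent_neg]; congr 1; ring
  have h2 : tent (8 / κ * -α - (-((k : ℝ) + 1))) = tent (8 / κ * α - ((k : ℝ) + 1)) := by
    rw [← tent_neg]; congr 1; ring
  rw [h1, h2]
  ring

lemma RR_supp (p : ℕ → ℝ) {κ : ℝ} (hκ : 0 < κ) (α : ℝ) (h : κ ≤ |α|) : RR p κ α = 0 := by
  have hb : 8 ≤ |8 / κ * α| := by
    rw [abs_mul, abs_of_pos (by positivity)]
    rw [div_mul_eq_mul_div, le_div_iff₀ hκ]
    linarith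
  have hz : ∀ c : ℝ, |c| ≤ 7 → tent (8 / κ * α - c) = 0 := by
    intro c hc
    apply tent_zero_of
    have := abs_sub_abs_le_abs_sub (8 / κ * α) c
    linarith
  unfold RR
  rw [hz 0 (by simp), Finset.sum_eq_zero, mul_zero, zero_add, mul_zero]
  intro k hk
  rw [Finset.mem_range] at hk
  have hk' : (k : ℝ) + 1 ≤ 7 := by exact_mod_cast (by omega : k + 1 ≤ 7)
  have hk0 : (0 : ℝ) ≤ (k : ℝ) + 1 := by positivity
  rw [hz _ (by rw [abs_of_nonneg hk0]; exact hk'), hz _ (by rw [abs_neg, abs_of_nonneg hk0]; exact hk')]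
  simp

lemma shift_integrable (c k : ℝ) (hc : 0 < c) (f : ℝ → ℝ) (hf : Continuous f) :
    Integrable (fun α => tent (c * α - k) * f α) := by
  apply Continuous.integrable_of_hasCompactSupport
    ((tent_cont.comp (by fun_prop : Continuous fun α : ℝ => c * α - k)).mul hf)
  apply HasCompactSupport.mul_right
  refine HasCompactSupport.intro (isCompact_Icc (a := (k - 1) / c) (b := (k + 1) / c)) ?_
  intro α hα
  apply tent_zero_of
  by_contra hcon
  rw [not_le, abs_lt] at hcon
  refine hα ⟨?_, ?_⟩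
  · rw [div_le_iff₀ hc]; linarith [hcon.1]
  · rw [le_div_iff₀ hc]; linarith [hcon.2]

/-- the cosine transform of `RR` -/
lemma RR_cos (p : ℕ → ℝ) {κ : ℝ} (hκ : 0 < κ) (hκ1 : κ ≤ 1) (x : ℝ) :
    ∫ α in (-1 : ℝ)..1, RR p κ α * Real.cos (2 * Real.pi * x * α) =
      1 / 8 * Real.sinc (Real.pi * κ * x / 8) ^ 2 * (p 0 + 2 * ∑ k ∈ Finset.range 7,
        p (k + 1) * Real.cos (((k : ℝ) + 1) * (Real.pi * κ * x / 4))) := by
  rw [intervalIntegral.integral_eq_integral_of_support_subset]
  swap
  · intro α hα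
    by_contra hcon
    refine hα ?_
    have hα1 : κ ≤ |α| := by
      refine hκ1.trans ?_
      by_contra h2
      rw [not_le, abs_lt] at h2
      exact hcon ⟨h2.1, h2.2.le⟩
    simp [RR_supp p hκ α hα1]
  set c := 8 / κ with hc
  have hc0 : 0 < c := by positivity
  set θ := 2 * Real.pi * x with hθ
  have e : ∀ α : ℝ, RR p κ α * Real.cos (θ * α) =
      κ⁻¹ * (p 0 * (tent (c * α - 0) * Real.cos (θ * α)) + ∑ k ∈ Finset.range 7,
        (p (k + 1) * (tent (c * α - (k + 1)) * Real.cos (θ * α)) +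
          p (k + 1) * (tent (c * α - (-(k + 1))) * Real.cos (θ * α)))) := by
    intro α
    unfold RR
    rw [mul_assoc, add_mul, Finset.sum_mul]
    congr 2
    · ring
    · refine Finset.sum_congr rfl fun k _ => ?_
      ring
  simp_rw [e]
  have hi : ∀ k : ℝ, Integrable (fun α => tent (c * α - k) * Real.cos (θ * α)) :=
    fun k => shift_integrable c k hc0 _ (by fun_prop)
  have hk2 : ∀ k : ℕ, Integrable (fun α : ℝ =>
      p (k + 1) * (tent (c * α - ((k : ℝ) + 1)) * Real.cos (θ * α)) +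
        p (k + 1) * (tent (c * α - (-((k : ℝ) + 1))) * Real.cos (θ * α))) := fun k =>
    ((hi _).const_mul _).add ((hi _).const_mul _)
  have hs2 : Integrable (fun α : ℝ => ∑ k ∈ Finset.range 7,
      (p (k + 1) * (tent (c * α - ((k : ℝ) + 1)) * Real.cos (θ * α)) +
        p (k + 1) * (tent (c * α - (-((k : ℝ) + 1))) * Real.cos (θ * α)))) :=
    integrable_finsetSum _ fun k _ => hk2 k
  rw [integral_const_mul, integral_add ((hi 0).const_mul _) hs2,
    integral_const_mul, integral_finsetSum _ fun k _ => hk2 k]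
  have e2 : ∀ k ∈ Finset.range 7, ∫ α : ℝ, (p (k + 1) * (tent (c * α - (k + 1)) * Real.cos (θ * α)) +
      p (k + 1) * (tent (c * α - (-(k + 1))) * Real.cos (θ * α))) =
      p (k + 1) * (2 * (c⁻¹ * (Real.cos (((k : ℝ) + 1) * (Real.pi * κ * x / 4)) *
        Real.sinc (Real.pi * κ * x / 8) ^ 2))) := by
    intro k _
    rw [integral_add ((hi _).const_mul _) ((hi _).const_mul _), integral_const_mul,
      integral_const_mul, tent_shift hc0, tent_shift hc0]
    have a1 : θ * ((k : ℝ) + 1) / c = ((k : ℝ) + 1) * (Real.pi * κ * x / 4) := by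
      rw [hθ, hc]; field_simp; ring
    have a2 : θ * (-((k : ℝ) + 1)) / c = -(((k : ℝ) + 1) * (Real.pi * κ * x / 4)) := by
      rw [hθ, hc]; field_simp; ring
    have a3 : θ / (2 * c) = Real.pi * κ * x / 8 := by
      rw [hθ, hc]; field_simp
    rw [a1, a2, a3, Real.cos_neg]
    ring
  rw [Finset.sum_congr rfl e2, tent_shift hc0]
  have a0 : θ * 0 / c = 0 := by simp
  have a3 : θ / (2 * c) = Real.pi * κ * x / 8 := by
    rw [hθ, hc]; field_simp
  rw [a0, a3, Real.cos_zero, one_mul]
  have hcinv : c⁻¹ = κ / 8 := by rw [hc, inv_div]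
  rw [hcinv]
  have e3 : ∑ k ∈ Finset.range 7, p (k + 1) * (2 * (κ / 8 * (Real.cos (((k : ℝ) + 1) *
      (Real.pi * κ * x / 4)) * Real.sinc (Real.pi * κ * x / 8) ^ 2))) =
      κ / 8 * Real.sinc (Real.pi * κ * x / 8) ^ 2 * (2 * ∑ k ∈ Finset.range 7,
        p (k + 1) * Real.cos (((k : ℝ) + 1) * (Real.pi * κ * x / 4))) := by
    rw [Finset.mul_sum, Finset.mul_sum]
    refine Finset.sum_congr rfl fun k _ => ?_
    ring
  rw [e3]
  field_simp

/-- the value at zero -/
lemma RR_zero (p : ℕ → ℝ) {κ : ℝ} (hκ : 0 < κ) : RR p κ 0 = p 0 / κ := by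
  unfold RR
  have h0 : tent (8 / κ * 0 - 0) = 1 := by
    unfold tent; simp
  rw [h0, Finset.sum_eq_zero]
  · field_simp
    ring
  · intro k _
    have hk0 : (1 : ℝ) ≤ (k : ℝ) + 1 := by
      have := Nat.cast_nonneg (α := ℝ) k
      linarith
    rw [tent_zero_of, tent_zero_of]
    · simp
    · rw [mul_zero, zero_sub, neg_neg, abs_of_nonneg (by linarith)]; exact hk0
    · rw [mul_zero, zero_sub, abs_neg, abs_of_nonneg (by linarith)]; exact hk0

/-- the first moment -/
lemma RR_mom (p : ℕ → ℝ) {κ : ℝ} (hκ : 0 < κ) (hκ1 : κ ≤ 1) :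
    ∫ α in (0 : ℝ)..1, α * RR p κ α =
      κ * (p 0 / 384 + ∑ k ∈ Finset.range 7, p (k + 1) * ((k : ℝ) + 1) / 64) := by
  set c := 8 / κ with hc
  have hc0 : 0 < c := by positivity
  have hc8 : 8 ≤ c := by rw [hc, le_div_iff₀ hκ]; linarith
  have e : ∀ α : ℝ, α * RR p κ α =
      κ⁻¹ * (p 0 * (tent (c * α - 0) * α) + ∑ k ∈ Finset.range 7,
        (p (k + 1) * (tent (c * α - (k + 1)) * α) +
          p (k + 1) * (tent (c * α - (-(k + 1))) * α))) := by
    intro α
    unfold RR
    have : ∀ z : ℝ, α * (κ⁻¹ * z) = κ⁻¹ * (z * α) := fun z => by ring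
    rw [this, add_mul, Finset.sum_mul]
    congr 2
    · ring
    · refine Finset.sum_congr rfl fun k _ => ?_
      ring
  simp_rw [e]
  have hcont : ∀ k : ℝ, Continuous (fun α => tent (c * α - k) * α) := fun k =>
    (tent_cont.comp (by fun_prop : Continuous fun α : ℝ => c * α - k)).mul continuous_id
  have hi : ∀ (k : ℝ) (a b : ℝ), IntervalIntegrable (fun α => tent (c * α - k) * α) volume a b :=
    fun k a b => (hcont k).intervalIntegrable _ _
  -- the central tent
  have i0 : ∫ α in (0 : ℝ)..1, tent (c * α - 0) * α = 1 / (6 * c ^ 2) := by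
    have hsub : (0 : ℝ) ≤ 1 / c := by positivity
    have h1c : 1 / c ≤ 1 := by rw [div_le_one hc0]; linarith
    rw [← intervalIntegral.integral_add_adjacent_intervals (hi 0 0 (1 / c)) (hi 0 (1 / c) 1)]
    have z1 : ∫ α in (1 / c)..1, tent (c * α - 0) * α = 0 := by
      rw [intervalIntegral.integral_congr (g := fun _ => (0 : ℝ))]
      · simp
      · intro α hα
        rw [Set.uIcc_of_le h1c] at hα
        show tent (c * α - 0) * α = 0
        rw [tent_zero_of, zero_mul]
        have := (div_le_iff₀ hc0).1 hα.1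
        rw [sub_zero, abs_of_nonneg (by linarith)]
        linarith
    have z2 : ∫ α in (0 : ℝ)..(1 / c), tent (c * α - 0) * α =
        ∫ α in (0 : ℝ)..(1 / c), (α - c * α ^ 2) := by
      refine intervalIntegral.integral_congr fun α hα => ?_
      rw [Set.uIcc_of_le hsub] at hα
      show tent (c * α - 0) * α = α - c * α ^ 2
      have h2 : c * α ≤ 1 := by
        have := (le_div_iff₀ hc0).1 hα.2
        linarith
      rw [sub_zero, tent_of_nonneg (mul_nonneg hc0.le hα.1) h2]
      ring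
    have hc' : c ≠ 0 := hc0.ne'
    have y1 : IntervalIntegrable (fun α : ℝ => α) volume 0 (1 / c) :=
      continuous_id.intervalIntegrable _ _
    have y2 : IntervalIntegrable (fun α : ℝ => c * α ^ 2) volume 0 (1 / c) :=
      (by fun_prop : Continuous fun α : ℝ => c * α ^ 2).intervalIntegrable _ _
    rw [z1, z2, add_zero, intervalIntegral.integral_sub y1 y2,
      intervalIntegral.integral_const_mul, integral_id, integral_pow]
    push_cast
    field_simp
    ring
  -- the tents on the right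
  have i1 : ∀ k : ℕ, k ∈ Finset.range 7 →
      ∫ α in (0 : ℝ)..1, tent (c * α - ((k : ℝ) + 1)) * α = ((k : ℝ) + 1) / c ^ 2 := by
    intro k hk
    rw [Finset.mem_range] at hk
    have hk' : (k : ℝ) + 1 ≤ 7 := by exact_mod_cast (by omega : k + 1 ≤ 7)
    have hk0 : (0 : ℝ) ≤ (k : ℝ) := Nat.cast_nonneg k
    rw [intervalIntegral.integral_eq_integral_of_support_subset, tent_mom hc0]
    intro α hα
    by_contra hcon
    refine hα ?_
    show tent (c * α - ((k : ℝ) + 1)) * α = 0
    rw [Set.mem_Ioc, not_and_or, not_lt, not_le] at hcon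
    rcases hcon with h | h
    · rw [tent_zero_of, zero_mul]
      rw [abs_of_nonpos (by nlinarith)]
      nlinarith
    · rw [tent_zero_of, zero_mul]
      rw [abs_of_nonneg (by nlinarith)]
      nlinarith
  -- the tents on the left
  have i2 : ∀ k : ℕ, ∫ α in (0 : ℝ)..1, tent (c * α - (-((k : ℝ) + 1))) * α = 0 := by
    intro k
    rw [intervalIntegral.integral_congr (g := fun _ => (0 : ℝ))]
    · simp
    · intro α hα
      rw [Set.uIcc_of_le zero_le_one] at hα
      show tent (c * α - (-((k : ℝ) + 1))) * α = 0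
      have hk0 : (0 : ℝ) ≤ (k : ℝ) := Nat.cast_nonneg k
      have := mul_nonneg hc0.le hα.1
      rw [tent_zero_of, zero_mul]
      rw [abs_of_nonneg (by linarith)]
      linarith
  have hsumcont : ∀ k : ℕ, IntervalIntegrable (fun α : ℝ =>
      p (k + 1) * (tent (c * α - ((k : ℝ) + 1)) * α) +
        p (k + 1) * (tent (c * α - (-((k : ℝ) + 1))) * α)) volume 0 1 := fun k =>
    ((hi _ 0 1).const_mul _).add ((hi _ 0 1).const_mul _)
  rw [intervalIntegral.integral_const_mul, intervalIntegral.integral_add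
    ((hi 0 0 1).const_mul _) ((Continuous.intervalIntegrable (by
      refine continuous_finsetSum _ fun k _ => ?_
      exact (continuous_const.mul (hcont _)).add (continuous_const.mul (hcont _))) _ _)),
    intervalIntegral.integral_const_mul, i0,
    intervalIntegral.integral_finsetSum fun k _ => hsumcont k]
  have e2 : ∀ k ∈ Finset.range 7, ∫ α in (0 : ℝ)..1,
      (p (k + 1) * (tent (c * α - ((k : ℝ) + 1)) * α) +
        p (k + 1) * (tent (c * α - (-((k : ℝ) + 1))) * α)) =
      p (k + 1) * (((k : ℝ) + 1) / c ^ 2) := by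
    intro k hk
    rw [intervalIntegral.integral_add ((hi _ 0 1).const_mul _) ((hi _ 0 1).const_mul _),
      intervalIntegral.integral_const_mul, intervalIntegral.integral_const_mul, i1 k hk, i2 k]
    ring
  rw [Finset.sum_congr rfl e2]
  have e3 : ∀ k : ℕ, p (k + 1) * (((k : ℝ) + 1) / c ^ 2) =
      κ ^ 2 * (p (k + 1) * ((k : ℝ) + 1) / 64) := by
    intro k
    rw [hc]
    field_simp
    norm_num
  simp_rw [e3]
  rw [← Finset.mul_sum, hc]
  field_simp
  ring

end Pool.Agent.Y748
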