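import Pool.Agent.Y748.Test

/-! Closed forms for the test functions. -/

open MeasureTheory

namespace Pool.Agent.Y748

/-- Chebyshev coefficients of the polynomial with coefficients `a` -/
noncomputable def pk (a : ℕ → ℝ) : ℕ → ℝ
  | 0 => a 0 + a 2 / 2 + 3 * a 4 / 8 + 10 * a 6 / 32
  | 1 => (a 1 + 3 * a 3 / 4 + 10 * a 5 / 16 + 35 * a 7 / 64) / 2
  | 2 => (a 2 / 2 + 4 * a 4 / 8 + 15 * a 6 / 32) / 2
  | 3 => (a 3 / 4 + 5 * a 5 / 16 + 21 * a 7 / 64) / 2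
  | 4 => (a 4 / 8 + 6 * a 6 / 32) / 2
  | 5 => (a 5 / 16 + 7 * a 7 / 64) / 2
  | 6 => a 6 / 64
  | 7 => a 7 / 128
  | _ => 0

lemma cos_step (φ : ℝ) (n : ℝ) :
    Real.cos ((n + 1) * φ) = 2 * Real.cos φ * Real.cos (n * φ) - Real.cos ((n - 1) * φ) := by
  have h1 : (n + 1) * φ = n * φ + φ := by ring
  have h2 : (n - 1) * φ = n * φ - φ := by ring
  rw [h1, h2, Real.cos_add, Real.cos_sub]
  ring

lemma pk_sum (a : ℕ → ℝ) (φ : ℝ) :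
    pk a 0 + 2 * ∑ k ∈ Finset.range 7, pk a (k + 1) * Real.cos (((k : ℝ) + 1) * φ) =
      ∑ i ∈ Finset.range 8, a i * Real.cos φ ^ i := by
  set c := Real.cos φ with hc
  have h0 : Real.cos (((0 : ℕ) : ℝ) * φ) = 1 := by simp
  have k1 : Real.cos ((((0 : ℕ) : ℝ) + 1) * φ) = c := by simp [hc]
  have k2 : Real.cos ((((1 : ℕ) : ℝ) + 1) * φ) = 2 * c ^ 2 - 1 := by
    rw [cos_step]
    have e1 : ((1 : ℕ) : ℝ) * φ = φ := by simp
    have e2 : (((1 : ℕ) : ℝ) - 1) * φ = 0 := by simp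
    rw [e1, e2, Real.cos_zero, ← hc]; ring
  have k3 : Real.cos ((((2 : ℕ) : ℝ) + 1) * φ) = 4 * c ^ 3 - 3 * c := by
    rw [cos_step]
    have e1 : ((2 : ℕ) : ℝ) * φ = (((1 : ℕ) : ℝ) + 1) * φ := by push_cast; ring
    have e2 : (((2 : ℕ) : ℝ) - 1) * φ = (((0 : ℕ) : ℝ) + 1) * φ := by push_cast; ring
    rw [e1, e2, k2, k1, ← hc]; ring
  have k4 : Real.cos ((((3 : ℕ) : ℝ) + 1) * φ) = 8 * c ^ 4 - 8 * c ^ 2 + 1 := by
    rw [cos_step]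
    have e1 : ((3 : ℕ) : ℝ) * φ = (((2 : ℕ) : ℝ) + 1) * φ := by push_cast; ring
    have e2 : (((3 : ℕ) : ℝ) - 1) * φ = (((1 : ℕ) : ℝ) + 1) * φ := by push_cast; ring
    rw [e1, e2, k3, k2, ← hc]; ring
  have k5 : Real.cos ((((4 : ℕ) : ℝ) + 1) * φ) = 16 * c ^ 5 - 20 * c ^ 3 + 5 * c := by
    rw [cos_step]
    have e1 : ((4 : ℕ) : ℝ) * φ = (((3 : ℕ) : ℝ) + 1) * φ := by push_cast; ring
    have e2 : (((4 : ℕ) : ℝ) - 1) * φ = (((2 : ℕ) : ℝ) + 1) * φ := by push_cast; ring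
    rw [e1, e2, k4, k3, ← hc]; ring
  have k6 : Real.cos ((((5 : ℕ) : ℝ) + 1) * φ) = 32 * c ^ 6 - 48 * c ^ 4 + 18 * c ^ 2 - 1 := by
    rw [cos_step]
    have e1 : ((5 : ℕ) : ℝ) * φ = (((4 : ℕ) : ℝ) + 1) * φ := by push_cast; ring
    have e2 : (((5 : ℕ) : ℝ) - 1) * φ = (((3 : ℕ) : ℝ) + 1) * φ := by push_cast; ring
    rw [e1, e2, k5, k4, ← hc]; ring
  have k7 : Real.cos ((((6 : ℕ) : ℝ) + 1) * φ) =
      64 * c ^ 7 - 112 * c ^ 5 + 56 * c ^ 3 - 7 * c := by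
    rw [cos_step]
    have e1 : ((6 : ℕ) : ℝ) * φ = (((5 : ℕ) : ℝ) + 1) * φ := by push_cast; ring
    have e2 : (((6 : ℕ) : ℝ) - 1) * φ = (((4 : ℕ) : ℝ) + 1) * φ := by push_cast; ring
    rw [e1, e2, k6, k5, ← hc]; ring
  simp only [Finset.sum_range_succ, Finset.sum_range_zero, zero_add]
  rw [k1, k2, k3, k4, k5, k6, k7]
  simp only [pk, Nat.reduceAdd]
  ring

lemma sinc_double (φ : ℝ) :
    Real.sinc (φ / 2) ^ 2 * (1 + Real.cos φ) = 2 * Real.sinc φ ^ 2 := by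
  by_cases h : φ = 0
  · subst h
    simp
    norm_num
  · have h2 : φ / 2 ≠ 0 := by positivity
    rw [Real.sinc_of_ne_zero h, Real.sinc_of_ne_zero h2]
    have e1 : Real.cos φ = 2 * Real.cos (φ / 2) ^ 2 - 1 := by
      rw [← Real.cos_two_mul]; congr 1; ring
    have e2 : Real.sin φ = 2 * Real.sin (φ / 2) * Real.cos (φ / 2) := by
      rw [← Real.sin_two_mul]; congr 1; ring
    rw [e1, e2]
    field_simp
    ring

/-- coefficients of `A (1 + c) ((c - c1) (c - c2) (c - c3))²` -/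
noncomputable def ac (A c1 c2 c3 : ℝ) : ℕ → ℝ :=
  let e1 := c1 + c2 + c3
  let e2 := c1 * c2 + c1 * c3 + c2 * c3
  let e3 := c1 * c2 * c3
  -- square of `c³ - e1 c² + e2 c - e3`
  let s0 := e3 ^ 2
  let s1 := -2 * e2 * e3
  let s2 := e2 ^ 2 + 2 * e1 * e3
  let s3 := -2 * e3 - 2 * e1 * e2
  let s4 := e1 ^ 2 + 2 * e2
  let s5 := -2 * e1
  fun i => match i with
  | 0 => A * s0
  | 1 => A * (s1 + s0)
  | 2 => A * (s2 + s1)
  | 3 => A * (s3 + s2)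
  | 4 => A * (s4 + s3)
  | 5 => A * (s5 + s4)
  | 6 => A * (1 + s5)
  | 7 => A
  | _ => 0

lemma ac_sum (A c1 c2 c3 c : ℝ) : ∑ i ∈ Finset.range 8, ac A c1 c2 c3 i * c ^ i =
    A * (1 + c) * ((c - c1) * (c - c2) * (c - c3)) ^ 2 := by
  simp only [Finset.sum_range_succ, Finset.sum_range_zero, zero_add, ac]
  ring

/-- the closed form -/
noncomputable def HH (A c1 c2 c3 κ y : ℝ) : ℝ :=
  A / 4 * Real.sinc (Real.pi * κ * y / 4) ^ 2 * ((Real.cos (Real.pi * κ * y / 4) - c1) *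
    (Real.cos (Real.pi * κ * y / 4) - c2) * (Real.cos (Real.pi * κ * y / 4) - c3)) ^ 2

lemma RR_HH (A c1 c2 c3 : ℝ) {κ : ℝ} (hκ : 0 < κ) (hκ1 : κ ≤ 1) (x : ℝ) :
    ∫ α in (-1 : ℝ)..1, RR (pk (ac A c1 c2 c3)) κ α * Real.cos (2 * Real.pi * x * α) =
      HH A c1 c2 c3 κ x := by
  rw [RR_cos _ hκ hκ1, pk_sum, ac_sum]
  unfold HH
  set φ := Real.pi * κ * x / 4 with hφ
  have h1 : Real.pi * κ * x / 8 = φ / 2 := by rw [hφ]; ring
  have h2 := sinc_double φ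
  rw [h1]
  calc 1 / 8 * Real.sinc (φ / 2) ^ 2 * (A * (1 + Real.cos φ) *
        ((Real.cos φ - c1) * (Real.cos φ - c2) * (Real.cos φ - c3)) ^ 2)
      = A / 8 * (Real.sinc (φ / 2) ^ 2 * (1 + Real.cos φ)) *
        ((Real.cos φ - c1) * (Real.cos φ - c2) * (Real.cos φ - c3)) ^ 2 := by ring
    _ = _ := by rw [h2]; ring

lemma HH_nonneg {A : ℝ} (hA : 0 ≤ A) (c1 c2 c3 κ y : ℝ) : 0 ≤ HH A c1 c2 c3 κ y := by
  unfold HH
  positivity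

lemma HH_even (A c1 c2 c3 κ y : ℝ) : HH A c1 c2 c3 κ (-y) = HH A c1 c2 c3 κ y := by
  unfold HH
  have : Real.pi * κ * -y / 4 = -(Real.pi * κ * y / 4) := by ring
  rw [this, Real.cos_neg, Real.sinc_neg]

lemma sinc_sq_le (t : ℝ) : Real.sinc t ^ 2 * (1 + t ^ 2) ≤ 2 := by
  have h1 : |Real.sinc t| ≤ 1 := Real.abs_sinc_le_one t
  have h2 : Real.sinc t ^ 2 ≤ 1 := by
    rw [← sq_abs]
    exact pow_le_one₀ (abs_nonneg _) h1
  have h3 : Real.sinc t ^ 2 * t ^ 2 ≤ 1 := by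
    by_cases h : t = 0
    · subst h; simp
    · rw [Real.sinc_of_ne_zero h, div_pow, div_mul_cancel₀ _ (by positivity)]
      exact Real.sin_sq_le_one t
  linarith

lemma HH_decay {A : ℝ} (hA : 0 ≤ A) (c1 c2 c3 : ℝ) {κ : ℝ} (hκ : 0 < κ) :
    ∃ K : ℝ, ∀ y : ℝ, |HH A c1 c2 c3 κ y| ≤ K / (1 + y ^ 2) := by
  set P := ((1 + |c1|) * (1 + |c2|) * (1 + |c3|)) ^ 2 with hP
  set q := 1 + (4 / (Real.pi * κ)) ^ 2 with hq
  refine ⟨A / 4 * (2 * q) * P, fun y => ?_⟩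
  have hpi := Real.pi_pos
  rw [abs_of_nonneg (HH_nonneg hA _ _ _ _ _), le_div_iff₀ (by positivity)]
  unfold HH
  set φ := Real.pi * κ * y / 4 with hφ
  have hc : ∀ d : ℝ, |Real.cos φ - d| ≤ 1 + |d| := by
    intro d
    calc |Real.cos φ - d| ≤ |Real.cos φ| + |d| := abs_sub _ _
      _ ≤ 1 + |d| := by linarith [Real.abs_cos_le_one φ]
  have h1 : ((Real.cos φ - c1) * (Real.cos φ - c2) * (Real.cos φ - c3)) ^ 2 ≤ P := by
    rw [hP, ← sq_abs]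
    apply pow_le_pow_left₀ (abs_nonneg _)
    rw [abs_mul, abs_mul]
    gcongr
    · exact hc c1
    · exact hc c2
    · exact hc c3
  have hy : 1 + y ^ 2 ≤ q * (1 + φ ^ 2) := by
    have e : y ^ 2 = (4 / (Real.pi * κ)) ^ 2 * φ ^ 2 := by
      rw [hφ]; field_simp
    rw [e, hq]
    nlinarith [sq_nonneg (4 / (Real.pi * κ)), sq_nonneg φ]
  have h2 : Real.sinc φ ^ 2 * (1 + y ^ 2) ≤ 2 * q := by
    calc Real.sinc φ ^ 2 * (1 + y ^ 2) ≤ Real.sinc φ ^ 2 * (q * (1 + φ ^ 2)) :=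
          mul_le_mul_of_nonneg_left hy (sq_nonneg _)
      _ = q * (Real.sinc φ ^ 2 * (1 + φ ^ 2)) := by ring
      _ ≤ q * 2 := mul_le_mul_of_nonneg_left (sinc_sq_le φ) (by positivity)
      _ = 2 * q := by ring
  calc A / 4 * Real.sinc φ ^ 2 * ((Real.cos φ - c1) * (Real.cos φ - c2) * (Real.cos φ - c3)) ^ 2 *
        (1 + y ^ 2) = A / 4 * (Real.sinc φ ^ 2 * (1 + y ^ 2)) *
          ((Real.cos φ - c1) * (Real.cos φ - c2) * (Real.cos φ - c3)) ^ 2 := by ring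
    _ ≤ A / 4 * (2 * q) * P := by gcongr

lemma HH_zero (A c1 c2 c3 κ : ℝ) :
    HH A c1 c2 c3 κ 0 = A / 4 * ((1 - c1) * (1 - c2) * (1 - c3)) ^ 2 := by
  unfold HH
  simp

/-- the constant of Montgomery's theorem -/
lemma RR_mont (p : ℕ → ℝ) {κ : ℝ} (hκ : 0 < κ) (hκ1 : κ ≤ 1) :
    RR p κ 0 + 2 * ∫ α in (0 : ℝ)..1, α * RR p κ α =
      p 0 / κ + κ * (p 0 / 192 + ∑ k ∈ Finset.range 7, p (k + 1) * ((k : ℝ) + 1) / 32) := by
  rw [RR_zero p hκ, RR_mom p hκ hκ1]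
  have : ∑ k ∈ Finset.range 7, p (k + 1) * ((k : ℝ) + 1) / 32 =
      2 * ∑ k ∈ Finset.range 7, p (k + 1) * ((k : ℝ) + 1) / 64 := by
    rw [Finset.mul_sum]
    refine Finset.sum_congr rfl fun k _ => ?_
    ring
  rw [this]
  ring

end Pool.Agent.Y748
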