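import Pool.Agent.Y748.Seq4
import Pool.Agent.Results.MP_103a5c_nt.BohrSetPairs
import Pool.Agent.TH803.TW.Split
import Pool.Agent.W249.TCF.Idx
import Pool.Agent.H382L.GapUnif

/-! The zeros of zeta. -/

open Complex Filter Topology Set MeasureTheory

namespace Pool.Agent.Y748

open SG (ord NZ zmult ZS)
open W200.HW (Ix mem_Ix)
open Pool.Agent.Results.MP_103a5c_nt.BohrSetPairs

lemma zeros_fin {a : ℝ} (b : ℝ) (ha : 1 ≤ a) : (zeros a b).Finite := by
  rw [zeros_eq]
  exact H370.zset_finite H370.good_zeta a b ha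

/-- sums over zeros as sums over indices -/
lemma block_sum (RH : RiemannHypothesis) {a b : ℝ} (ha : 1 ≤ a) (f : ℝ → ℝ) :
    ∑ᶠ s ∈ zeros a b, (mult s : ℝ) * f s.im =
      ∑ n ∈ Finset.Ioc (NZ a) (NZ b), f (ord n) := by
  classical
  have hfin := zeros_fin b ha
  rw [finsum_mem_eq_finite_toFinset_sum _ hfin]
  have hmaps : ∀ n ∈ Finset.Ioc (NZ a) (NZ b),
      (1 / 2 + I * ord n : ℂ) ∈ hfin.toFinset := by
    intro n hn
    rw [Finset.mem_Ioc] at hn
    have hn1 : 1 ≤ n := by omega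
    have hb : n ∈ Ix b := by
      rw [mem_Ix]
      exact ⟨hn1, (SG.ord_le_iff hn1 b).2 hn.2⟩
    obtain ⟨h0, h1, h2, h3, h4⟩ := W200.HW.zero_at RH hb
    rw [Set.Finite.mem_toFinset]
    refine ⟨h0, h1, h2, ?_, h4⟩
    have e : (1 / 2 + I * ord n : ℂ).im = ord n := by simp
    rw [e]
    by_contra hcon
    rw [not_lt] at hcon
    have := (SG.ord_le_iff hn1 a).1 hcon
    omega
  rw [← Finset.sum_fiberwise_of_maps_to hmaps (fun n => f (ord n))]
  refine Finset.sum_congr rfl fun s hs => ?_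
  rw [Set.Finite.mem_toFinset] at hs
  obtain ⟨h0, h1, h2, h3, h4⟩ := hs
  have hpos : 0 < s.im := by linarith
  have hre := W200.HW.re_half RH h0 hpos
  have hsb : s ∈ ZS b := ⟨h0, h1, h2, hpos, h4⟩
  have hcard := W200.HW.ord_fib RH hsb
  have hset : (Finset.Ioc (NZ a) (NZ b)).filter (fun n => (1 / 2 + I * ord n : ℂ) = s) =
      (Ix b).filter (fun n => ord n = s.im) := by
    ext n
    rw [Finset.mem_filter, Finset.mem_filter, Finset.mem_Ioc, mem_Ix]
    constructor
    · rintro ⟨⟨k1, k2⟩, k3⟩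
      refine ⟨⟨by omega, (SG.ord_le_iff (by omega) b).2 k2⟩, ?_⟩
      rw [← k3]; simp
    · rintro ⟨⟨k1, k2⟩, k3⟩
      refine ⟨⟨?_, (SG.ord_le_iff k1 b).1 k2⟩, ?_⟩
      · by_contra hcon
        rw [not_lt] at hcon
        have := (SG.ord_le_iff k1 a).2 hcon
        linarith
      · apply Complex.ext
        · simp [hre]
        · simp [k3]
  have hconst : ∀ n ∈ (Finset.Ioc (NZ a) (NZ b)).filter
      (fun n => (1 / 2 + I * ord n : ℂ) = s), f (ord n) = f s.im := by
    intro n hn
    rw [hset, Finset.mem_filter] at hn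
    rw [hn.2]
  rw [Finset.sum_congr rfl hconst, Finset.sum_const, hset, hcard, nsmul_eq_mul]
  rfl

lemma N_block (RH : RiemannHypothesis) {a b : ℝ} (ha : 1 ≤ a) (hab : a ≤ b) :
    (N a b : ℝ) = (NZ b : ℝ) - NZ a := by
  have h := block_sum RH (b := b) ha (fun _ => 1)
  simp only [mul_one, Finset.sum_const, Nat.card_Ioc, nsmul_eq_mul] at h
  rw [Nat.cast_sub (SG.NZ_mono hab)] at h
  rw [← h]
  unfold N
  rw [finsum_mem_eq_finite_toFinset_sum _ (zeros_fin b ha),
    finsum_mem_eq_finite_toFinset_sum _ (zeros_fin b ha)]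
  push_cast
  rfl

lemma pair_block (RH : RiemannHypothesis) {a b : ℝ} (ha : 1 ≤ a) (R w : ℝ → ℝ) (T : ℝ) :
    pairSum R w T a b = ∑ n ∈ Finset.Ioc (NZ a) (NZ b), ∑ m ∈ Finset.Ioc (NZ a) (NZ b),
      r R ((ord n - ord m) * Real.log T / (2 * Real.pi)) * w (ord n) := by
  unfold pairSum
  have h1 : ∀ s ∈ zeros a b, ∑ᶠ s' ∈ zeros a b, (mult s : ℝ) * (mult s' : ℝ) *
      (r R ((s.im - s'.im) * Real.log T / (2 * Real.pi)) * w s.im) =
      (mult s : ℝ) * ∑ m ∈ Finset.Ioc (NZ a) (NZ b),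
        r R ((s.im - ord m) * Real.log T / (2 * Real.pi)) * w s.im := by
    intro s _
    have h2 := block_sum RH (b := b) ha
      (fun g => (mult s : ℝ) * (r R ((s.im - g) * Real.log T / (2 * Real.pi)) * w s.im))
    rw [Finset.mul_sum, ← h2]
    refine finsum_mem_congr rfl fun s' _ => ?_
    ring
  rw [finsum_mem_congr rfl h1]
  exact block_sum RH ha (fun g => ∑ m ∈ Finset.Ioc (NZ a) (NZ b),
    r R ((g - ord m) * Real.log T / (2 * Real.pi)) * w g)

lemma MW_block (RH : RiemannHypothesis) {a b : ℝ} (ha : 1 ≤ a) (w : ℝ → ℝ) :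
    TH803TW.MW riemannZeta a b w = ∑ n ∈ Finset.Ioc (NZ a) (NZ b), w (ord n) := by
  rw [← block_sum RH ha, zeros_eq]
  unfold TH803TW.MW
  rw [H370.finsum_Zf H370.good_zeta ha]
  rfl

/-- the upper bound in the Riemann von Mangoldt formula -/
lemma NZ_upper (RH : RiemannHypothesis) (ε : ℝ) (hε : 0 < ε) : ∃ T0 : ℝ, ∀ T : ℝ, T0 ≤ T →
    (NZ T : ℝ) ≤ (1 + ε) * nrm T := by
  obtain ⟨C, T1, hC, hT1, h⟩ := H370.nn_asymp H370.good_zeta
  have hpi := Real.pi_pos
  have hstep : ∀ T : ℝ, T1 ≤ T → (NZ (2 * T) : ℝ) - NZ T ≤ T * Real.log T / (2 * Real.pi) + C * T := by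
    intro T hT
    have h1 := h T hT T (2 * T) le_rfl (by linarith) (by linarith) le_rfl
    rw [← N_block RH (by linarith) (by linarith), N_eq]
    linarith [(abs_le.1 h1).2]
  set D := (NZ (2 * T1) : ℝ) with hD
  have hD0 : 0 ≤ D := Nat.cast_nonneg _
  have key : ∀ k : ℕ, ∀ X : ℝ, T1 ≤ X → X ≤ 2 ^ k * T1 →
      (NZ X : ℝ) ≤ X * Real.log X / (2 * Real.pi) + C * X + D := by
    have hsmall : ∀ X : ℝ, T1 ≤ X → X ≤ 2 * T1 →
        (NZ X : ℝ) ≤ X * Real.log X / (2 * Real.pi) + C * X + D := by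
      intro X hX1 hX
      have h1 : (NZ X : ℝ) ≤ D := by
        rw [hD]; exact_mod_cast SG.NZ_mono hX
      have h2 : 0 ≤ Real.log X := Real.log_nonneg (by linarith)
      have h3 : 0 ≤ X * Real.log X / (2 * Real.pi) := by
        have : 0 ≤ X := by linarith
        positivity
      have h4 : 0 ≤ C * X := mul_nonneg hC.le (by linarith)
      linarith
    intro k
    induction k with
    | zero =>
      intro X hX1 hX
      rw [pow_zero, one_mul] at hX
      exact hsmall X hX1 (by linarith)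
    | succ k ih =>
      intro X hX1 hX
      by_cases h2 : X ≤ 2 * T1
      · exact hsmall X hX1 h2
      · rw [not_le] at h2
        have h3 := ih (X / 2) (by linarith) (by rw [pow_succ] at hX; linarith)
        have h4 := hstep (X / 2) (by linarith)
        have e : 2 * (X / 2) = X := by ring
        rw [e] at h4
        have h5 : Real.log (X / 2) ≤ Real.log X :=
          Real.log_le_log (by linarith) (by linarith)
        have h6 : X / 2 * Real.log (X / 2) / (2 * Real.pi) ≤
            X / 2 * Real.log X / (2 * Real.pi) := by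
          apply div_le_div_of_nonneg_right _ (by positivity)
          exact mul_le_mul_of_nonneg_left h5 (by linarith)
        have e2 : X * Real.log X / (2 * Real.pi) = X / 2 * Real.log X / (2 * Real.pi) +
            X / 2 * Real.log X / (2 * Real.pi) := by ring
        rw [e2]
        nlinarith
  -- conclusion
  have hl : ∀ᶠ T : ℝ in atTop, 2 * Real.pi * (C + D) / ε ≤ Real.log T :=
    Real.tendsto_log_atTop.eventually_ge_atTop _
  obtain ⟨T2, hT2⟩ := hl.exists_forall_of_atTop
  refine ⟨max T1 (max T2 1), fun T hT => ?_⟩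
  have k1 : T1 ≤ T := (le_max_left _ _).trans hT
  have k2 : T2 ≤ T := (le_max_left _ _).trans ((le_max_right _ _).trans hT)
  have k3 : 1 ≤ T := (le_max_right _ _).trans ((le_max_right _ _).trans hT)
  obtain ⟨k, hk⟩ := pow_unbounded_of_one_lt (T / T1) (one_lt_two)
  rw [div_lt_iff₀ (by linarith)] at hk
  have h1 := key k T k1 hk.le
  have h2 := hT2 T k2
  rw [div_le_iff₀ hε] at h2
  have h3 : (C + D) * T ≤ ε * (T * Real.log T / (2 * Real.pi)) := by
    rw [← mul_div_assoc, le_div_iff₀ (by positivity)]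
    have := mul_le_mul_of_nonneg_right h2 (by linarith : 0 ≤ T)
    linarith
  have h4 : D ≤ D * T := le_mul_of_one_le_right hD0 k3
  unfold nrm
  linarith

/-- gaps tend to zero -/
lemma gap_zero (RH : RiemannHypothesis) :
    Tendsto (fun n : ℕ => ord (n + 1) - ord n) atTop (𝓝 0) := by
  have hRHs : SP.RHs := by
    intro s h1 h2 h0
    apply RH s h0
    · rintro ⟨k, hk⟩
      have := congrArg Complex.re hk
      simp at this
      have hk0 : (0 : ℝ) ≤ k := Nat.cast_nonneg k
      linarith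
    · intro h; rw [h] at h2; simp at h2
  obtain ⟨c, y0, hc, hy0, h⟩ := LG.gap_uniform hRHs
  have hpi := Real.pi_pos
  -- for every η, eventually dlt n < η log n
  rw [Metric.tendsto_nhds]
  intro η hη
  -- log log is large
  have hy : ∀ᶠ N : ℕ in atTop, y0 ≤ η / (4 * Real.pi) * Real.log N ∧
      2 ≤ c * (η / (4 * Real.pi)) * Real.log (η / (4 * Real.pi) * Real.log N) := by
    have t1 : Tendsto (fun N : ℕ => η / (4 * Real.pi) * Real.log N) atTop atTop :=
      (Real.tendsto_log_atTop.comp tendsto_natCast_atTop_atTop).const_mul_atTop (by positivity)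
    have t2 : Tendsto (fun N : ℕ => c * (η / (4 * Real.pi)) *
        Real.log (η / (4 * Real.pi) * Real.log N)) atTop atTop :=
      (Real.tendsto_log_atTop.comp t1).const_mul_atTop (by positivity)
    exact (t1.eventually_ge_atTop _).and (t2.eventually_ge_atTop _)
  -- ord n ≥ sqrt n eventually : log ord n ≥ (log n) / 2
  have hord : ∀ᶠ n : ℕ in atTop, Real.log n / 2 ≤ Real.log (ord n) := by
    obtain ⟨T0, hT0⟩ := NZ_upper RH 1 one_pos
    filter_upwards [SG.ord_tendsto.eventually_ge_atTop (max T0 10), eventually_ge_atTop 1] with n hn hn1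
    have k1 := hT0 (ord n) ((le_max_left _ _).trans hn)
    have k2 : 10 ≤ ord n := (le_max_right _ _).trans hn
    have k3 : (n : ℝ) ≤ NZ (ord n) := by exact_mod_cast (SG.ord_le_iff hn1 _).1 le_rfl
    have k4 : Real.log (ord n) ≤ ord n := by
      have := Real.log_le_sub_one_of_pos (show 0 < ord n by linarith)
      linarith
    have k5 : (n : ℝ) ≤ ord n ^ 2 := by
      refine (k3.trans k1).trans ?_
      unfold nrm
      rw [← mul_div_assoc, div_le_iff₀ (by positivity)]
      have h3 : (1 + 1) * (ord n * Real.log (ord n)) ≤ (1 + 1) * (ord n * ord n) := by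
        apply mul_le_mul_of_nonneg_left _ (by norm_num)
        exact mul_le_mul_of_nonneg_left k4 (by linarith)
      have h4 : (2 : ℝ) ≤ 2 * Real.pi := by linarith [Real.pi_gt_three]
      nlinarith [sq_nonneg (ord n)]
    have hn0 : (0 : ℝ) < n := by exact_mod_cast hn1
    have k6 := Real.log_le_log hn0 k5
    rw [Real.log_pow] at k6
    push_cast at k6
    linarith
  filter_upwards [hy, hord, eventually_ge_atTop 2, SG.ord_tendsto.eventually_ge_atTop 1] with
    n hn1 hn2 hn3 hn4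
  obtain ⟨hn1, hn1'⟩ := hn1
  have hnpos : (1 : ℝ) < n := by exact_mod_cast (by omega : 1 < n)
  have hlogn : 0 < Real.log n := Real.log_pos hnpos
  set y := η / (4 * Real.pi) * Real.log n with hydef
  have h1 := h n (by omega) y hn1
  have h2 : (n : ℝ) * Real.exp (-c * y * Real.log y) < 1 := by
    have h3 : 2 * Real.log n ≤ c * y * Real.log y := by
      have := mul_le_mul_of_nonneg_right hn1' hlogn.le
      rw [hydef]
      calc 2 * Real.log n ≤ c * (η / (4 * Real.pi)) * Real.log (η / (4 * Real.pi) * Real.log n) *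
            Real.log n := this
        _ = _ := by ring
    have h4 : Real.exp (-c * y * Real.log y) ≤ Real.exp (-(2 * Real.log n)) := by
      apply Real.exp_le_exp.2
      linarith
    have h5 : Real.exp (-(2 * Real.log n)) = ((n : ℝ) ^ 2)⁻¹ := by
      rw [Real.exp_neg, two_mul, Real.exp_add, Real.exp_log (by linarith), sq]
    rw [h5] at h4
    have hn0 : (0 : ℝ) < n := by linarith
    calc (n : ℝ) * Real.exp (-c * y * Real.log y) ≤ n * ((n : ℝ) ^ 2)⁻¹ :=
          mul_le_mul_of_nonneg_left h4 hn0.le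
      _ = (n : ℝ)⁻¹ := by field_simp
      _ < 1 := inv_lt_one_of_one_lt₀ hnpos
  have h3 : ({m : ℕ | 1 ≤ m ∧ m ≤ n ∧ y ≤ LG.dlt m}.ncard) = 0 := by
    have : (({m : ℕ | 1 ≤ m ∧ m ≤ n ∧ y ≤ LG.dlt m}.ncard : ℕ) : ℝ) < 1 := lt_of_le_of_lt h1 h2
    exact_mod_cast Nat.lt_one_iff.1 (by exact_mod_cast this)
  have hfin : {m : ℕ | 1 ≤ m ∧ m ≤ n ∧ y ≤ LG.dlt m}.Finite :=
    (Set.finite_Icc 1 n).subset fun m hm => ⟨hm.1, hm.2.1⟩
  rw [Set.ncard_eq_zero hfin] at h3
  have h4 : LG.dlt n < y := by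
    by_contra hcon
    rw [not_lt] at hcon
    have : n ∈ ({m : ℕ | 1 ≤ m ∧ m ≤ n ∧ y ≤ LG.dlt m} : Set ℕ) := ⟨by omega, le_rfl, hcon⟩
    rw [h3] at this
    exact this
  have hm := SG.ord_mono (by omega : 1 ≤ n) (Nat.le_succ n)
  have h5 : (ord (n + 1) - ord n) * Real.log (ord n) / (2 * Real.pi) ≤ LG.dlt n := by
    unfold LG.dlt
    apply div_le_div_of_nonneg_right _ (by positivity)
    exact conv_log (by linarith) hm
  have h6 : (ord (n + 1) - ord n) * (Real.log n / 2) / (2 * Real.pi) ≤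
      (ord (n + 1) - ord n) * Real.log (ord n) / (2 * Real.pi) := by
    apply div_le_div_of_nonneg_right _ (by positivity)
    exact mul_le_mul_of_nonneg_left hn2 (by linarith)
  have h7 : (ord (n + 1) - ord n) * (Real.log n / 2) / (2 * Real.pi) <
      η / (4 * Real.pi) * Real.log n := by linarith
  have h8 : (ord (n + 1) - ord n) * (Real.log n / 2) / (2 * Real.pi) =
      (ord (n + 1) - ord n) * (Real.log n / (4 * Real.pi)) := by
    field_simp
    ring
  have h9 : η / (4 * Real.pi) * Real.log n = η * (Real.log n / (4 * Real.pi)) := by ring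
  rw [h8, h9] at h7
  have h10 := lt_of_mul_lt_mul_right h7 (by positivity)
  rw [Real.dist_eq, sub_zero, abs_of_nonneg (by linarith)]
  exact h10

/-- the zeros of zeta -/
theorem good (RH : RiemannHypothesis) : Good ord NZ where
  pos := fun n hn => SG.ord_pos hn
  le_iff := fun n hn t => SG.ord_le_iff hn t
  cnt := fun ε hε => by
    obtain ⟨T0, hT0⟩ := NZ_upper RH ε hε
    obtain ⟨T1, hT1⟩ := W200.HW.NZ_lower ε hε
    refine ⟨max T0 T1, fun T hT => ⟨?_, hT0 T ((le_max_left _ _).trans hT)⟩⟩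
    refine le_trans (le_of_eq ?_) (hT1 T ((le_max_right _ _).trans hT))
    unfold nrm
    ring
  gap := gap_zero RH

lemma AP_uc {φ : ℝ → ℝ} (h : AlmostPeriodic φ) : UniformContinuous φ := by
  rw [Metric.uniformContinuous_iff]
  intro ε hε
  obtain ⟨S, c, hS⟩ := h (ε / 3) (by positivity)
  set L := ∑ τ ∈ S, ‖c τ‖ * |τ| with hL
  have hL0 : 0 ≤ L := Finset.sum_nonneg fun _ _ => by positivity
  refine ⟨ε / (3 * (L + 1)), by positivity, fun {a b} hab => ?_⟩
  have h1 := TH803TW.tp_lip S c a b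
  have h2 : |φ a - TH803TW.tp S c a| ≤ ε / 3 := hS a
  have h3 : |φ b - TH803TW.tp S c b| ≤ ε / 3 := hS b
  rw [Real.dist_eq] at hab ⊢
  have h4 : L * |a - b| < ε / 3 := by
    calc L * |a - b| ≤ (L + 1) * |a - b| := by nlinarith [abs_nonneg (a - b)]
      _ < (L + 1) * (ε / (3 * (L + 1))) := by
          apply mul_lt_mul_of_pos_left hab (by linarith)
      _ = ε / 3 := by field_simp
  have e : φ a - φ b = (φ a - TH803TW.tp S c a) + (TH803TW.tp S c a - TH803TW.tp S c b) -
      (φ b - TH803TW.tp S c b) := by ring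
  rw [e]
  calc |(φ a - TH803TW.tp S c a) + (TH803TW.tp S c a - TH803TW.tp S c b) -
      (φ b - TH803TW.tp S c b)| ≤ |(φ a - TH803TW.tp S c a) +
        (TH803TW.tp S c a - TH803TW.tp S c b)| + |φ b - TH803TW.tp S c b| := abs_sub _ _
    _ ≤ |φ a - TH803TW.tp S c a| + |TH803TW.tp S c a - TH803TW.tp S c b| +
        |φ b - TH803TW.tp S c b| := add_le_add (abs_add_le _ _) le_rfl
    _ < ε := by linarith

end Pool.Agent.Y748
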